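import Mathlib
import Pool.Agent.Work.MP_a98e4e_ag.Fu.DLink
import Pool.Agent.Work.MP_a98e4e_ag.Fu.XE.PhiDefs

section

/-!
# LICCI, codimension 6 (XE): vanishing of `Ext ^ i (N, R)` for `i = 2, 3`

Closure properties of the class of finite modules `N` with `Ext ^ 2 (N, R) = Ext ^ 3 (N, R) = 0`:
invariance under maps which are isomorphisms up to modules killed by a power of the maximal ideal,
and extensions. Everything comes from the long exact sequence and the theorem of Rees in Mathlib.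
-/

namespace Pool.Agent.Licci.XE

open CategoryTheory Abelian RingTheory.Sequence IsLocalRing

universe u

variable {R : Type u} [CommRing R]

/-- `Ext ^ i (N, R) = 0` -/
def SE (N : Type u) [AddCommGroup N] [Module R N] (i : ℕ) : Prop :=
  Subsingleton (Ext (ModuleCat.of R N) (ModuleCat.of R R) i)

variable {A B C : Type u} [AddCommGroup A] [Module R A] [AddCommGroup B] [Module R B]
  [AddCommGroup C] [Module R C]

/-- the short exact sequence of linear maps -/
theorem shortExact_of {f : A →ₗ[R] B} {g : B →ₗ[R] C} (hf : Function.Injective f)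
    (hfg : Function.Exact f g) (hg : Function.Surjective g) :
    (ShortComplex.mk (ModuleCat.ofHom f) (ModuleCat.ofHom g) (by
      ext x; exact hfg.apply_apply_eq_zero x)).ShortExact where
  exact := (ShortComplex.ShortExact.moduleCat_exact_iff_function_exact _).2 hfg
  mono_f := (ModuleCat.mono_iff_injective _).2 hf
  epi_g := (ModuleCat.epi_iff_surjective _).2 hg

section les

variable {f : A →ₗ[R] B} {g : B →ₗ[R] C} (hf : Function.Injective f)
    (hfg : Function.Exact f g) (hg : Function.Surjective g)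

include hf hfg hg

theorem SE.mid {i : ℕ} (hA : SE (R := R) A i) (hC : SE (R := R) C i) : SE (R := R) B i := by
  have hS := shortExact_of hf hfg hg
  refine ⟨fun x y => ?_⟩
  unfold SE at hA hC
  have h : ∀ z : Ext (ModuleCat.of R B) (ModuleCat.of R R) i, z = 0 := by
    intro z
    obtain ⟨w, hw⟩ := Ext.contravariant_sequence_exact₂ hS (ModuleCat.of R R) z
      (hA.elim _ _)
    rw [← hw, hC.elim w 0, Ext.comp_zero]
  rw [h x, h y]

theorem SE.left {i : ℕ} (hB : SE (R := R) B i) (hC : SE (R := R) C (1 + i)) :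
    SE (R := R) A i := by
  have hS := shortExact_of hf hfg hg
  unfold SE at hB hC
  refine ⟨fun x y => ?_⟩
  have h : ∀ z : Ext (ModuleCat.of R A) (ModuleCat.of R R) i, z = 0 := by
    intro z
    obtain ⟨w, hw⟩ := Ext.contravariant_sequence_exact₁ hS (ModuleCat.of R R) z rfl
      (hC.elim _ _)
    rw [← hw, hB.elim w 0, Ext.comp_zero]
  rw [h x, h y]

theorem SE.right {i : ℕ} (hA : SE (R := R) A i) (hB : SE (R := R) B (1 + i)) :
    SE (R := R) C (1 + i) := by
  have hS := shortExact_of hf hfg hg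
  unfold SE at hA hB
  refine ⟨fun x y => ?_⟩
  have h : ∀ z : Ext (ModuleCat.of R C) (ModuleCat.of R R) (1 + i), z = 0 := by
    intro z
    obtain ⟨w, hw⟩ := Ext.contravariant_sequence_exact₃ hS (ModuleCat.of R R) z
      (hB.elim _ _) rfl
    rw [← hw, hA.elim w 0, Ext.comp_zero]
  rw [h x, h y]

end les

/-- free modules -/
theorem SE.free [Module.Free R A] (i : ℕ) : SE (R := R) A (1 + i) := by
  rw [add_comm]
  have : Projective (ModuleCat.of R A) := by
    have : Module.Projective R A := inferInstance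
    exact (IsProjective.iff_projective A).1 this
  exact ⟨fun x y => (Ext.eq_zero_of_projective x).trans (Ext.eq_zero_of_projective y).symm⟩

theorem SE.zero_of {i : ℕ} [Subsingleton A] : SE (R := R) A i := by
  cases i with
  | zero =>
    have : Subsingleton (A →ₗ[R] R) := ⟨fun f g => LinearMap.ext fun x => by
      rw [Subsingleton.elim x 0, map_zero, map_zero]⟩
    exact (Ext.addEquiv₀.trans ModuleCat.homAddEquiv).subsingleton
  | succ n =>
    have h := SE.free (R := R) (A := A) n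
    rwa [add_comm] at h

theorem SE.congr (e : A ≃ₗ[R] B) {i : ℕ} (h : SE (R := R) A i) : SE (R := R) B i := by
  refine SE.mid (A := A) (C := PUnit) (f := e.toLinearMap) (g := 0) e.injective ?_ ?_ h
    SE.zero_of
  · intro x
    exact ⟨fun _ => e.surjective x, fun _ => Subsingleton.elim _ _⟩
  · intro x
    exact ⟨0, Subsingleton.elim _ _⟩

/-- killed by a power of the maximal ideal -/
def Tors (R : Type u) [CommRing R] [IsLocalRing R] (M : Type u) [AddCommGroup M] [Module R M] :
    Prop :=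
  ∃ k : ℕ, ∀ r ∈ maximalIdeal R ^ k, ∀ x : M, r • x = 0

variable (R) in
/-- there is a regular sequence of length six -/
def Depth6 [IsLocalRing R] : Prop :=
  ∃ rs : List R, rs.length = 6 ∧ (∀ r ∈ rs, r ∈ maximalIdeal R) ∧ IsRegular R rs

/-- Rees -/
theorem SE.tors [IsLocalRing R] [IsNoetherianRing R] (hd : Depth6 R) [Module.Finite R A]
    (hA : Tors R A) {i : ℕ} (hi : i < 6) : SE (R := R) A i := by
  obtain ⟨rs, hlen, hmem, hreg⟩ := hd
  obtain ⟨k, hk⟩ := hA
  have h := ModuleCat.subsingleton_ext_of_exists_isRegular (maximalIdeal R) (ModuleCat.of R A) ?_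
    (ModuleCat.of R R) ?_ rs hmem hreg i (by omega)
  · exact h
  · rw [Module.support_eq_zeroLocus, PrimeSpectrum.zeroLocus_subset_zeroLocus_iff]
    intro r hr
    refine ⟨k, ?_⟩
    rw [Module.mem_annihilator]
    exact fun x => hk _ (Ideal.pow_mem_pow hr k) x
  · refine lt_top_iff_ne_top.2 ?_
    intro h
    have h1 : maximalIdeal R • (⊤ : Submodule R R) = ⊤ := h
    rw [smul_eq_mul, Ideal.mul_top] at h1
    exact Ideal.IsPrime.ne_top inferInstance h1

variable (R) in
/-- `Ext ^ 2 (N, R) = Ext ^ 3 (N, R) = 0` -/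
def H23 (N : Type u) [AddCommGroup N] [Module R N] : Prop :=
  SE (R := R) N 2 ∧ SE (R := R) N 3

section

variable [IsLocalRing R] [IsNoetherianRing R] (hd : Depth6 R)

include hd

/-- quotient by torsion -/
theorem H23.quot [Module.Finite R A] {f : A →ₗ[R] B} {g : B →ₗ[R] C}
    (hf : Function.Injective f) (hfg : Function.Exact f g) (hg : Function.Surjective g)
    (hA : Tors R A) : H23 R B ↔ H23 R C := by
  constructor
  · rintro ⟨h2, h3⟩
    exact ⟨SE.right hf hfg hg (i := 1) (SE.tors hd hA (by norm_num)) h2,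
      SE.right hf hfg hg (i := 2) (SE.tors hd hA (by norm_num)) h3⟩
  · rintro ⟨h2, h3⟩
    exact ⟨SE.mid hf hfg hg (SE.tors hd hA (by norm_num)) h2,
      SE.mid hf hfg hg (SE.tors hd hA (by norm_num)) h3⟩

/-- submodule with torsion quotient -/
theorem H23.sub [Module.Finite R C] {f : A →ₗ[R] B} {g : B →ₗ[R] C}
    (hf : Function.Injective f) (hfg : Function.Exact f g) (hg : Function.Surjective g)
    (hC : Tors R C) : H23 R A ↔ H23 R B := by
  constructor
  · rintro ⟨h2, h3⟩
    exact ⟨SE.mid hf hfg hg h2 (SE.tors hd hC (by norm_num)),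
      SE.mid hf hfg hg h3 (SE.tors hd hC (by norm_num))⟩
  · rintro ⟨h2, h3⟩
    exact ⟨SE.left hf hfg hg h2 (SE.tors hd hC (by norm_num)),
      SE.left hf hfg hg h3 (SE.tors hd hC (by norm_num))⟩

end

/-- extensions -/
theorem H23.ext {f : A →ₗ[R] B} {g : B →ₗ[R] C}
    (hf : Function.Injective f) (hfg : Function.Exact f g) (hg : Function.Surjective g)
    (hA : H23 R A) (hC : H23 R C) : H23 R B :=
  ⟨SE.mid hf hfg hg hA.1 hC.1, SE.mid hf hfg hg hA.2 hC.2⟩

theorem H23.free [Module.Free R A] : H23 R A := ⟨SE.free 1, SE.free 2⟩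

theorem H23.congr (e : A ≃ₗ[R] B) (h : H23 R A) : H23 R B := ⟨h.1.congr e, h.2.congr e⟩

end Pool.Agent.Licci.XE

end

section

/-!
# LICCI, codimension 6 (XE): vanishing of `Ext` and exactness of the dual of a free resolution
-/

namespace Pool.Agent.Licci.XE

open CategoryTheory Abelian

universe u

variable {R : Type u} [CommRing R]

variable {K P N : Type u} [AddCommGroup K] [Module R K] [AddCommGroup P] [Module R P]
  [AddCommGroup N] [Module R N]

/-- `Ext ^ 1 (N, R) = 0` iff all linear forms on the syzygy extend -/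
theorem SE.one_iff [Module.Free R P] {f : K →ₗ[R] P} {g : P →ₗ[R] N} (hf : Function.Injective f)
    (hfg : Function.Exact f g) (hg : Function.Surjective g) :
    SE (R := R) N 1 ↔ ∀ φ : K →ₗ[R] R, ∃ ψ : P →ₗ[R] R, ψ ∘ₗ f = φ := by
  have hS := shortExact_of hf hfg hg
  have hP : Projective (ModuleCat.of R P) := by
    have : Module.Projective R P := inferInstance
    exact (IsProjective.iff_projective P).1 this
  constructor
  · intro h φ
    unfold SE at h
    obtain ⟨x, hx⟩ := Ext.contravariant_sequence_exact₁ hS (ModuleCat.of R R)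
      (Ext.mk₀ (ModuleCat.ofHom φ)) (n₁ := 1) rfl (h.elim _ _)
    obtain ⟨ψ, rfl⟩ := (Ext.mk₀_bijective _ _).2 x
    rw [Ext.mk₀_comp_mk₀] at hx
    have h2 := (Ext.mk₀_bijective _ _).1 hx
    refine ⟨ψ.hom, ?_⟩
    have h3 := congrArg ModuleCat.Hom.hom h2
    exact h3
  · intro h
    have hz : ∀ z : Ext (ModuleCat.of R N) (ModuleCat.of R R) 1, z = 0 := by
      intro z
      obtain ⟨x, hx⟩ := Ext.contravariant_sequence_exact₃ hS (ModuleCat.of R R) z
        (Ext.eq_zero_of_projective _) (n₀ := 0) rfl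
      obtain ⟨φ, rfl⟩ := (Ext.mk₀_bijective _ _).2 x
      obtain ⟨ψ, hψ⟩ := h φ.hom
      have h2 : φ = ModuleCat.ofHom f ≫ ModuleCat.ofHom ψ := by
        ext y
        exact (LinearMap.congr_fun hψ y).symm
      rw [← hx, h2, ← Ext.mk₀_comp_mk₀]
      exact ShortComplex.ShortExact.extClass_comp_assoc hS _
    exact ⟨fun x y => (hz x).trans (hz y).symm⟩

/-- dimension shift -/
theorem SE.shift [Module.Free R P] {f : K →ₗ[R] P} {g : P →ₗ[R] N} (hf : Function.Injective f)
    (hfg : Function.Exact f g) (hg : Function.Surjective g) (i : ℕ) :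
    SE (R := R) K (i + 1) ↔ SE (R := R) N (i + 2) := by
  have e1 : i + 1 = 1 + i := by omega
  have e2 : i + 2 = 1 + (1 + i) := by omega
  rw [e1, e2]
  constructor
  · intro h
    exact SE.right hf hfg hg h (SE.free _)
  · intro h
    exact SE.left hf hfg hg (SE.free i) h

section

variable {P0 P1 P2 P3 P4 : Type u} [AddCommGroup P0] [Module R P0] [AddCommGroup P1] [Module R P1]
  [AddCommGroup P2] [Module R P2] [AddCommGroup P3] [Module R P3] [AddCommGroup P4] [Module R P4]

/-- the map onto the syzygy -/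
def syz {e : P0 →ₗ[R] N} {d1 : P1 →ₗ[R] P0} (he : Function.Exact d1 e) : P1 →ₗ[R] LinearMap.ker e :=
  d1.codRestrict (LinearMap.ker e) fun x => by
    rw [LinearMap.mem_ker]; exact he.apply_apply_eq_zero x

theorem syz_apply {e : P0 →ₗ[R] N} {d1 : P1 →ₗ[R] P0} (he : Function.Exact d1 e) (x : P1) :
    ((syz he x : LinearMap.ker e) : P0) = d1 x := rfl

theorem syz_surj {e : P0 →ₗ[R] N} {d1 : P1 →ₗ[R] P0} (he : Function.Exact d1 e) :
    Function.Surjective (syz he) := by
  rintro ⟨x, hx⟩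
  obtain ⟨y, hy⟩ := (he x).1 hx
  exact ⟨y, Subtype.ext hy⟩

theorem syz_exact {e : P0 →ₗ[R] N} {d1 : P1 →ₗ[R] P0} {d2 : P2 →ₗ[R] P1} (he : Function.Exact d1 e)
    (h1 : Function.Exact d2 d1) : Function.Exact d2 (syz he) := by
  intro x
  rw [← h1 x]
  constructor
  · intro h
    have := congrArg Subtype.val h
    exact this
  · intro h
    exact Subtype.ext h

theorem ker_exact {e : P0 →ₗ[R] N} : Function.Exact (LinearMap.ker e).subtype e := by
  intro x
  simp

theorem SE.dual_one [Module.Free R P0] {d2 : P2 →ₗ[R] P1} {d1 : P1 →ₗ[R] P0} {e : P0 →ₗ[R] N}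
    (h1 : Function.Exact d2 d1) (h0 : Function.Exact d1 e) (he : Function.Surjective e) :
    SE (R := R) N 1 ↔ ∀ φ : P1 →ₗ[R] R, φ ∘ₗ d2 = 0 → ∃ ψ : P0 →ₗ[R] R, φ = ψ ∘ₗ d1 := by
  rw [SE.one_iff (f := (LinearMap.ker e).subtype) (g := e) (Submodule.injective_subtype _) ker_exact he]
  constructor
  · intro h φ hφ
    -- factor `φ` through the syzygy
    have hk : LinearMap.ker (syz h0) ≤ LinearMap.ker φ := by
      intro x hx
      rw [LinearMap.mem_ker] at hx ⊢
      obtain ⟨y, hy⟩ := (syz_exact h0 h1 x).1 hx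
      rw [← hy]
      exact LinearMap.congr_fun hφ y
    obtain ⟨φ', hφ'⟩ : ∃ φ' : LinearMap.ker e →ₗ[R] R, φ' ∘ₗ syz h0 = φ := by
      refine ⟨((LinearMap.ker (syz h0)).liftQ φ hk) ∘ₗ
        ((syz h0).quotKerEquivOfSurjective (syz_surj h0)).symm.toLinearMap, ?_⟩
      ext x
      have : ((syz h0).quotKerEquivOfSurjective (syz_surj h0)).symm (syz h0 x) =
          Submodule.Quotient.mk x := by
        rw [LinearEquiv.symm_apply_eq]
        rfl
      simp only [LinearMap.comp_apply, LinearEquiv.coe_coe, this, Submodule.liftQ_apply]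
    obtain ⟨ψ, hψ⟩ := h φ'
    refine ⟨ψ, ?_⟩
    rw [← hφ', ← hψ]
    rfl
  · intro h φ
    obtain ⟨ψ, hψ⟩ := h (φ ∘ₗ syz h0) (by
      ext y
      have : syz h0 (d2 y) = 0 := (syz_exact h0 h1).apply_apply_eq_zero y
      simp [this])
    refine ⟨ψ, ?_⟩
    ext x
    obtain ⟨y, rfl⟩ := syz_surj h0 x
    exact (LinearMap.congr_fun hψ y).symm

theorem SE.dual_two [Module.Free R P0] [Module.Free R P1] {d3 : P3 →ₗ[R] P2} {d2 : P2 →ₗ[R] P1}
    {d1 : P1 →ₗ[R] P0} {e : P0 →ₗ[R] N} (h2 : Function.Exact d3 d2) (h1 : Function.Exact d2 d1)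
    (h0 : Function.Exact d1 e) (he : Function.Surjective e) :
    SE (R := R) N 2 ↔ ∀ φ : P2 →ₗ[R] R, φ ∘ₗ d3 = 0 → ∃ ψ : P1 →ₗ[R] R, φ = ψ ∘ₗ d2 := by
  rw [← SE.shift (f := (LinearMap.ker e).subtype) (g := e) (Submodule.injective_subtype _) ker_exact he 0]
  exact SE.dual_one h2 (syz_exact h0 h1) (syz_surj h0)

theorem SE.dual_three [Module.Free R P0] [Module.Free R P1] [Module.Free R P2] {d4 : P4 →ₗ[R] P3}
    {d3 : P3 →ₗ[R] P2} {d2 : P2 →ₗ[R] P1} {d1 : P1 →ₗ[R] P0} {e : P0 →ₗ[R] N}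
    (h3 : Function.Exact d4 d3) (h2 : Function.Exact d3 d2) (h1 : Function.Exact d2 d1)
    (h0 : Function.Exact d1 e) (he : Function.Surjective e) :
    SE (R := R) N 3 ↔ ∀ φ : P3 →ₗ[R] R, φ ∘ₗ d4 = 0 → ∃ ψ : P2 →ₗ[R] R, φ = ψ ∘ₗ d3 := by
  rw [← SE.shift (f := (LinearMap.ker e).subtype) (g := e) (Submodule.injective_subtype _) ker_exact he 1]
  exact SE.dual_two h3 h2 (syz_exact h0 h1) (syz_surj h0)

/-- the condition `H23` in terms of a free resolution -/
theorem H23.dual [Module.Free R P0] [Module.Free R P1] [Module.Free R P2] {d4 : P4 →ₗ[R] P3}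
    {d3 : P3 →ₗ[R] P2} {d2 : P2 →ₗ[R] P1} {d1 : P1 →ₗ[R] P0} {e : P0 →ₗ[R] N}
    (h3 : Function.Exact d4 d3) (h2 : Function.Exact d3 d2) (h1 : Function.Exact d2 d1)
    (h0 : Function.Exact d1 e) (he : Function.Surjective e) :
    H23 R N ↔ (∀ φ : P2 →ₗ[R] R, φ ∘ₗ d3 = 0 → ∃ ψ : P1 →ₗ[R] R, φ = ψ ∘ₗ d2) ∧
      (∀ φ : P3 →ₗ[R] R, φ ∘ₗ d4 = 0 → ∃ ψ : P2 →ₗ[R] R, φ = ψ ∘ₗ d3) := by
  unfold H23
  rw [SE.dual_two h2 h1 h0 he, SE.dual_three h3 h2 h1 h0 he]

end

/-! ### Free resolutions -/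

theorem exists_cover [IsNoetherianRing R] {M : Type u} [AddCommGroup M] [Module R M] [Module.Finite R M] :
    ∃ (n : ℕ) (g : (Fin n → R) →ₗ[R] M), Function.Surjective g :=
  Module.Finite.exists_fin' R M

/-- one step of the resolution: a submodule of `R ^ n` and a submodule of `R ^ m` which is the kernel of a
surjection onto it -/
theorem exists_step [IsNoetherianRing R] (s : Σ n : ℕ, Submodule R (Fin n → R)) :
    ∃ t : Σ m : ℕ, Submodule R (Fin m → R), ∃ g : (Fin t.1 → R) →ₗ[R] (Fin s.1 → R),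
      LinearMap.range g = s.2 ∧ LinearMap.ker g = t.2 := by
  obtain ⟨m, g, hg⟩ := exists_cover (R := R) (M := s.2)
  refine ⟨⟨m, LinearMap.ker (s.2.subtype ∘ₗ g)⟩, s.2.subtype ∘ₗ g, ?_, rfl⟩
  rw [LinearMap.range_comp, LinearMap.range_eq_top.2 hg, Submodule.map_top, Submodule.range_subtype]

/-- a finite module over a noetherian ring has a resolution by finite free modules -/
theorem exists_resolution [IsNoetherianRing R] (M : Type u) [AddCommGroup M] [Module R M]
    [Module.Finite R M] :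
    ∃ (n : ℕ → ℕ) (d : ∀ i : ℕ, (Fin (n (i + 1)) → R) →ₗ[R] (Fin (n i) → R)) (e : (Fin (n 0) → R) →ₗ[R] M),
      Function.Surjective e ∧ Function.Exact (d 0) e ∧ ∀ i, Function.Exact (d (i + 1)) (d i) := by
  obtain ⟨n0, e, he⟩ := exists_cover (R := R) (M := M)
  choose nxt g hg1 hg2 using exists_step (R := R)
  let s : ℕ → Σ n : ℕ, Submodule R (Fin n → R) := fun i => Nat.rec ⟨n0, LinearMap.ker e⟩ (fun _ t => nxt t) i
  have hs : ∀ i, s (i + 1) = nxt (s i) := fun i => rfl
  refine ⟨fun i => (s i).1, fun i => g (s i), e, he, ?_, ?_⟩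
  · rw [LinearMap.exact_iff]
    exact (hg1 (s 0)).symm
  · intro i
    rw [LinearMap.exact_iff]
    exact (hg2 (s i)).trans (hg1 (s (i + 1))).symm

end Pool.Agent.Licci.XE

end

section

/-!
# LICCI, codimension 6 (XE): `H23` for the dual of the kernel of a complex
-/

namespace Pool.Agent.Licci.XE

open RingTheory.Sequence IsLocalRing

universe u

variable {R : Type u} [CommRing R]

/-- the dual of a finite module over a noetherian ring is finite -/
theorem finite_dualN [IsNoetherianRing R] (N : Type u) [AddCommGroup N] [Module R N]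
    [Module.Finite R N] : Module.Finite R (Module.Dual R N) := by
  obtain ⟨n, g, hg⟩ := Module.Finite.exists_fin' R N
  have hinj : Function.Injective g.dualMap := LinearMap.dualMap_injective_of_surjective hg
  exact Module.Finite.of_injective g.dualMap hinj

/-- the conclusion for the kernel of the first map of a complex of finite free modules -/
theorem H23_dual_ker3 [IsLocalRing R] [IsNoetherianRing R] (hd : Depth6 R)
    {C0 C1 C2 C3 C4 : Type u} [AddCommGroup C0] [Module R C0] [AddCommGroup C1] [Module R C1]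
    [AddCommGroup C2] [Module R C2] [AddCommGroup C3] [Module R C3] [AddCommGroup C4] [Module R C4]
    [Module.Free R C0] [Module.Finite R C0] [Module.Free R C1] [Module.Finite R C1]
    [Module.Free R C2] [Module.Finite R C2] [Module.Free R C3] [Module.Finite R C3]
    [Module.Free R C4] [Module.Finite R C4]
    (D0 : C0 →ₗ[R] C1) (D1 : C1 →ₗ[R] C2) (D2 : C2 →ₗ[R] C3) (D3 : C3 →ₗ[R] C4)
    (h10 : ∀ c, D1 (D0 c) = 0) (h21 : ∀ c, D2 (D1 c) = 0) (h32 : ∀ c, D3 (D2 c) = 0)
    (e2 : ∀ c, D2 c = 0 → ∃ c', D1 c' = c) (e3 : ∀ c, D3 c = 0 → ∃ c', D2 c' = c)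
    (x1 : ∀ φ : C1 →ₗ[R] R, φ ∘ₗ D0 = 0 → ∃ ψ : C2 →ₗ[R] R, φ = ψ ∘ₗ D1)
    (x2 : ∀ φ : C2 →ₗ[R] R, φ ∘ₗ D1 = 0 → ∃ ψ : C3 →ₗ[R] R, φ = ψ ∘ₗ D2)
    (x3 : ∀ φ : C3 →ₗ[R] R, φ ∘ₗ D2 = 0 → ∃ ψ : C4 →ₗ[R] R, φ = ψ ∘ₗ D3)
    (k : ℕ) (hs : ∀ y ∈ maximalIdeal R ^ k, ∃ (s1 : C1 →ₗ[R] C0) (s2 : C2 →ₗ[R] C1),
      ∀ c, D0 (s1 c) + s2 (D1 c) = y • c) :
    H23 R (Module.Dual R (LinearMap.ker D0)) := by
  -- the cokernel of the dual complex
  let N : Type u := Module.Dual R C0 ⧸ LinearMap.range D0.dualMap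
  let e : Module.Dual R C0 →ₗ[R] N := (LinearMap.range D0.dualMap).mkQ
  have he : Function.Surjective e := Submodule.mkQ_surjective _
  have h0 : Function.Exact D0.dualMap e := by
    rw [LinearMap.exact_iff]
    exact Submodule.ker_mkQ _
  have h1 : Function.Exact D1.dualMap D0.dualMap := by
    intro φ
    constructor
    · intro h
      obtain ⟨ψ, hψ⟩ := x1 φ h
      exact ⟨ψ, hψ.symm⟩
    · rintro ⟨ψ, rfl⟩
      ext c
      simp [h10]
  have h2 : Function.Exact D2.dualMap D1.dualMap := by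
    intro φ
    constructor
    · intro h
      obtain ⟨ψ, hψ⟩ := x2 φ h
      exact ⟨ψ, hψ.symm⟩
    · rintro ⟨ψ, rfl⟩
      ext c
      simp [h21]
  have h3 : Function.Exact D3.dualMap D2.dualMap := by
    intro φ
    constructor
    · intro h
      obtain ⟨ψ, hψ⟩ := x3 φ h
      exact ⟨ψ, hψ.symm⟩
    · rintro ⟨ψ, rfl⟩
      ext c
      simp [h32]
  have hN : H23 R N := by
    rw [H23.dual h3 h2 h1 h0 he]
    constructor
    · intro φ hφ
      obtain ⟨c, rfl⟩ := (Module.evalEquiv R C2).surjective φ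
      have hc : D2 c = 0 := by
        have h4 : ∀ ψ : Module.Dual R C3, ψ (D2 c) = 0 := fun ψ => LinearMap.congr_fun hφ ψ
        exact (Module.forall_dual_apply_eq_zero_iff R _).1 h4
      obtain ⟨c', rfl⟩ := e2 c hc
      exact ⟨Module.evalEquiv R C1 c', by ext ψ; rfl⟩
    · intro φ hφ
      obtain ⟨c, rfl⟩ := (Module.evalEquiv R C3).surjective φ
      have hc : D3 c = 0 := by
        have h4 : ∀ ψ : Module.Dual R C4, ψ (D3 c) = 0 := fun ψ => LinearMap.congr_fun hφ ψ
        exact (Module.forall_dual_apply_eq_zero_iff R _).1 h4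
      obtain ⟨c', rfl⟩ := e3 c hc
      exact ⟨Module.evalEquiv R C2 c', by ext ψ; rfl⟩
  -- restriction to the kernel
  let V := LinearMap.ker D0
  have hrr : LinearMap.range D0.dualMap ≤ LinearMap.ker V.subtype.dualMap := by
    rintro _ ⟨φ, rfl⟩
    rw [LinearMap.mem_ker]
    ext v
    show φ (D0 v.1) = 0
    rw [LinearMap.mem_ker.1 v.2, map_zero]
  let r : N →ₗ[R] Module.Dual R V := (LinearMap.range D0.dualMap).liftQ V.subtype.dualMap hrr
  have hr : ∀ φ : Module.Dual R C0, r (e φ) = V.subtype.dualMap φ := fun φ => rfl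
  have hfV : Module.Finite R (Module.Dual R V) := finite_dualN V
  -- the projections
  have hρ : ∀ y ∈ maximalIdeal R ^ k, ∃ (s1 : C1 →ₗ[R] C0) (ρ : C0 →ₗ[R] V),
      (∀ c, (ρ c : C0) + s1 (D0 c) = y • c) ∧ ∀ v : V, ρ v = y • v := by
    intro y hy
    obtain ⟨s1, s2, hss⟩ := hs y hy
    have hmem : ∀ c, (y • LinearMap.id - s1 ∘ₗ D0 : C0 →ₗ[R] C0) c ∈ V := by
      intro c
      rw [LinearMap.mem_ker]
      show D0 (y • c - s1 (D0 c)) = 0
      have h4 := hss (D0 c)
      rw [h10, map_zero, add_zero] at h4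
      rw [map_sub, map_smul, h4, sub_self]
    refine ⟨s1, (y • LinearMap.id - s1 ∘ₗ D0 : C0 →ₗ[R] C0).codRestrict V hmem, ?_, ?_⟩
    · intro c
      show y • c - s1 (D0 c) + s1 (D0 c) = y • c
      rw [sub_add_cancel]
    · intro v
      apply Subtype.ext
      show y • v.1 - s1 (D0 v.1) = y • v.1
      rw [LinearMap.mem_ker.1 v.2, map_zero, sub_zero]
  have hK : Tors R (LinearMap.ker r) := by
    refine ⟨k, fun y hy x => ?_⟩
    obtain ⟨s1, ρ, hρ1, -⟩ := hρ y hy
    obtain ⟨x, hx⟩ := x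
    obtain ⟨φ, rfl⟩ := he x
    apply Subtype.ext
    show y • e φ = 0
    rw [LinearMap.mem_ker, hr] at hx
    have h4 : y • φ = D0.dualMap (φ ∘ₗ s1) := by
      ext c
      have h5 : φ (ρ c : C0) = 0 := LinearMap.congr_fun hx (ρ c)
      show y • φ c = φ (s1 (D0 c))
      rw [← map_smul, ← hρ1 c, map_add, h5, zero_add]
    rw [← map_smul, h4]
    exact (Submodule.Quotient.mk_eq_zero _).2 ⟨_, rfl⟩
  have hC : Tors R (Module.Dual R V ⧸ LinearMap.range r) := by
    refine ⟨k, fun y hy x => ?_⟩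
    obtain ⟨s1, ρ, -, hρ2⟩ := hρ y hy
    obtain ⟨φ, rfl⟩ := Submodule.mkQ_surjective _ x
    rw [← map_smul, Submodule.mkQ_apply, Submodule.Quotient.mk_eq_zero]
    refine ⟨e (φ ∘ₗ ρ), ?_⟩
    rw [hr]
    ext v
    show φ (ρ v) = y • φ v
    rw [hρ2, map_smul]
  have hI : H23 R (LinearMap.range r) := by
    refine (H23.quot hd (f := (LinearMap.ker r).subtype) (g := r.rangeRestrict)
      (Submodule.injective_subtype _) ?_ r.surjective_rangeRestrict hK).1 hN
    intro x
    rw [← Subtype.coe_inj]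
    show r x = 0 ↔ _
    rw [← LinearMap.mem_ker]
    constructor
    · intro h; exact ⟨⟨x, h⟩, rfl⟩
    · rintro ⟨⟨x, h⟩, rfl⟩; exact h
  refine (H23.sub hd (f := (LinearMap.range r).subtype) (g := (LinearMap.range r).mkQ)
      (Submodule.injective_subtype _) ?_ (Submodule.mkQ_surjective _) hC).1 hI
  rw [LinearMap.exact_iff, Submodule.ker_mkQ, Submodule.range_subtype]

end Pool.Agent.Licci.XE

end

section

/-!
# LICCI, codimension 6 (XE): exactness of the dual of the Koszul complex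
-/

namespace Pool.Agent.Licci

open RingTheory.Sequence Pointwise

universe u v w

variable {R : Type u} [CommRing R]

/-- Elementary acyclicity lemma for complexes `⋯ → C 1 → C 0` with `C i = 0` for `i > n`. -/
theorem exact_of_homotopy_desc (n : ℕ) (rs : List R) : ∀ (C : ℕ → Type v)
    [∀ i, AddCommGroup (C i)] [∀ i, Module R (C i)] (d : ∀ i, C (i + 1) →ₗ[R] C i)
    (_dd : ∀ i x, d i (d (i + 1) x) = 0) (_reg : ∀ i, IsWeaklyRegular (C i) rs)
    (_hom : ∀ r ∈ rs, ∃ s : ∀ i, C i →ₗ[R] C (i + 1),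
      ∀ i x, d (i + 1) (s (i + 1) x) + s i (d i x) = r • x)
    (_hn : ∀ i, n < i → ∀ x : C i, x = 0),
    ∀ i, n < i + 1 + rs.length → ∀ x : C (i + 1), d i x = 0 → ∃ y, d (i + 1) y = x := by
  induction rs with
  | nil =>
    intro C _ _ d _ _ _ hn i hi x _
    refine ⟨0, ?_⟩
    rw [map_zero]
    exact (hn (i + 1) (by simpa using hi) x).symm
  | cons a rs ih =>
    intro C _ _ d dd reg hom hn i hi x hx
    have areg : ∀ i, IsSMulRegular (C i) a := fun i =>
      ((isWeaklyRegular_cons_iff (C i) a rs).1 (reg i)).1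
    have qreg : ∀ i, IsWeaklyRegular (QuotSMulTop a (C i)) rs := fun i =>
      ((isWeaklyRegular_cons_iff (C i) a rs).1 (reg i)).2
    obtain ⟨s, s1⟩ := hom a (by simp)
    have key := ih (fun i => QuotSMulTop a (C i)) (fun i => QuotSMulTop.map a (d i))
      (by
        intro i x
        obtain ⟨x, rfl⟩ := Submodule.Quotient.mk_surjective _ x
        rw [QuotSMulTop.map_apply_mk, QuotSMulTop.map_apply_mk, dd]; rfl)
      qreg
      (by
        intro r hr
        obtain ⟨t, t1⟩ := hom r (List.mem_cons_of_mem _ hr)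
        refine ⟨fun i => QuotSMulTop.map a (t i), ?_⟩
        intro i x
        obtain ⟨x, rfl⟩ := Submodule.Quotient.mk_surjective _ x
        rw [QuotSMulTop.map_apply_mk, QuotSMulTop.map_apply_mk, QuotSMulTop.map_apply_mk,
          QuotSMulTop.map_apply_mk, ← Submodule.Quotient.mk_add, t1]; rfl)
      (by
        intro i hi x
        obtain ⟨x, rfl⟩ := Submodule.Quotient.mk_surjective _ x
        rw [hn i hi x]; rfl)
    have lift0 : ∀ i (z : C i), (Submodule.Quotient.mk z : QuotSMulTop a (C i)) = 0 →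
        ∃ y, z = a • y := by
      intro i z hz
      rw [Submodule.Quotient.mk_eq_zero] at hz
      obtain ⟨y, -, hy⟩ := (Submodule.mem_smul_pointwise_iff_exists _ _ _).1 hz
      exact ⟨y, hy.symm⟩
    have h1 : a • x = d (i + 1) (s (i + 1) x) := by rw [← s1 i x, hx, map_zero, add_zero]
    have h2 : QuotSMulTop.map a (d (i + 1)) (Submodule.Quotient.mk (s (i + 1) x)) = 0 := by
      rw [QuotSMulTop.map_apply_mk, ← h1, Submodule.Quotient.mk_eq_zero]
      exact (Submodule.mem_smul_pointwise_iff_exists _ _ _).2 ⟨x, trivial, rfl⟩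
    obtain ⟨w, hw⟩ := key (i + 1) (by simp only [List.length_cons] at hi; omega)
      (Submodule.Quotient.mk (s (i + 1) x)) h2
    obtain ⟨w, rfl⟩ := Submodule.Quotient.mk_surjective _ w
    rw [QuotSMulTop.map_apply_mk] at hw
    have h4 : (Submodule.Quotient.mk (s (i + 1) x - d (i + 2) w) :
        QuotSMulTop a (C (i + 2))) = 0 := by
      rw [Submodule.Quotient.mk_sub]
      exact sub_eq_zero.2 hw.symm
    obtain ⟨y, hy⟩ := lift0 _ _ h4
    refine ⟨y, ?_⟩
    apply areg (i + 1)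
    show a • d (i + 1) y = a • x
    rw [h1, ← map_smul, ← hy, map_sub, dd, sub_zero]

/-- alternating maps of degree `> n` on `R ^ n` are zero -/
theorem alt_eq_zero {n k : ℕ} (hk : n < k) (ω : (Fin n → R) [⋀^Fin k]→ₗ[R] R) : ω = 0 := by
  refine (Pi.basisFun R (Fin n)).ext_alternating fun v hv => ?_
  exfalso
  have := Fintype.card_le_of_injective v hv
  simp only [Fintype.card_fin] at this
  omega

/-- The dual of the Koszul complex `Λ ^ k M^*` of `g` is exact in degrees `> n - length rs`. -/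
theorem koszul_dual_exact {n : ℕ} (g : (Fin n → R) →ₗ[R] R) (rs : List R)
    (hreg : IsWeaklyRegular R rs) (hmem : ∀ r ∈ rs, ∃ x, g x = r) (k : ℕ)
    (hk : n < k + 1 + rs.length) (φ : ((Fin n → R) [⋀^Fin (k + 1)]→ₗ[R] R) →ₗ[R] R)
    (hφ : φ ∘ₗ wedge g k = 0) :
    ∃ ψ : ((Fin n → R) [⋀^Fin (k + 2)]→ₗ[R] R) →ₗ[R] R, φ = ψ ∘ₗ wedge g (k + 1) := by
  have h := exact_of_homotopy_desc n rs (fun k => ((Fin n → R) [⋀^Fin k]→ₗ[R] R) →ₗ[R] R)
    (fun k => LinearMap.lcomp R R (wedge g k)) ?_ ?_ ?_ ?_ k hk φ ?_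
  · obtain ⟨ψ, hψ⟩ := h
    exact ⟨ψ, hψ.symm⟩
  · intro i x
    ext ω
    simp only [LinearMap.lcomp_apply, LinearMap.zero_apply]
    rw [wedge_wedge_self, map_zero]
  · intro i
    obtain ⟨m, ⟨e⟩⟩ := exists_altEquiv (R := R) (Fin n → R) i R
    have e2 : (((Fin n → R) [⋀^Fin i]→ₗ[R] R) →ₗ[R] R) ≃ₗ[R] (Fin m → R) :=
      (LinearEquiv.congrLeft R R e).trans (Module.piEquiv (Fin m) R R).symm
    exact (LinearEquiv.isWeaklyRegular_congr e2 rs).2 (isWeaklyRegular_pi rs R hreg)
  · intro r hr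
    obtain ⟨x, rfl⟩ := hmem r hr
    refine ⟨fun i => LinearMap.lcomp R R (contr x i), fun i φ => ?_⟩
    ext ω
    simp only [LinearMap.lcomp_apply, LinearMap.add_apply, LinearMap.smul_apply, smul_eq_mul]
    rw [contr_wedge, map_sub, map_smul, smul_eq_mul, sub_add_cancel]
  · intro i hi φ
    ext ω
    rw [alt_eq_zero hi ω, map_zero, map_zero]
  · exact hφ

end Pool.Agent.Licci

end

section

/-!
# LICCI, codimension 6 (XE): the complex `K_2` of the middle part of the filtration

Everything in the wedge model: `M = R ^ 8`, `g : M → R` the linear form with values in the ideal `I`,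
`ν ∈ Λ ^ 6 M^*` the closed form with `ν a - w ∈ (g a)`.
-/

set_option autoImplicit false

namespace Pool.Agent.Licci.XE

open RingTheory.Sequence IsLocalRing

universe u

variable {R : Type u} [CommRing R]

/-- alternating forms on `R ^ 8` -/
abbrev Al (R : Type u) [CommRing R] (k : ℕ) : Type u := (Fin 8 → R) [⋀^Fin k]→ₗ[R] R

instance free_al (k : ℕ) : Module.Free R (Al R k) := by
  obtain ⟨m, ⟨e⟩⟩ := exists_altEquiv (R := R) (Fin 8 → R) k R
  exact Module.Free.of_equiv e.symm

instance finite_al (k : ℕ) : Module.Finite R (Al R k) := by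
  obtain ⟨m, ⟨e⟩⟩ := exists_altEquiv (R := R) (Fin 8 → R) k R
  exact Module.Finite.equiv e.symm

/-- The Gorenstein-type hypotheses on the linear form `g`. -/
structure Gor (g : (Fin 8 → R) →ₗ[R] R) (a : Fin 6 → (Fin 8 → R)) (w : R) : Prop where
  reg : IsWeaklyRegular R (List.ofFn fun i => g (a i))
  top : ∀ y : R, (∀ v, y * g v ∈ Ideal.span (Set.range fun i => g (a i))) →
    y ∈ Ideal.span (Set.range fun i => g (a i)) ⊔ Ideal.span {w}
  bot : ∀ y : R, y * w ∈ Ideal.span (Set.range fun i => g (a i)) ↔ ∃ v, g v = y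

section

variable {g : (Fin 8 → R) →ₗ[R] R} {a : Fin 6 → (Fin 8 → R)} {w : R} {ν : Al R 6}

/-- closed forms of degree `6` -/
theorem closed_six (hG : Gor g a w) (hν0 : wedge g 6 ν = 0)
    (hνa : ν a - w ∈ Ideal.span (Set.range fun i => g (a i))) {ω : Al R 6}
    (hω : wedge g 6 ω = 0) : ∃ (r : R) (η : Al R 5), ω = r • ν + wedge g 5 η := by
  set I := Ideal.span (Set.range fun i => g (a i)) with hI
  have h1 : ∀ v, ω a * g v ∈ I := by
    intro v
    have h2 := contr_wedge g v 5 ω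
    rw [hω, map_zero] at h2
    have h3 := congrArg (fun f => f a) h2
    have h4 : g v * ω a = (wedge g 5 (contr v 5 ω)) a := by
      simp only [AlternatingMap.sub_apply, AlternatingMap.smul_apply, smul_eq_mul,
        AlternatingMap.zero_apply] at h3
      linear_combination -h3
    have h5 := wedge_apply_mem g 5 (contr v 5 ω) a
    rw [← h4, smul_eq_mul, Ideal.mul_top] at h5
    rw [mul_comm]
    exact h5
  obtain ⟨α, hα, z, hz, hsum⟩ := Submodule.mem_sup.1 (hG.top _ h1)
  obtain ⟨r, rfl⟩ := Ideal.mem_span_singleton'.1 hz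
  refine ⟨r, ?_⟩
  have h6 : wedge g 6 (ω - r • ν) = 0 := by
    rw [map_sub, map_smul, hω, hν0, smul_zero, sub_zero]
  have h7 := isCob_of_apply_mem g 6 a hG.reg (ω - r • ν) h6 (by
    rw [AlternatingMap.sub_apply, AlternatingMap.smul_apply, smul_eq_mul, ← hsum]
    have h8 : α + r * w - r * ν a = α - r * (ν a - w) := by ring
    rw [h8]
    exact I.sub_mem hα (I.mul_mem_left _ hνa))
  obtain ⟨η, hη⟩ := h7
  exact ⟨η, by rw [hη]; abel⟩

/-- the annihilator of the class of `ν` -/
theorem exact_six (hG : Gor g a w)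
    (hνa : ν a - w ∈ Ideal.span (Set.range fun i => g (a i))) {r : R} {η : Al R 5}
    (h : r • ν = wedge g 5 η) : ∃ v, g v = r := by
  rw [← hG.bot r]
  have h1 := congrArg (fun f => f a) h
  have h2 : r * ν a = wedge g 5 η a := h1
  have h3 := wedge_apply_mem g 5 η a
  rw [← h2, smul_eq_mul, Ideal.mul_top] at h3
  have h4 : r * w = r * ν a - r * (ν a - w) := by ring
  rw [h4]
  exact Ideal.sub_mem _ h3 (Ideal.mul_mem_left _ _ hνa)

/-! ### Sums over pairs -/

theorem sum_pairs {N : Type*} [AddCommGroup N] {n : ℕ} (F : Fin n → Fin n → N)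
    (h0 : ∀ i, F i i = 0) :
    ∑ i, ∑ j, F i j = ∑ i, ∑ j, if i < j then F i j + F j i else 0 := by
  have h1 : ∀ i j, F i j = (if i < j then F i j else 0) + (if j < i then F i j else 0) := by
    intro i j
    rcases lt_trichotomy i j with h | h | h
    · rw [if_pos h, if_neg (not_lt.2 h.le), add_zero]
    · subst h
      rw [if_neg (lt_irrefl i), h0, add_zero]
    · rw [if_neg (not_lt.2 h.le), if_pos h, zero_add]
  have h2 : ∑ i, ∑ j, F i j = ∑ i, ∑ j, (if i < j then F i j else 0) +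
      ∑ i, ∑ j, (if j < i then F i j else 0) := by
    rw [← Finset.sum_add_distrib]
    refine Finset.sum_congr rfl fun i _ => ?_
    rw [← Finset.sum_add_distrib]
    exact Finset.sum_congr rfl fun j _ => h1 i j
  rw [h2]
  have h3 : ∑ i, ∑ j, (if j < i then F i j else 0) = ∑ i, ∑ j, (if i < j then F j i else 0) :=
    Finset.sum_comm
  rw [h3, ← Finset.sum_add_distrib]
  refine Finset.sum_congr rfl fun i _ => ?_
  rw [← Finset.sum_add_distrib]
  refine Finset.sum_congr rfl fun j _ => ?_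
  split_ifs
  · rfl
  · rw [add_zero]

/-- contraction of `ν` with `e_i`, then with `e_j` -/
def c2 (ν : Al R 6) (i j : Fin 8) : Al R 4 :=
  contr (Pi.single j 1) 4 (contr (Pi.single i 1) 5 ν)

/-- contraction with a bivector -/
def bc (ν : Al R 6) : (Fin 8 → Fin 8 → R) →ₗ[R] Al R 4 where
  toFun β := ∑ i, ∑ j, if i < j then β i j • c2 ν i j else 0
  map_add' β γ := by
    rw [← Finset.sum_add_distrib]
    refine Finset.sum_congr rfl fun i _ => ?_
    rw [← Finset.sum_add_distrib]
    refine Finset.sum_congr rfl fun j _ => ?_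
    split_ifs
    · rw [Pi.add_apply, Pi.add_apply, add_smul]
    · rw [add_zero]
  map_smul' r β := by
    rw [RingHom.id_apply, Finset.smul_sum]
    refine Finset.sum_congr rfl fun i _ => ?_
    rw [Finset.smul_sum]
    refine Finset.sum_congr rfl fun j _ => ?_
    split_ifs
    · rw [Pi.smul_apply, Pi.smul_apply, smul_eq_mul, mul_smul]
    · rw [smul_zero]

theorem bc_apply (ν : Al R 6) (β : Fin 8 → Fin 8 → R) :
    bc ν β = ∑ i, ∑ j, if i < j then β i j • c2 ν i j else 0 := rfl

/-- `∑ i, g(e_i) β i .` -/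
def ug (g : (Fin 8 → R) →ₗ[R] R) : (Fin 8 → Fin 8 → R) →ₗ[R] (Fin 8 → R) where
  toFun β j := ∑ i, g (Pi.single i 1) * β i j
  map_add' β γ := by
    funext j
    rw [Pi.add_apply, ← Finset.sum_add_distrib]
    refine Finset.sum_congr rfl fun i _ => ?_
    rw [Pi.add_apply, Pi.add_apply, mul_add]
  map_smul' r β := by
    funext j
    rw [RingHom.id_apply, Pi.smul_apply, smul_eq_mul, Finset.mul_sum]
    refine Finset.sum_congr rfl fun i _ => ?_
    rw [Pi.smul_apply, Pi.smul_apply, smul_eq_mul, mul_left_comm]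

theorem ug_apply (g : (Fin 8 → R) →ₗ[R] R) (β : Fin 8 → Fin 8 → R) (j : Fin 8) :
    ug g β j = ∑ i, g (Pi.single i 1) * β i j := rfl

/-- skew arrays -/
def Sk (R : Type u) [CommRing R] : Submodule R (Fin 8 → Fin 8 → R) where
  carrier := {β | (∀ i, β i i = 0) ∧ ∀ i j, β i j = - β j i}
  add_mem' := by
    rintro β γ ⟨h1, h2⟩ ⟨h3, h4⟩
    refine ⟨fun i => ?_, fun i j => ?_⟩
    · show β i i + γ i i = 0
      rw [h1, h3, add_zero]
    · show β i j + γ i j = -(β j i + γ j i)
      rw [h2, h4]; ring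
  zero_mem' := ⟨fun _ => rfl, fun _ _ => neg_zero.symm⟩
  smul_mem' := by
    rintro r β ⟨h1, h2⟩
    refine ⟨fun i => ?_, fun i j => ?_⟩
    · show r * β i i = 0
      rw [h1, mul_zero]
    · show r * β i j = -(r * β j i)
      rw [h2]; ring

/-- skew arrays are free -/
def skEquiv (R : Type u) [CommRing R] :
    Sk R ≃ₗ[R] ({p : Fin 8 × Fin 8 // p.1 < p.2} → R) where
  toFun β p := β.1 p.1.1 p.1.2
  map_add' _ _ := rfl
  map_smul' _ _ := rfl
  invFun x := ⟨fun i j => if h : i < j then x ⟨(i, j), h⟩ else if h : j < i then - x ⟨(j, i), h⟩ else 0,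
    fun i => by simp, fun i j => by
      rcases lt_trichotomy i j with h | h | h
      · simp [h, not_lt.2 h.le]
      · subst h; simp
      · simp [h, not_lt.2 h.le]⟩
  left_inv := by
    rintro ⟨β, h1, h2⟩
    apply Subtype.ext
    funext i j
    show (if h : i < j then β i j else if h : j < i then - β j i else 0) = β i j
    rcases lt_trichotomy i j with h | h | h
    · rw [dif_pos h]
    · subst h; rw [dif_neg (lt_irrefl i), dif_neg (lt_irrefl i), h1]
    · rw [dif_neg (not_lt.2 h.le), dif_pos h, ← h2]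
  right_inv := by
    intro x
    funext ⟨⟨i, j⟩, h⟩
    exact dif_pos h

instance free_sk : Module.Free R (Sk R) := Module.Free.of_equiv (skEquiv R).symm

instance finite_sk : Module.Finite R (Sk R) := Module.Finite.equiv (skEquiv R).symm

/-! ### Contractions -/

/-- contraction of `ν` as a function of the vector -/
def ct (ν : Al R 6) : (Fin 8 → R) →ₗ[R] Al R 5 := ν.curryLeft

theorem ct_apply (ν : Al R 6) (u : Fin 8 → R) : ct ν u = contr u 5 ν := rfl

theorem contr_sum {n : ℕ} (u : Fin 8 → R) (ω : Al R (n + 1)) :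
    contr u n ω = ∑ i, u i • contr (Pi.single i 1) n ω := by
  have h1 : u = ∑ i, u i • (Pi.single i 1 : Fin 8 → R) := by
    funext j
    rw [Finset.sum_apply, Finset.sum_eq_single j]
    · simp
    · intro i _ hi
      simp [hi.symm]
    · intro h; exact absurd (Finset.mem_univ _) h
  show ω.curryLeft u = ∑ i, u i • ω.curryLeft (Pi.single i 1)
  conv_lhs => rw [h1]
  rw [map_sum]
  exact Finset.sum_congr rfl fun i _ => map_smul _ _ _

theorem contr_contr_self {n : ℕ} (u : Fin 8 → R) (ω : Al R (n + 2)) :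
    contr u n (contr u (n + 1) ω) = 0 := by
  ext v
  rw [contr_apply, contr_apply, AlternatingMap.zero_apply]
  refine ω.map_eq_zero_of_eq _ (i := 0) (j := 1) ?_ (by simp)
  rfl

theorem contr_contr_anti {n : ℕ} (u v : Fin 8 → R) (ω : Al R (n + 2)) :
    contr v n (contr u (n + 1) ω) = - contr u n (contr v (n + 1) ω) := by
  have h := contr_contr_self (u + v) ω
  have hadd : ∀ (m : ℕ) (x y : Fin 8 → R) (τ : Al R (m + 1)),
      contr (x + y) m τ = contr x m τ + contr y m τ := by
    intro m x y τ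
    show τ.curryLeft (x + y) = τ.curryLeft x + τ.curryLeft y
    rw [map_add]
  rw [hadd, hadd, map_add, map_add, contr_contr_self, contr_contr_self, zero_add, add_zero,
    add_comm] at h
  exact eq_neg_of_add_eq_zero_left h

theorem c2_self (ν : Al R 6) (i : Fin 8) : c2 ν i i = 0 := contr_contr_self _ _

theorem c2_anti (ν : Al R 6) (i j : Fin 8) : c2 ν j i = - c2 ν i j := contr_contr_anti _ _ _

/-- `u ∧ m` -/
def wed (u : Fin 8 → R) : (Fin 8 → R) →ₗ[R] Sk R where
  toFun m := ⟨fun i j => u i * m j - u j * m i, fun i => by ring, fun i j => by ring⟩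
  map_add' m m' := by
    apply Subtype.ext
    funext i j
    show u i * (m j + m' j) - u j * (m i + m' i) = u i * m j - u j * m i + (u i * m' j - u j * m' i)
    ring
  map_smul' r m := by
    apply Subtype.ext
    funext i j
    show u i * (r * m j) - u j * (r * m i) = r * (u i * m j - u j * m i)
    ring

theorem wed_apply (u m : Fin 8 → R) (i j : Fin 8) :
    (wed u m).1 i j = u i * m j - u j * m i := rfl

theorem bc_wed (ν : Al R 6) (u m : Fin 8 → R) :
    bc ν (wed u m).1 = contr m 4 (contr u 5 ν) := by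
  have h1 : contr m 4 (contr u 5 ν) = ∑ i, ∑ j, (u i * m j) • c2 ν i j := by
    rw [contr_sum u ν, map_sum]
    refine Finset.sum_congr rfl fun i _ => ?_
    rw [map_smul, contr_sum m, Finset.smul_sum]
    refine Finset.sum_congr rfl fun j _ => ?_
    rw [mul_smul]
    rfl
  rw [h1, sum_pairs _ (fun i => by rw [c2_self, smul_zero]), bc_apply]
  refine Finset.sum_congr rfl fun i _ => Finset.sum_congr rfl fun j _ => ?_
  split_ifs
  · rw [wed_apply, c2_anti ν i j]
    module
  · rfl

theorem ct_ug (g : (Fin 8 → R) →ₗ[R] R) (ν : Al R 6) (β : Sk R) :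
    ct ν (ug g β.1) = ∑ i, ∑ j, if i < j then β.1 i j •
      (g (Pi.single i 1) • contr (Pi.single j 1) 5 ν - g (Pi.single j 1) • contr (Pi.single i 1) 5 ν)
        else 0 := by
  rw [ct_apply, contr_sum]
  have h1 : ∑ j, ug g β.1 j • contr (Pi.single j 1) 5 ν =
      ∑ i, ∑ j, (g (Pi.single i 1) * β.1 i j) • contr (Pi.single j 1) 5 ν := by
    rw [Finset.sum_comm]
    refine Finset.sum_congr rfl fun j _ => ?_
    rw [ug_apply, Finset.sum_smul]
  rw [h1, sum_pairs _ (fun i => by rw [β.2.1 i, mul_zero, zero_smul])]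
  refine Finset.sum_congr rfl fun i _ => Finset.sum_congr rfl fun j _ => ?_
  split_ifs
  · rw [β.2.2 j i]
    module
  · rfl

theorem wedge_bc (g : (Fin 8 → R) →ₗ[R] R) {ν : Al R 6} (hν0 : wedge g 6 ν = 0) (β : Sk R) :
    wedge g 4 (bc ν β.1) = - ct ν (ug g β.1) := by
  have h1 : ∀ u, wedge g 5 (contr u 5 ν) = g u • ν := by
    intro u
    have := contr_wedge g u 5 ν
    rw [hν0, map_zero] at this
    exact (sub_eq_zero.1 this.symm).symm
  have h2 : ∀ i j, wedge g 4 (c2 ν i j) = g (Pi.single j 1) • contr (Pi.single i 1) 5 ν -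
      g (Pi.single i 1) • contr (Pi.single j 1) 5 ν := by
    intro i j
    have h3 := contr_wedge g (Pi.single j 1) 4 (contr (Pi.single i 1) 5 ν)
    rw [h1, map_smul] at h3
    unfold c2
    rw [h3, sub_sub_cancel]
  rw [ct_ug, bc_apply, map_sum, ← Finset.sum_neg_distrib]
  refine Finset.sum_congr rfl fun i _ => ?_
  rw [map_sum, ← Finset.sum_neg_distrib]
  refine Finset.sum_congr rfl fun j _ => ?_
  split_ifs
  · rw [map_smul, h2]
    module
  · rw [map_zero, neg_zero]

theorem g_ug (g : (Fin 8 → R) →ₗ[R] R) (β : Sk R) : g (ug g β.1) = 0 := by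
  have h0 : ∀ u : Fin 8 → R, g u = ∑ j, u j * g (Pi.single j 1) := by
    intro u
    have h1 : u = ∑ i, u i • (Pi.single i 1 : Fin 8 → R) := by
      funext j
      rw [Finset.sum_apply, Finset.sum_eq_single j]
      · simp
      · intro i _ hi
        simp [hi.symm]
      · intro h; exact absurd (Finset.mem_univ _) h
    conv_lhs => rw [h1]
    rw [map_sum]
    exact Finset.sum_congr rfl fun i _ => by rw [map_smul, smul_eq_mul]
  rw [h0]
  have h1 : ∑ j, ug g β.1 j * g (Pi.single j 1) =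
      ∑ i, ∑ j, (g (Pi.single i 1) * β.1 i j) * g (Pi.single j 1) := by
    rw [Finset.sum_comm]
    refine Finset.sum_congr rfl fun j _ => ?_
    rw [ug_apply, Finset.sum_mul]
  rw [h1, sum_pairs _ (fun i => by rw [β.2.1 i, mul_zero, zero_mul])]
  refine Finset.sum_eq_zero fun i _ => Finset.sum_eq_zero fun j _ => ?_
  split_ifs
  · rw [β.2.2 j i]; ring
  · rfl

/-! ### The complex -/

/-- `D0` -/
def D0 (g : (Fin 8 → R) →ₗ[R] R) (ν : Al R 6) :
    (Sk R × Al R 3) →ₗ[R] ((Fin 8 → R) × Al R 4) :=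
  LinearMap.prod (ug g ∘ₗ (Sk R).subtype ∘ₗ LinearMap.fst R _ _)
    (wedge g 3 ∘ₗ LinearMap.snd R _ _ - bc ν ∘ₗ (Sk R).subtype ∘ₗ LinearMap.fst R _ _)

theorem D0_apply (g : (Fin 8 → R) →ₗ[R] R) (ν : Al R 6) (c : Sk R × Al R 3) :
    D0 g ν c = (ug g c.1.1, wedge g 3 c.2 - bc ν c.1.1) := rfl

/-- `D1` -/
def D1 (g : (Fin 8 → R) →ₗ[R] R) (ν : Al R 6) :
    ((Fin 8 → R) × Al R 4) →ₗ[R] (R × Al R 5) :=
  LinearMap.prod (g ∘ₗ LinearMap.fst R _ _)
    (wedge g 4 ∘ₗ LinearMap.snd R _ _ - ct ν ∘ₗ LinearMap.fst R _ _)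

theorem D1_apply (g : (Fin 8 → R) →ₗ[R] R) (ν : Al R 6) (c : (Fin 8 → R) × Al R 4) :
    D1 g ν c = (g c.1, wedge g 4 c.2 - ct ν c.1) := rfl

/-- `D2` -/
def D2 (g : (Fin 8 → R) →ₗ[R] R) (ν : Al R 6) : (R × Al R 5) →ₗ[R] Al R 6 :=
  wedge g 5 ∘ₗ LinearMap.snd R _ _ + (LinearMap.toSpanSingleton R _ ν) ∘ₗ LinearMap.fst R _ _

theorem D2_apply (g : (Fin 8 → R) →ₗ[R] R) (ν : Al R 6) (c : R × Al R 5) :
    D2 g ν c = wedge g 5 c.2 + c.1 • ν := rfl

theorem wedge_ct (g : (Fin 8 → R) →ₗ[R] R) {ν : Al R 6} (hν0 : wedge g 6 ν = 0)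
    (u : Fin 8 → R) : wedge g 5 (ct ν u) = g u • ν := by
  have := contr_wedge g u 5 ν
  rw [hν0, map_zero] at this
  exact (sub_eq_zero.1 this.symm).symm

theorem D1_D0 (g : (Fin 8 → R) →ₗ[R] R) {ν : Al R 6} (hν0 : wedge g 6 ν = 0)
    (c : Sk R × Al R 3) : D1 g ν (D0 g ν c) = 0 := by
  rw [D0_apply, D1_apply]
  refine Prod.ext ?_ ?_
  · exact g_ug g c.1
  · show wedge g 4 (wedge g 3 c.2 - bc ν c.1.1) - ct ν (ug g c.1.1) = 0
    rw [map_sub, wedge_wedge_self, wedge_bc g hν0, zero_sub, neg_neg, sub_self]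

theorem D2_D1 (g : (Fin 8 → R) →ₗ[R] R) {ν : Al R 6} (hν0 : wedge g 6 ν = 0)
    (c : (Fin 8 → R) × Al R 4) : D2 g ν (D1 g ν c) = 0 := by
  rw [D1_apply, D2_apply, map_sub, wedge_wedge_self, wedge_ct g hν0, zero_sub, neg_add_cancel]

theorem D3_D2 (g : (Fin 8 → R) →ₗ[R] R) {ν : Al R 6} (hν0 : wedge g 6 ν = 0)
    (c : R × Al R 5) : wedge g 6 (D2 g ν c) = 0 := by
  rw [D2_apply, map_add, wedge_wedge_self, map_smul, hν0, smul_zero, add_zero]

/-- the homotopies -/
theorem homotopy (g : (Fin 8 → R) →ₗ[R] R) {ν : Al R 6} (u : Fin 8 → R) :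
    ∃ (s1 : ((Fin 8 → R) × Al R 4) →ₗ[R] (Sk R × Al R 3))
      (s2 : (R × Al R 5) →ₗ[R] ((Fin 8 → R) × Al R 4)),
      ∀ c, D0 g ν (s1 c) + s2 (D1 g ν c) = g u • c := by
  refine ⟨LinearMap.prodMap (wed u) (contr u 3),
    LinearMap.prodMap (LinearMap.toSpanSingleton R _ u) (contr u 4), ?_⟩
  rintro ⟨m, z⟩
  have h0 : ug g (wed u m).1 = g u • m - g m • u := by
    have hg : ∀ u : Fin 8 → R, ∑ i, g (Pi.single i 1) * u i = g u := by
      intro u
      have h1 : u = ∑ i, u i • (Pi.single i 1 : Fin 8 → R) := by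
        funext j
        rw [Finset.sum_apply, Finset.sum_eq_single j]
        · simp
        · intro i _ hi
          simp [hi.symm]
        · intro h; exact absurd (Finset.mem_univ _) h
      conv_rhs => rw [h1]
      rw [map_sum]
      exact Finset.sum_congr rfl fun i _ => by rw [map_smul, smul_eq_mul, mul_comm]
    funext j
    rw [ug_apply]
    show ∑ i, g (Pi.single i 1) * (u i * m j - u j * m i) = g u * m j - g m * u j
    rw [← hg u, ← hg m, Finset.sum_mul, Finset.sum_mul, ← Finset.sum_sub_distrib]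
    exact Finset.sum_congr rfl fun i _ => by ring
  refine Prod.ext ?_ ?_
  · show ug g (wed u m).1 + g m • u = g u • m
    rw [h0, sub_add_cancel]
  · show wedge g 3 (contr u 3 z) - bc ν (wed u m).1 + contr u 4 (wedge g 4 z - ct ν m) = g u • z
    rw [bc_wed, map_sub, contr_wedge, ct_apply, contr_contr_anti m u ν]
    abel

/-! ### Exactness -/

theorem exact_C2 (hG : Gor g a w) (hν0 : wedge g 6 ν = 0)
    (hνa : ν a - w ∈ Ideal.span (Set.range fun i => g (a i))) (c : R × Al R 5)
    (hc : D2 g ν c = 0) : ∃ c', D1 g ν c' = c := by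
  obtain ⟨r, z⟩ := c
  rw [D2_apply] at hc
  have h1 : r • ν = wedge g 5 (-z) := by
    rw [map_neg]
    exact eq_neg_of_add_eq_zero_right hc
  obtain ⟨u, rfl⟩ := exact_six hG hνa h1
  have h2 : wedge g 5 (z + ct ν u) = 0 := by
    rw [map_add, wedge_ct g hν0]
    exact hc
  obtain ⟨z', hz'⟩ := isCob_of_lt g 6 a hG.reg 5 (by norm_num) _ h2
  refine ⟨(u, z'), ?_⟩
  rw [D1_apply]
  refine Prod.ext rfl ?_
  show wedge g 4 z' - ct ν u = z
  rw [hz', add_sub_cancel_right]

theorem exact_C3 (hG : Gor g a w) (hν0 : wedge g 6 ν = 0)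
    (hνa : ν a - w ∈ Ideal.span (Set.range fun i => g (a i))) (c : Al R 6)
    (hc : wedge g 6 c = 0) : ∃ c', D2 g ν c' = c := by
  obtain ⟨r, η, rfl⟩ := closed_six hG hν0 hνa hc
  exact ⟨(r, η), by rw [D2_apply, add_comm]⟩

theorem mem_ofFn (hG : Gor g a w) :
    ∀ r ∈ List.ofFn (fun i => g (a i)), ∃ x, g x = r := by
  intro r hr
  obtain ⟨i, rfl⟩ := (List.mem_ofFn' _ _).1 hr
  exact ⟨_, rfl⟩

theorem reg_zero (hG : Gor g a w) : IsSMulRegular R (g (a 0)) := by
  have h := hG.reg
  rw [List.ofFn_succ, isWeaklyRegular_cons_iff] at h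
  exact h.1

theorem dual_x3 (hG : Gor g a w) (φ : Al R 6 →ₗ[R] R) (hφ : φ ∘ₗ D2 g ν = 0) :
    ∃ ψ : Al R 7 →ₗ[R] R, φ = ψ ∘ₗ wedge g 6 := by
  refine koszul_dual_exact g _ hG.reg (mem_ofFn hG) 5 (by simp) φ ?_
  ext z
  have h := LinearMap.congr_fun hφ (0, z)
  rw [LinearMap.comp_apply, D2_apply, zero_smul, add_zero] at h
  exact h

theorem dual_x2 (hG : Gor g a w) (hν0 : wedge g 6 ν = 0) (φ : (R × Al R 5) →ₗ[R] R)
    (hφ : φ ∘ₗ D1 g ν = 0) : ∃ ψ : Al R 6 →ₗ[R] R, φ = ψ ∘ₗ D2 g ν := by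
  obtain ⟨ψ, hψ⟩ := koszul_dual_exact g _ hG.reg (mem_ofFn hG) 4 (by simp)
    (φ ∘ₗ LinearMap.inr R R (Al R 5)) (by
      ext z
      have h := LinearMap.congr_fun hφ (0, z)
      rw [LinearMap.comp_apply, D1_apply, map_zero, map_zero, sub_zero] at h
      exact h)
  have hψ' : ∀ z, φ (0, z) = ψ (wedge g 5 z) := fun z => LinearMap.congr_fun hψ z
  have h1 : φ (1, 0) = ψ ν := by
    have h2 := LinearMap.congr_fun hφ (a 0, 0)
    rw [LinearMap.comp_apply, D1_apply, map_zero, zero_sub] at h2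
    have h3 : ((g (a 0), - ct ν (a 0)) : R × Al R 5) =
        g (a 0) • ((1, 0) : R × Al R 5) - (0, ct ν (a 0)) := by
      refine Prod.ext ?_ ?_
      · show g (a 0) = g (a 0) * 1 - 0
        ring
      · show - ct ν (a 0) = g (a 0) • (0 : Al R 5) - ct ν (a 0)
        rw [smul_zero, zero_sub]
    have h4 : φ (g (a 0), - ct ν (a 0)) = 0 := h2
    rw [h3, map_sub, map_smul, hψ', wedge_ct g hν0, map_smul, ← smul_sub] at h4
    have h5 := reg_zero hG (show g (a 0) • (φ (1, 0) - ψ ν) = g (a 0) • (0 : R) by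
      rw [h4, smul_zero])
    exact sub_eq_zero.1 h5
  refine ⟨ψ, ?_⟩
  apply LinearMap.ext
  rintro ⟨r, z⟩
  have h2 : ((r, z) : R × Al R 5) = r • ((1, 0) : R × Al R 5) + (0, z) := by
    refine Prod.ext ?_ ?_
    · show r = r * 1 + 0
      ring
    · show z = r • (0 : Al R 5) + z
      rw [smul_zero, zero_add]
  rw [LinearMap.comp_apply, D2_apply, h2, map_add, map_smul, h1, hψ', map_add, map_smul, ← h2,
    add_comm]

theorem dual_x1 (hG : Gor g a w) (hν0 : wedge g 6 ν = 0) (φ : ((Fin 8 → R) × Al R 4) →ₗ[R] R)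
    (hφ : φ ∘ₗ D0 g ν = 0) : ∃ ψ : (R × Al R 5) →ₗ[R] R, φ = ψ ∘ₗ D1 g ν := by
  obtain ⟨ψ, hψ⟩ := koszul_dual_exact g _ hG.reg (mem_ofFn hG) 3 (by simp)
    (φ ∘ₗ LinearMap.inr R (Fin 8 → R) (Al R 4)) (by
      ext z
      have h := LinearMap.congr_fun hφ (0, z)
      rw [LinearMap.comp_apply, D0_apply] at h
      have h2 : ((ug g ((0 : Sk R) : Fin 8 → Fin 8 → R), wedge g 3 z -
          bc ν ((0 : Sk R) : Fin 8 → Fin 8 → R)) : (Fin 8 → R) × Al R 4) = (0, wedge g 3 z) := by
        rw [Submodule.coe_zero, map_zero, map_zero, sub_zero]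
      have h3 : φ (0, wedge g 3 z) = 0 := by
        rw [← h2]; exact h
      exact h3)
  have hψ' : ∀ z, φ (0, z) = ψ (wedge g 4 z) := fun z => LinearMap.congr_fun hψ z
  let μ : (Fin 8 → R) →ₗ[R] R := φ ∘ₗ LinearMap.inl R (Fin 8 → R) (Al R 4) + ψ ∘ₗ ct ν
  have hμ : ∀ u, μ u = φ (u, 0) + ψ (ct ν u) := fun u => rfl
  have hsplit : ∀ (u : Fin 8 → R) (z : Al R 4), φ (u, z) = φ (u, 0) + φ (0, z) := by
    intro u z
    rw [← map_add]
    congr 1
    refine Prod.ext ?_ ?_
    · show u = u + 0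
      rw [add_zero]
    · show z = 0 + z
      rw [zero_add]
  have h1 : ∀ β : Sk R, μ (ug g β.1) = 0 := by
    intro β
    have h2 := LinearMap.congr_fun hφ (β, 0)
    rw [LinearMap.comp_apply, D0_apply] at h2
    have h3 : φ (ug g β.1, wedge g 3 0 - bc ν β.1) = 0 := h2
    rw [map_zero, zero_sub, hsplit, hψ', map_neg, wedge_bc g hν0, neg_neg] at h3
    exact h3
  have h2 : ∀ u m, μ m * g u = μ u * g m := by
    intro u m
    have h3 := h1 (wed u m)
    have h4 : ug g (wed u m).1 = g u • m - g m • u := by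
      have hg : ∀ u : Fin 8 → R, ∑ i, g (Pi.single i 1) * u i = g u := by
        intro u
        have h1 : u = ∑ i, u i • (Pi.single i 1 : Fin 8 → R) := by
          funext j
          rw [Finset.sum_apply, Finset.sum_eq_single j]
          · simp
          · intro i _ hi
            simp [hi.symm]
          · intro h; exact absurd (Finset.mem_univ _) h
        conv_rhs => rw [h1]
        rw [map_sum]
        exact Finset.sum_congr rfl fun i _ => by rw [map_smul, smul_eq_mul, mul_comm]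
      funext j
      rw [ug_apply]
      show ∑ i, g (Pi.single i 1) * (u i * m j - u j * m i) = g u * m j - g m * u j
      rw [← hg u, ← hg m, Finset.sum_mul, Finset.sum_mul, ← Finset.sum_sub_distrib]
      exact Finset.sum_congr rfl fun i _ => by ring
    rw [h4, map_sub, map_smul, map_smul, smul_eq_mul, smul_eq_mul] at h3
    linear_combination h3
  obtain ⟨c, hc⟩ : ∃ c : R, ∀ u, μ u = c * g u := by
    let μ' : Al R 1 := AlternatingMap.ofSubsingleton R (Fin 8 → R) R (0 : Fin 1) μ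
    have h3 : wedge g 1 μ' = 0 := by
      ext v
      rw [wedge_apply, Fin.sum_univ_two]
      have h4 : μ' ((0 : Fin 2).removeNth v) = μ (v 1) := rfl
      have h5 : μ' ((1 : Fin 2).removeNth v) = μ (v 0) := rfl
      rw [h4, h5]
      simp only [Fin.val_zero, pow_zero, one_smul, Fin.val_one, pow_one, smul_eq_mul, neg_smul,
        AlternatingMap.zero_apply]
      have := h2 (v 0) (v 1)
      linear_combination this
    obtain ⟨η, hη⟩ := isCob_of_lt g 6 a hG.reg 1 (by norm_num) μ' h3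
    refine ⟨η (fun i => i.elim0), fun u => ?_⟩
    have h4 := congrArg (fun f => f (fun _ => u)) hη
    have h5 : wedge g 0 η (fun _ => u) = μ u := h4
    rw [← h5, wedge_apply]
    simp only [Fin.sum_univ_succ, Finset.univ_eq_empty, Finset.sum_empty, Fin.val_zero, pow_zero,
      one_smul, smul_eq_mul, add_zero]
    rw [mul_comm]
    congr 2
    funext i
    exact i.elim0
  refine ⟨LinearMap.coprod (LinearMap.toSpanSingleton R R c) ψ, ?_⟩
  apply LinearMap.ext
  rintro ⟨u, z⟩
  rw [LinearMap.comp_apply, D1_apply, LinearMap.coprod_apply, hsplit, hψ']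
  show φ (u, 0) + ψ (wedge g 4 z) = g u * c + ψ (wedge g 4 z - ct ν u)
  have h3 := hc u
  rw [hμ] at h3
  rw [map_sub]
  linear_combination h3

/-- `H23` for the dual of the kernel of `D0` -/
theorem H23_dual_D0 [IsLocalRing R] [IsNoetherianRing R] (hd : Depth6 R)
    (hI : ∃ k, ∀ y ∈ maximalIdeal R ^ k, ∃ v, g v = y) (hG : Gor g a w)
    (hν0 : wedge g 6 ν = 0) (hνa : ν a - w ∈ Ideal.span (Set.range fun i => g (a i))) :
    H23 R (Module.Dual R (LinearMap.ker (D0 g ν))) := by
  obtain ⟨k, hk⟩ := hI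
  refine H23_dual_ker3 hd (D0 g ν) (D1 g ν) (D2 g ν) (wedge g 6) (D1_D0 g hν0) (D2_D1 g hν0)
    (D3_D2 g hν0) (exact_C2 hG hν0 hνa) (exact_C3 hG hν0 hνa) (dual_x1 hG hν0) (dual_x2 hG hν0)
    (dual_x3 hG) k ?_
  intro y hy
  obtain ⟨u, rfl⟩ := hk y hy
  exact homotopy g u

end

end Pool.Agent.Licci.XE

end

section

/-!
# LICCI, codimension 6 (XE): duals of modules with a filtration

Module theory for `Ext ^ 2 (V*, R) = Ext ^ 3 (V*, R) = 0`: duals of a module `Φ` with a filtration
`Φ0 ⊆ Φ2 ⊆ Φ` whose pieces are, up to modules killed by a power of the maximal ideal, a free module,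
a module `V2` and the kernel of a linear form.
-/

set_option autoImplicit false

namespace Pool.Agent.Licci.XE

open CategoryTheory Abelian IsLocalRing

universe u

variable {R : Type u} [CommRing R]

variable {A B C F : Type u} [AddCommGroup A] [Module R A] [AddCommGroup B] [Module R B]
  [AddCommGroup C] [Module R C] [AddCommGroup F] [Module R F]

/-- linear forms on a submodule extend if `Ext ^ 1` of the quotient vanishes -/
theorem SE.extend {f : A →ₗ[R] B} {g : B →ₗ[R] C} (hf : Function.Injective f)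
    (hfg : Function.Exact f g) (hg : Function.Surjective g) (hC : SE (R := R) C 1)
    (φ : A →ₗ[R] R) : ∃ ψ : B →ₗ[R] R, ψ ∘ₗ f = φ := by
  have hS := shortExact_of hf hfg hg
  unfold SE at hC
  obtain ⟨x, hx⟩ := Ext.contravariant_sequence_exact₁ hS (ModuleCat.of R R)
    (Ext.mk₀ (ModuleCat.ofHom φ)) (n₁ := 1) rfl (hC.elim _ _)
  obtain ⟨ψ, rfl⟩ := (Ext.mk₀_bijective _ _).2 x
  rw [Ext.mk₀_comp_mk₀] at hx
  have h2 := (Ext.mk₀_bijective _ _).1 hx
  refine ⟨ψ.hom, ?_⟩
  have h3 := congrArg ModuleCat.Hom.hom h2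
  exact h3

/-- linear forms on a submodule extend if `Ext ^ 1` of the quotient vanishes -/
theorem SE.extend_sub (S : Submodule R B) (hC : SE (R := R) (B ⧸ S) 1)
    (φ : S →ₗ[R] R) : ∃ ψ : B →ₗ[R] R, ∀ x : S, ψ x = φ x := by
  obtain ⟨ψ, hψ⟩ := SE.extend (f := S.subtype) (g := S.mkQ) S.injective_subtype
    (LinearMap.exact_subtype_mkQ S) S.mkQ_surjective hC φ
  exact ⟨ψ, fun x => LinearMap.congr_fun hψ x⟩

/-- a linear form which vanishes on the kernel of a linear map factors through its range -/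
theorem factor_range (q : B →ₗ[R] F) (ψ : B →ₗ[R] R) (h : ∀ x, q x = 0 → ψ x = 0) :
    ∃ φ : LinearMap.range q →ₗ[R] R, ∀ x, φ ⟨q x, LinearMap.mem_range_self q x⟩ = ψ x := by
  have hk : LinearMap.ker q.rangeRestrict ≤ LinearMap.ker ψ := by
    intro x hx
    rw [LinearMap.mem_ker] at hx ⊢
    exact h x (congrArg Subtype.val hx)
  refine ⟨((LinearMap.ker q.rangeRestrict).liftQ ψ hk) ∘ₗ
    (q.rangeRestrict.quotKerEquivOfSurjective q.surjective_rangeRestrict).symm.toLinearMap, ?_⟩
  intro x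
  have : (q.rangeRestrict.quotKerEquivOfSurjective q.surjective_rangeRestrict).symm
      (q.rangeRestrict x) = Submodule.Quotient.mk x := by
    rw [LinearEquiv.symm_apply_eq]
    rfl
  have e : (⟨q x, LinearMap.mem_range_self q x⟩ : LinearMap.range q) = q.rangeRestrict x := rfl
  rw [e, LinearMap.comp_apply, LinearEquiv.coe_coe, this, Submodule.liftQ_apply]

section dom

variable [IsDomain R] [IsLocalRing R] [IsNoetherianRing R]

/-- a power of the maximal ideal contains a nonzero element -/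
theorem exists_mem_pow_ne_zero (hd : Depth6 R) (k : ℕ) : ∃ r ∈ maximalIdeal R ^ k, r ≠ 0 := by
  obtain ⟨rs, hlen, hmem, hreg⟩ := hd
  match rs, hlen with
  | r :: rs, _ =>
    have h0 : r ≠ 0 := by
      rintro rfl
      have h := ((RingTheory.Sequence.isRegular_cons_iff R (0 : R) rs).1 hreg).1
      have := h (show (0 : R) • (1 : R) = (0 : R) • (0 : R) by simp)
      exact one_ne_zero this
    exact ⟨r ^ k, Ideal.pow_mem_pow (hmem r List.mem_cons_self) k, pow_ne_zero k h0⟩

/-- a linear form which vanishes on a submodule with torsion quotient vanishes -/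
theorem form_zero (hd : Depth6 R) (q : B →ₗ[R] F) (hT : Tors R (F ⧸ LinearMap.range q))
    (φ : F →ₗ[R] R) (h : ∀ x, φ (q x) = 0) : φ = 0 := by
  obtain ⟨k, hk⟩ := hT
  obtain ⟨r, hr, hr0⟩ := exists_mem_pow_ne_zero hd k
  ext y
  have h1 : r • y ∈ LinearMap.range q := by
    rw [← Submodule.Quotient.mk_eq_zero, Submodule.Quotient.mk_smul]
    exact hk r hr _
  obtain ⟨x, hx⟩ := h1
  have h2 := h x
  rw [hx, map_smul, smul_eq_mul] at h2
  rcases mul_eq_zero.1 h2 with h3 | h3
  · exact absurd h3 hr0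
  · exact h3

/-- `0 → F* → B* → A*`, for `0 → A → B → F` exact with torsion cokernel -/
theorem dual_exact_of [Module.Finite R F] (hd : Depth6 R) {f : A →ₗ[R] B} {q : B →ₗ[R] F}
    (hfq : Function.Exact f q) (hT : Tors R (F ⧸ LinearMap.range q)) :
    Function.Injective q.dualMap ∧ Function.Exact q.dualMap f.dualMap := by
  constructor
  · rw [← LinearMap.ker_eq_bot, LinearMap.ker_eq_bot']
    intro φ hφ
    exact form_zero hd q hT φ fun x => LinearMap.congr_fun hφ x
  · intro ψ
    constructor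
    · intro h
      obtain ⟨φ, hφ⟩ := factor_range q ψ (fun x hx => by
        obtain ⟨a, rfl⟩ := (hfq x).1 hx
        exact LinearMap.congr_fun h a)
      obtain ⟨χ, hχ⟩ := SE.extend_sub (LinearMap.range q) (SE.tors hd hT (by norm_num)) φ
      refine ⟨χ, ?_⟩
      ext x
      rw [LinearMap.dualMap_apply, ← hφ x, ← hχ]
    · rintro ⟨φ, rfl⟩
      ext a
      rw [LinearMap.dualMap_apply, LinearMap.dualMap_apply, hfq.apply_apply_eq_zero, map_zero]
      rfl

/-- surjectivity of the restriction, if moreover `F` is free -/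
theorem dual_surj_of [Module.Finite R F] [Module.Free R F] (hd : Depth6 R) {f : A →ₗ[R] B}
    {q : B →ₗ[R] F} (hf : Function.Injective f)
    (hfq : Function.Exact f q) (hT : Tors R (F ⧸ LinearMap.range q)) :
    Function.Surjective f.dualMap := by
  intro φ
  have h1 : SE (R := R) (LinearMap.range q) 1 :=
    SE.left (f := (LinearMap.range q).subtype) (g := (LinearMap.range q).mkQ)
      (Submodule.injective_subtype _) (LinearMap.exact_subtype_mkQ _)
      (Submodule.mkQ_surjective _) (SE.free 0) (SE.tors hd hT (by norm_num))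
  have h2 : Function.Exact f q.rangeRestrict := by
    intro x
    rw [← hfq x]
    exact ⟨fun h => congrArg Subtype.val h, fun h => Subtype.ext h⟩
  obtain ⟨ψ, hψ⟩ := SE.extend hf h2 q.surjective_rangeRestrict h1 φ
  exact ⟨ψ, hψ⟩

/-- step 1: `0 → A → B → F` exact, `F` free, torsion cokernel -/
theorem H23.step1 [Module.Finite R F] [Module.Free R F] (hd : Depth6 R) {f : A →ₗ[R] B}
    {q : B →ₗ[R] F} (hf : Function.Injective f)
    (hfq : Function.Exact f q) (hT : Tors R (F ⧸ LinearMap.range q))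
    (hA : H23 R (Module.Dual R A)) : H23 R (Module.Dual R B) := by
  obtain ⟨h1, h2⟩ := dual_exact_of hd hfq hT
  exact H23.ext (f := q.dualMap) (g := f.dualMap) h1 h2 (dual_surj_of hd hf hfq hT) H23.free hA

/-- step 3: the dual of the kernel of a map of free modules with torsion cokernel -/
theorem H23.step3 [Module.Finite R F] [Module.Free R F] [Module.Finite R B] [Module.Free R B]
    (hd : Depth6 R) {f : A →ₗ[R] B} {q : B →ₗ[R] F} (hf : Function.Injective f)
    (hfq : Function.Exact f q) (hT : Tors R (F ⧸ LinearMap.range q)) :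
    H23 R (Module.Dual R A) := by
  obtain ⟨h1, h2⟩ := dual_exact_of hd hfq hT
  have h3 := dual_surj_of hd hf hfq hT
  exact ⟨SE.right h1 h2 h3 (i := 1) (SE.free 0) (SE.free 1),
    SE.right h1 h2 h3 (i := 2) (SE.free 1) (SE.free 2)⟩

/-- step 2: `0 → A → B → V` exact with torsion cokernel, restriction `B* → A*` with torsion
cokernel -/
theorem H23.step2 [Module.Finite R A] [Module.Finite R F] (hd : Depth6 R) {f : A →ₗ[R] B}
    {q : B →ₗ[R] F} (hfq : Function.Exact f q) (hT : Tors R (F ⧸ LinearMap.range q))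
    (hV : H23 R (Module.Dual R F)) (hA : H23 R (Module.Dual R A))
    (hT2 : Tors R (Module.Dual R A ⧸ LinearMap.range f.dualMap)) : H23 R (Module.Dual R B) := by
  obtain ⟨h1, h2⟩ := dual_exact_of hd hfq hT
  have hfin : Module.Finite R (Module.Dual R A) := inferInstance
  have h3 : H23 R (LinearMap.range f.dualMap) :=
    (H23.sub hd (f := (LinearMap.range f.dualMap).subtype)
      (g := (LinearMap.range f.dualMap).mkQ) (Submodule.injective_subtype _)
      (LinearMap.exact_subtype_mkQ _) (Submodule.mkQ_surjective _) hT2).2 hA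
  refine H23.ext (f := q.dualMap) (g := f.dualMap.rangeRestrict) h1 ?_
    f.dualMap.surjective_rangeRestrict hV h3
  intro x
  rw [← h2 x]
  exact ⟨fun h => congrArg Subtype.val h, fun h => Subtype.ext h⟩

/-- step 4: quotient by one element `p` such that the values `φ (p)` of linear forms generate an
ideal which contains a power of the maximal ideal -/
theorem H23.step4 (hd : Depth6 R) (p : B) (S : Submodule R B) (hS : S = Submodule.span R {p})
    (hT : Tors R (R ⧸ LinearMap.range (LinearMap.applyₗ (R := R) p : Module.Dual R B →ₗ[R] R)))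
    (hB : H23 R (Module.Dual R B)) : H23 R (Module.Dual R (B ⧸ S)) := by
  set e : Module.Dual R B →ₗ[R] R := LinearMap.applyₗ (R := R) p with he
  have h1 : Function.Injective S.mkQ.dualMap := by
    intro φ ψ h
    ext x
    exact LinearMap.congr_fun h x
  have h2 : Function.Exact S.mkQ.dualMap e.rangeRestrict := by
    intro φ
    constructor
    · intro h
      have h3 : φ p = 0 := congrArg Subtype.val h
      have h4 : S ≤ LinearMap.ker φ := by
        rw [hS, Submodule.span_le]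
        rintro _ rfl
        exact h3
      exact ⟨S.liftQ φ h4, by ext x; rfl⟩
    · rintro ⟨φ, rfl⟩
      apply Subtype.ext
      show φ (S.mkQ p) = 0
      have : S.mkQ p = 0 := by
        rw [Submodule.mkQ_apply, Submodule.Quotient.mk_eq_zero, hS]
        exact Submodule.mem_span_singleton_self p
      rw [this, map_zero]
  have h5 : ∀ i, i ≤ 3 → SE (R := R) (LinearMap.range e) (1 + i) := fun i hi =>
    SE.left (f := (LinearMap.range e).subtype) (g := (LinearMap.range e).mkQ)
      (Submodule.injective_subtype _) (LinearMap.exact_subtype_mkQ _)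
      (Submodule.mkQ_surjective _) (SE.free i) (SE.tors hd hT (by omega))
  exact ⟨SE.left h1 h2 e.surjective_rangeRestrict hB.1 (h5 2 (by norm_num)),
    SE.left h1 h2 e.surjective_rangeRestrict hB.2 (h5 3 (by norm_num))⟩

end dom

end Pool.Agent.Licci.XE

end

section

/-!
# LICCI, codimension 6 (XE): torsion and grade
-/

set_option autoImplicit false

namespace Pool.Agent.Licci.XE

open IsLocalRing

universe u

variable {R : Type u} [CommRing R]

/-- killed by powers of the `f i` -/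
theorem tors_of_local [IsLocalRing R] [IsNoetherianRing R] {ι : Type*} (f : ι → R)
    (hI : ∃ k, maximalIdeal R ^ k ≤ Ideal.span (Set.range f)) {M : Type u} [AddCommGroup M]
    [Module R M] (n : ℕ) (h : ∀ i, ∀ x : M, f i ^ n • x = 0) : Tors R M := by
  obtain ⟨k, hk⟩ := hI
  have h1 : maximalIdeal R ^ k ≤ (Module.annihilator R M).radical := by
    refine hk.trans ?_
    rw [Ideal.span_le]
    rintro _ ⟨i, rfl⟩
    exact ⟨n, Module.mem_annihilator.2 (h i)⟩
  obtain ⟨m, hm⟩ := Ideal.exists_pow_le_of_le_radical_of_fg h1 (IsNoetherian.noetherian _)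
  refine ⟨k * m, fun r hr x => ?_⟩
  rw [pow_mul] at hr
  exact Module.mem_annihilator.1 (hm hr) x

/-- the ideal generated by the coordinates as the range of the linear form -/
theorem range_constr (f : Fin 8 → R) :
    LinearMap.range ((Pi.basisFun R (Fin 8)).constr ℕ f : (Fin 8 → R) →ₗ[R] R) =
      Ideal.span (Set.range f) := by
  rw [Module.Basis.constr_range]

theorem constr_apply (f v : Fin 8 → R) :
    ((Pi.basisFun R (Fin 8)).constr ℕ f : (Fin 8 → R) →ₗ[R] R) v = ∑ i, v i * f i := by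
  rw [Module.Basis.constr_apply_fintype]
  simp

/-- grade at least two -/
theorem gr2_of [IsDomain R] [IsLocalRing R] [IsNoetherianRing R] (hd : Depth6 R) (f : Fin 8 → R)
    (hI : ∃ k, maximalIdeal R ^ k ≤ Ideal.span (Set.range f)) {a b : R} (hb : b ≠ 0)
    (h : ∀ i, b ∣ f i * a) : b ∣ a := by
  set J : Submodule R R := Ideal.span (Set.range f) with hJ
  have hinj : Function.Injective (LinearMap.mulLeft R b) := by
    intro x y hxy
    exact mul_left_cancel₀ hb hxy
  have h1 : ∀ x : J, LinearMap.mulLeft R a (x : R) ∈ LinearMap.range (LinearMap.mulLeft R b) := by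
    intro x
    have h2 : J ≤ (LinearMap.range (LinearMap.mulLeft R b)).comap (LinearMap.mulLeft R a) := by
      rw [hJ]
      refine Submodule.span_le.2 ?_
      rintro _ ⟨i, rfl⟩
      obtain ⟨c, hc⟩ := h i
      refine ⟨c, ?_⟩
      rw [LinearMap.mulLeft_apply, LinearMap.mulLeft_apply, ← hc, mul_comm]
    exact h2 x.2
  let φ : J →ₗ[R] R := (LinearEquiv.ofInjective _ hinj).symm.toLinearMap ∘ₗ
    (LinearMap.codRestrict (LinearMap.range (LinearMap.mulLeft R b))
      (LinearMap.mulLeft R a ∘ₗ J.subtype) h1)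
  have hφ : ∀ x : J, b * φ x = a * x := by
    intro x
    have h3 : (LinearEquiv.ofInjective (LinearMap.mulLeft R b) hinj) (φ x) =
        ⟨a * (x : R), h1 x⟩ := by
      simp only [φ, LinearMap.comp_apply, LinearEquiv.coe_coe, LinearEquiv.apply_symm_apply]
      rfl
    exact congrArg Subtype.val h3
  have hT : Tors R (R ⧸ J) := by
    obtain ⟨k, hk⟩ := hI
    refine ⟨k, fun r hr x => ?_⟩
    obtain ⟨y, rfl⟩ := Submodule.Quotient.mk_surjective J x
    rw [← Submodule.Quotient.mk_smul, Submodule.Quotient.mk_eq_zero]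
    exact J.smul_mem y (hk hr) |> fun h => by rwa [smul_eq_mul, mul_comm]
  obtain ⟨ψ, hψ⟩ := SE.extend_sub J (SE.tors hd hT (by norm_num)) φ
  obtain ⟨k, hk⟩ := hI
  obtain ⟨r, hr, hr0⟩ := exists_mem_pow_ne_zero hd k
  have e1 := hφ ⟨r, hk hr⟩
  have e2 := hψ ⟨r, hk hr⟩
  have e3 : ψ r = r * ψ 1 := by
    conv_lhs => rw [← mul_one r, ← smul_eq_mul, map_smul, smul_eq_mul]
  refine ⟨ψ 1, ?_⟩
  have e4 : r * a = r * (b * ψ 1) := by
    calc r * a = a * r := mul_comm _ _
      _ = b * ψ r := by rw [← e1, ← e2]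
      _ = r * (b * ψ 1) := by rw [e3]; ring
  exact mul_left_cancel₀ hr0 e4

end Pool.Agent.Licci.XE

end

section

/-!
# LICCI, codimension 6 (XE): regular sequences of maximal length
-/

set_option autoImplicit false

namespace Pool.Agent.Licci.XE

open IsLocalRing RingTheory.Sequence

universe u

variable {R : Type u} [CommRing R]

/-- an ideal generated by a regular sequence of length `dim R` contains a power of the maximal
ideal -/
theorem exists_pow_le_of_regular [IsLocalRing R] [IsNoetherianRing R] (rs : List R)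
    (hreg : IsWeaklyRegular R rs) (hmem : ∀ r ∈ rs, r ∈ maximalIdeal R)
    (hdim : ringKrullDim R = rs.length) : ∃ k, maximalIdeal R ^ k ≤ Ideal.ofList rs := by
  have hle : Ideal.ofList rs ≤ maximalIdeal R := by
    rw [Ideal.ofList, Ideal.span_le]
    exact fun r hr => hmem r hr
  have hne : Ideal.ofList rs ≠ ⊤ := fun h => Ideal.IsPrime.ne_top inferInstance
    (top_le_iff.1 (h ▸ hle))
  have hR : IsRegular R rs := ⟨hreg, by
    intro h
    apply hne
    rw [smul_eq_mul, Ideal.mul_top] at h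
    exact h.symm⟩
  have h1 := ringKrullDim_add_length_eq_ringKrullDim_of_isRegular rs hR
  rw [hdim] at h1
  have h2 : ringKrullDim (R ⧸ Ideal.ofList rs) = 0 := by
    have h3 : ringKrullDim (R ⧸ Ideal.ofList rs) + (rs.length : WithBot ℕ∞) =
      0 + (rs.length : WithBot ℕ∞) := by rw [h1, zero_add]
    exact ENat.WithBot.add_natCast_cancel.1 h3
  have hK : Ring.KrullDimLE 0 (R ⧸ Ideal.ofList rs) := by
    rw [Ring.krullDimLE_iff, h2]
    simp
  have h3 : maximalIdeal R ≤ (Ideal.ofList rs).radical := by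
    intro x hx
    rw [Ideal.radical_eq_sInf, Ideal.mem_sInf]
    rintro P ⟨hP, hPp⟩
    have hP' : (P.map (Ideal.Quotient.mk (Ideal.ofList rs))).IsPrime := by
      refine Ideal.map_isPrime_of_surjective Ideal.Quotient.mk_surjective ?_
      rwa [Ideal.mk_ker]
    have hm := hP'.isMaximal'
    have h4 : P.IsMaximal := by
      have h5 := Ideal.comap_isMaximal_of_surjective
        (Ideal.Quotient.mk (Ideal.ofList rs)) Ideal.Quotient.mk_surjective (H := hm)
      rwa [Ideal.comap_map_of_surjective _ Ideal.Quotient.mk_surjective, ← RingHom.ker_eq_comap_bot,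
        Ideal.mk_ker, sup_eq_left.2 hP] at h5
    rw [IsLocalRing.eq_maximalIdeal h4]
    exact hx
  exact Ideal.exists_pow_le_of_le_radical_of_fg h3 (IsNoetherian.noetherian _)

/-- depth at least six -/
theorem depth6_of_dim [IsRegularLocalRing R] (hdim : (maximalIdeal R).spanFinrank = 6) :
    Depth6 R := by
  obtain ⟨rs, h1, h2, h3⟩ := LicciCodimFour.exists_regular_generators R
  rw [← IsRegularLocalRing.spanFinrank_maximalIdeal (R := R), hdim] at h1
  refine ⟨rs, by exact_mod_cast h1, fun r hr => ?_, h3⟩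
  rw [← h2]
  exact Ideal.subset_span hr

end Pool.Agent.Licci.XE

end

section

/-!
# LICCI, codimension 6 (XE): the module `V2` in arrays
-/

set_option autoImplicit false

namespace Pool.Agent.Licci.XE

open RingTheory.Sequence IsLocalRing

universe u

variable {R : Type u} [CommRing R]

/-- the vector `e_i` -/
abbrev ev (i : Fin 8) : Fin 8 → R := Pi.single i 1

/-- alternating arrays with three indices -/
def Al3 (R : Type u) [CommRing R] : Submodule R (Fin 8 → Fin 8 → Fin 8 → R) where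
  carrier := {z | (∀ i k, z i i k = 0) ∧ (∀ i j, z i j j = 0) ∧ (∀ i j k, z j i k = - z i j k) ∧
    ∀ i j k, z i k j = - z i j k}
  add_mem' := by
    rintro y z ⟨h1, h2, h3, h4⟩ ⟨h5, h6, h7, h8⟩
    refine ⟨fun i k => ?_, fun i j => ?_, fun i j k => ?_, fun i j k => ?_⟩
    · show y i i k + z i i k = 0
      rw [h1, h5, add_zero]
    · show y i j j + z i j j = 0
      rw [h2, h6, add_zero]
    · show y j i k + z j i k = -(y i j k + z i j k)
      rw [h3, h7]; ring
    · show y i k j + z i k j = -(y i j k + z i j k)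
      rw [h4, h8]; ring
  zero_mem' := ⟨fun _ _ => rfl, fun _ _ => rfl, fun _ _ _ => neg_zero.symm,
    fun _ _ _ => neg_zero.symm⟩
  smul_mem' := by
    rintro r y ⟨h1, h2, h3, h4⟩
    refine ⟨fun i k => ?_, fun i j => ?_, fun i j k => ?_, fun i j k => ?_⟩
    · show r * y i i k = 0
      rw [h1, mul_zero]
    · show r * y i j j = 0
      rw [h2, mul_zero]
    · show r * y j i k = -(r * y i j k)
      rw [h3]; ring
    · show r * y i k j = -(r * y i j k)
      rw [h4]; ring

/-- the alternating form of an alternating array -/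
def ofArr (z : Al3 R) : Al R 3 where
  toFun v := ∑ i, ∑ j, ∑ k, z.1 i j k * (v 0 i * v 1 j * v 2 k)
  map_update_add' := by
    intro inst v p x y
    obtain rfl := Subsingleton.elim inst (instDecidableEqFin 3)
    rw [← Finset.sum_add_distrib]
    refine Finset.sum_congr rfl fun i _ => ?_
    rw [← Finset.sum_add_distrib]
    refine Finset.sum_congr rfl fun j _ => ?_
    rw [← Finset.sum_add_distrib]
    refine Finset.sum_congr rfl fun k _ => ?_
    fin_cases p <;> simp [Function.update] <;> ring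
  map_update_smul' := by
    intro inst v p r x
    obtain rfl := Subsingleton.elim inst (instDecidableEqFin 3)
    rw [smul_eq_mul, Finset.mul_sum]
    refine Finset.sum_congr rfl fun i _ => ?_
    rw [Finset.mul_sum]
    refine Finset.sum_congr rfl fun j _ => ?_
    rw [Finset.mul_sum]
    refine Finset.sum_congr rfl fun k _ => ?_
    fin_cases p <;> simp [Function.update] <;> ring
  map_eq_zero_of_eq' := by
    obtain ⟨z, h1, h2, h3, h4⟩ := z
    have h5 : ∀ i j, z i j i = 0 := fun i j => by rw [h4 i i j, h1, neg_zero]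
    have h6 : ∀ i j k, z k j i = - z i j k := fun i j k => by
      rw [h3 j k i, h4 j i k, h3 i j k]; ring
    have key : ∀ v : Fin 3 → Fin 8 → R, (v 0 = v 1 ∨ v 1 = v 2 ∨ v 0 = v 2) →
        ∑ i, ∑ j, ∑ k, z i j k * (v 0 i * v 1 j * v 2 k) = 0 := by
      intro v hv
      rcases hv with hv | hv | hv
      · rw [hv, sum_pairs _ (fun i => Finset.sum_eq_zero fun k _ => by rw [h1, zero_mul])]
        refine Finset.sum_eq_zero fun i _ => Finset.sum_eq_zero fun j _ => ?_
        split_ifs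
        · rw [← Finset.sum_add_distrib]
          refine Finset.sum_eq_zero fun k _ => ?_
          rw [h3 i j k]; ring
        · rfl
      · refine Finset.sum_eq_zero fun i _ => ?_
        rw [hv, sum_pairs _ (fun j => by rw [h2, zero_mul])]
        refine Finset.sum_eq_zero fun j _ => Finset.sum_eq_zero fun k _ => ?_
        split_ifs
        · rw [h4 i j k]; ring
        · rfl
      · rw [Finset.sum_comm]
        refine Finset.sum_eq_zero fun j _ => ?_
        rw [hv, sum_pairs _ (fun j => by rw [h5, zero_mul])]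
        refine Finset.sum_eq_zero fun i _ => Finset.sum_eq_zero fun k _ => ?_
        split_ifs
        · rw [h6 i j k]; ring
        · rfl
    intro v p q hpq hne
    show ∑ i, ∑ j, ∑ k, z i j k * (v 0 i * v 1 j * v 2 k) = 0
    apply key
    fin_cases p <;> fin_cases q <;> first
      | exact absurd rfl hne
      | exact Or.inl hpq
      | exact Or.inl hpq.symm
      | exact Or.inr (Or.inl hpq)
      | exact Or.inr (Or.inl hpq.symm)
      | exact Or.inr (Or.inr hpq)
      | exact Or.inr (Or.inr hpq.symm)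

theorem ofArr_apply (z : Al3 R) (v : Fin 3 → Fin 8 → R) :
    ofArr z v = ∑ i, ∑ j, ∑ k, z.1 i j k * (v 0 i * v 1 j * v 2 k) := rfl

theorem ofArr_single (z : Al3 R) (i j k : Fin 8) : ofArr z ![ev i, ev j, ev k] = z.1 i j k := by
  rw [ofArr_apply, Finset.sum_eq_single i, Finset.sum_eq_single j, Finset.sum_eq_single k]
  · simp [ev]
  · intro k' _ hk
    simp [ev, hk]
  · intro h; exact absurd (Finset.mem_univ _) h
  · intro j' _ hj
    refine Finset.sum_eq_zero fun k' _ => ?_
    simp [ev, hj]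
  · intro h; exact absurd (Finset.mem_univ _) h
  · intro i' _ hi
    refine Finset.sum_eq_zero fun j' _ => Finset.sum_eq_zero fun k' _ => ?_
    simp [ev, hi]
  · intro h; exact absurd (Finset.mem_univ _) h

/-- two alternating forms which agree on basis vectors -/
theorem al_ext {n : ℕ} {ω η : Al R n} (h : ∀ v : Fin n → Fin 8, ω (fun i => ev (v i)) =
    η (fun i => ev (v i))) : ω = η := by
  refine (Pi.basisFun R (Fin 8)).ext_alternating fun v _ => ?_
  simp only [Pi.basisFun_apply]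
  exact h v

/-- arrays and alternating forms of degree three -/
def arrEquiv (R : Type u) [CommRing R] : Al3 R ≃ₗ[R] Al R 3 where
  toFun := ofArr
  map_add' y z := by
    refine al_ext fun v => ?_
    have h : (fun i => ev (v i) : Fin 3 → Fin 8 → R) = ![ev (v 0), ev (v 1), ev (v 2)] := by
      funext i; fin_cases i <;> rfl
    rw [h, AlternatingMap.add_apply, ofArr_single, ofArr_single, ofArr_single]
    rfl
  map_smul' r z := by
    refine al_ext fun v => ?_
    have h : (fun i => ev (v i) : Fin 3 → Fin 8 → R) = ![ev (v 0), ev (v 1), ev (v 2)] := by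
      funext i; fin_cases i <;> rfl
    rw [h, RingHom.id_apply, AlternatingMap.smul_apply, ofArr_single, ofArr_single]
    rfl
  invFun ω := ⟨fun i j k => ω ![ev i, ev j, ev k], by
    refine ⟨fun i k => ?_, fun i j => ?_, fun i j k => ?_, fun i j k => ?_⟩
    · exact ω.map_eq_zero_of_eq _ (i := 0) (j := 1) rfl (by decide)
    · exact ω.map_eq_zero_of_eq _ (i := 1) (j := 2) rfl (by decide)
    · have h := ω.map_swap ![ev i, ev j, ev k] (i := 0) (j := 1) (by decide)
      have h2 : (![ev i, ev j, ev k] : Fin 3 → Fin 8 → R) ∘ Equiv.swap (0 : Fin 3) 1 =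
          ![ev j, ev i, ev k] := by
        funext p; fin_cases p <;> rfl
      rw [h2] at h
      exact h
    · have h := ω.map_swap ![ev i, ev j, ev k] (i := 1) (j := 2) (by decide)
      have h2 : (![ev i, ev j, ev k] : Fin 3 → Fin 8 → R) ∘ Equiv.swap (1 : Fin 3) 2 =
          ![ev i, ev k, ev j] := by
        funext p; fin_cases p <;> rfl
      rw [h2] at h
      exact h⟩
  left_inv z := by
    apply Subtype.ext
    funext i j k
    exact ofArr_single z i j k
  right_inv ω := by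
    refine al_ext fun v => ?_
    have h : (fun i => ev (v i) : Fin 3 → Fin 8 → R) = ![ev (v 0), ev (v 1), ev (v 2)] := by
      funext i; fin_cases i <;> rfl
    rw [h, ofArr_single]

theorem arrEquiv_single (z : Al3 R) (i j k : Fin 8) :
    arrEquiv R z ![ev i, ev j, ev k] = z.1 i j k := ofArr_single z i j k

/-- The middle part of the filtration in arrays: `(β, z)` with `β` and `z` alternating,
`∑ i, g(e_i) β i j = 0` and `g ∧ z = β ⌟ ν`. -/
def V2 (g : (Fin 8 → R) →ₗ[R] R) (ν : Al R 6) :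
    Submodule R ((Fin 8 → Fin 8 → R) × (Fin 8 → Fin 8 → Fin 8 → R)) where
  carrier := {x | x.1 ∈ Sk R ∧ x.2 ∈ Al3 R ∧ (∀ j, ∑ i, g (ev i) * x.1 i j = 0) ∧
    ∀ i j k l, g (ev i) * x.2 j k l - g (ev j) * x.2 i k l + g (ev k) * x.2 i j l -
      g (ev l) * x.2 i j k =
      ∑ a, ∑ b, if a < b then x.1 a b * ν ![ev a, ev b, ev i, ev j, ev k, ev l] else 0}
  add_mem' := by
    rintro x y ⟨h1, h2, h3, h4⟩ ⟨h5, h6, h7, h8⟩
    refine ⟨(Sk R).add_mem h1 h5, (Al3 R).add_mem h2 h6, fun j => ?_, fun i j k l => ?_⟩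
    · have : ∑ i, g (ev i) * (x.1 i j + y.1 i j) =
          ∑ i, g (ev i) * x.1 i j + ∑ i, g (ev i) * y.1 i j := by
        rw [← Finset.sum_add_distrib]
        exact Finset.sum_congr rfl fun i _ => by ring
      show ∑ i, g (ev i) * (x.1 i j + y.1 i j) = 0
      rw [this, h3, h7, add_zero]
    · have e1 := h4 i j k l
      have e2 := h8 i j k l
      show g (ev i) * (x.2 j k l + y.2 j k l) - g (ev j) * (x.2 i k l + y.2 i k l) +
        g (ev k) * (x.2 i j l + y.2 i j l) - g (ev l) * (x.2 i j k + y.2 i j k) =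
        ∑ a, ∑ b, if a < b then (x.1 a b + y.1 a b) * ν ![ev a, ev b, ev i, ev j, ev k, ev l] else 0
      have e3 : (∑ a, ∑ b, if a < b then
          (x.1 a b + y.1 a b) * ν ![ev a, ev b, ev i, ev j, ev k, ev l] else 0) =
          (∑ a, ∑ b, if a < b then x.1 a b * ν ![ev a, ev b, ev i, ev j, ev k, ev l] else 0) +
          ∑ a, ∑ b, if a < b then y.1 a b * ν ![ev a, ev b, ev i, ev j, ev k, ev l] else 0 := by
        rw [← Finset.sum_add_distrib]
        refine Finset.sum_congr rfl fun a _ => ?_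
        rw [← Finset.sum_add_distrib]
        refine Finset.sum_congr rfl fun b _ => ?_
        split_ifs
        · ring
        · ring
      rw [e3, ← e1, ← e2]
      ring
  zero_mem' := by
    refine ⟨(Sk R).zero_mem, (Al3 R).zero_mem, fun j => ?_, fun i j k l => ?_⟩
    · exact Finset.sum_eq_zero fun i _ => mul_zero _
    · show g (ev i) * 0 - g (ev j) * 0 + g (ev k) * 0 - g (ev l) * 0 =
        ∑ a : Fin 8, ∑ b : Fin 8,
          if a < b then 0 * ν ![ev a, ev b, ev i, ev j, ev k, ev l] else 0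
      simp
  smul_mem' := by
    rintro r x ⟨h1, h2, h3, h4⟩
    refine ⟨(Sk R).smul_mem r h1, (Al3 R).smul_mem r h2, fun j => ?_, fun i j k l => ?_⟩
    · have : ∑ i, g (ev i) * (r * x.1 i j) = r * ∑ i, g (ev i) * x.1 i j := by
        rw [Finset.mul_sum]
        exact Finset.sum_congr rfl fun i _ => by ring
      show ∑ i, g (ev i) * (r * x.1 i j) = 0
      rw [this, h3, mul_zero]
    · have e1 := h4 i j k l
      show g (ev i) * (r * x.2 j k l) - g (ev j) * (r * x.2 i k l) +
        g (ev k) * (r * x.2 i j l) - g (ev l) * (r * x.2 i j k) =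
        ∑ a, ∑ b, if a < b then (r * x.1 a b) * ν ![ev a, ev b, ev i, ev j, ev k, ev l] else 0
      have e3 : (∑ a, ∑ b, if a < b then
          (r * x.1 a b) * ν ![ev a, ev b, ev i, ev j, ev k, ev l] else 0) =
          r * ∑ a, ∑ b, if a < b then x.1 a b * ν ![ev a, ev b, ev i, ev j, ev k, ev l] else 0 := by
        rw [Finset.mul_sum]
        refine Finset.sum_congr rfl fun a _ => ?_
        rw [Finset.mul_sum]
        refine Finset.sum_congr rfl fun b _ => ?_
        split_ifs
        · ring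
        · ring
      rw [e3, ← e1]
      ring

theorem bc_single (ν : Al R 6) (β : Fin 8 → Fin 8 → R) (i j k l : Fin 8) :
    bc ν β ![ev i, ev j, ev k, ev l] =
      ∑ a, ∑ b, if a < b then β a b * ν ![ev a, ev b, ev i, ev j, ev k, ev l] else 0 := by
  rw [bc_apply]
  have h1 : ∀ (F : Fin 8 → Al R 4) (v : Fin 4 → Fin 8 → R), (∑ a, F a) v = ∑ a, F a v := by
    intro F v
    let E : Al R 4 →+ R := { toFun := fun ω => ω v, map_zero' := rfl, map_add' := fun _ _ => rfl }
    exact map_sum E F Finset.univ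
  rw [h1]
  refine Finset.sum_congr rfl fun a _ => ?_
  rw [h1]
  refine Finset.sum_congr rfl fun b _ => ?_
  split_ifs
  · rw [AlternatingMap.smul_apply, smul_eq_mul]
    unfold c2
    rw [contr_apply, contr_apply]
    rfl
  · rfl

theorem wedge_single (g : (Fin 8 → R) →ₗ[R] R) (z : Al3 R) (i j k l : Fin 8) :
    wedge g 3 (arrEquiv R z) ![ev i, ev j, ev k, ev l] =
      g (ev i) * z.1 j k l - g (ev j) * z.1 i k l + g (ev k) * z.1 i j l -
        g (ev l) * z.1 i j k := by
  rw [wedge_apply, Fin.sum_univ_four]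
  have e0 : (0 : Fin 4).removeNth (![ev i, ev j, ev k, ev l] : Fin 4 → Fin 8 → R) =
      ![ev j, ev k, ev l] := by funext p; fin_cases p <;> rfl
  have e1 : (1 : Fin 4).removeNth (![ev i, ev j, ev k, ev l] : Fin 4 → Fin 8 → R) =
      ![ev i, ev k, ev l] := by funext p; fin_cases p <;> rfl
  have e2 : (2 : Fin 4).removeNth (![ev i, ev j, ev k, ev l] : Fin 4 → Fin 8 → R) =
      ![ev i, ev j, ev l] := by funext p; fin_cases p <;> rfl
  have e3 : (3 : Fin 4).removeNth (![ev i, ev j, ev k, ev l] : Fin 4 → Fin 8 → R) =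
      ![ev i, ev j, ev k] := by funext p; fin_cases p <;> rfl
  rw [e0, e1, e2, e3, arrEquiv_single, arrEquiv_single, arrEquiv_single, arrEquiv_single]
  show (-1 : ℤ) ^ 0 • g (ev i) • z.1 j k l + (-1 : ℤ) ^ 1 • g (ev j) • z.1 i k l +
    (-1 : ℤ) ^ 2 • g (ev k) • z.1 i j l + (-1 : ℤ) ^ 3 • g (ev l) • z.1 i j k = _
  simp only [pow_zero, one_smul, pow_one, neg_smul, smul_eq_mul]
  norm_num
  ring

/-- the array form is the kernel of `D0` -/
def V2Equiv (g : (Fin 8 → R) →ₗ[R] R) (ν : Al R 6) : V2 g ν ≃ₗ[R] LinearMap.ker (D0 g ν) where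
  toFun x := ⟨(⟨x.1.1, x.2.1⟩, arrEquiv R ⟨x.1.2, x.2.2.1⟩), by
    obtain ⟨⟨β, z⟩, h1, h2, h3, h4⟩ := x
    rw [LinearMap.mem_ker, D0_apply]
    refine Prod.ext ?_ ?_
    · funext j
      exact h3 j
    · show wedge g 3 (arrEquiv R ⟨z, h2⟩) - bc ν β = 0
      rw [sub_eq_zero]
      refine al_ext fun v => ?_
      have h : (fun i => ev (v i) : Fin 4 → Fin 8 → R) = ![ev (v 0), ev (v 1), ev (v 2), ev (v 3)] := by
        funext i; fin_cases i <;> rfl
      rw [h, wedge_single, bc_single]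
      exact h4 _ _ _ _⟩
  map_add' x y := by
    apply Subtype.ext
    refine Prod.ext rfl ?_
    exact map_add (arrEquiv R) (⟨x.1.2, x.2.2.1⟩ : Al3 R) ⟨y.1.2, y.2.2.1⟩
  map_smul' r x := by
    apply Subtype.ext
    refine Prod.ext rfl ?_
    exact map_smul (arrEquiv R) r (⟨x.1.2, x.2.2.1⟩ : Al3 R)
  invFun c := ⟨(c.1.1.1, ((arrEquiv R).symm c.1.2).1), by
    obtain ⟨⟨β, ω⟩, hc⟩ := c
    rw [LinearMap.mem_ker, D0_apply] at hc
    obtain ⟨h1, h2⟩ := Prod.ext_iff.1 hc
    refine ⟨β.2, ((arrEquiv R).symm ω).2, fun j => congrFun h1 j, fun i j k l => ?_⟩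
    have h3 : wedge g 3 ω - bc ν β.1 = 0 := h2
    rw [sub_eq_zero] at h3
    have h4 := wedge_single g ((arrEquiv R).symm ω) i j k l
    rw [LinearEquiv.apply_symm_apply, h3, bc_single] at h4
    exact h4.symm⟩
  left_inv x := by
    apply Subtype.ext
    refine Prod.ext rfl ?_
    show ((arrEquiv R).symm (arrEquiv R (⟨x.1.2, x.2.2.1⟩ : Al3 R))).1 = x.1.2
    rw [LinearEquiv.symm_apply_apply]
  right_inv c := by
    apply Subtype.ext
    refine Prod.ext rfl ?_
    show arrEquiv R ((arrEquiv R).symm c.1.2) = c.1.2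
    rw [LinearEquiv.apply_symm_apply]

/-- The middle part of the filtration satisfies `H23`. -/
theorem H23_dual_V2 [IsLocalRing R] [IsNoetherianRing R] (hd : Depth6 R)
    {g : (Fin 8 → R) →ₗ[R] R} {a : Fin 6 → (Fin 8 → R)} {w : R} {ν : Al R 6}
    (hI : ∃ k, ∀ y ∈ maximalIdeal R ^ k, ∃ v, g v = y) (hG : Gor g a w)
    (hν0 : wedge g 6 ν = 0) (hνa : ν a - w ∈ Ideal.span (Set.range fun i => g (a i))) :
    H23 R (Module.Dual R (V2 g ν)) :=
  H23.congr (V2Equiv g ν).dualMap (H23_dual_D0 hd hI hG hν0 hνa)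

end Pool.Agent.Licci.XE

end

section

/-!
# LICCI, codimension 6 (XE): the `6`-form of `ζ`
-/

set_option autoImplicit false

namespace Pool.Agent.Licci.XE

open scoped BigOperators

universe u

variable {R : Type u} [CommRing R]


theorem det_ev {n : ℕ} (σ : Fin n → Fin n) :
    (Matrix.of fun i => (Pi.single (σ i) 1 : Fin n → R)).det =
      ((∏ j, ∏ i ∈ Finset.Iio j, Int.sign ((σ j : ℤ) - σ i) : ℤ) : R) := by
  by_cases hσ : Function.Injective σ
  · let e : Equiv.Perm (Fin n) := Equiv.ofBijective σ (Finite.injective_iff_bijective.1 hσ)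
    have h1 : (Matrix.of fun i => (Pi.single (σ i) 1 : Fin n → R)) =
        (1 : Matrix (Fin n) (Fin n) R).submatrix e id := by
      ext i j
      simp [Matrix.one_apply, Pi.single_apply, e, eq_comm]
    rw [h1, Matrix.det_permute, Matrix.det_one, mul_one, Equiv.Perm.sign_eq_prod_prod_Iio]
    push_cast
    refine Finset.prod_congr rfl fun j _ => Finset.prod_congr rfl fun i hi => ?_
    have hij : i ≠ j := (Finset.mem_Iio.1 hi).ne
    have h2 : (σ i : ℕ) ≠ σ j := fun h => hij (hσ (Fin.ext h))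
    have h3 : (e i < e j) ↔ ((σ i : ℕ) < σ j) := by
      rw [Fin.lt_def]; rfl
    by_cases h4 : (σ i : ℕ) < σ j
    · rw [if_pos (h3.2 h4), Int.sign_eq_one_of_pos (by omega)]
      simp
    · rw [if_neg (fun h => h4 (h3.1 h)), Int.sign_eq_neg_one_of_neg (by omega)]
      simp
  · have h : ∃ i j, σ i = σ j ∧ i ≠ j := by
      by_contra hcon
      push Not at hcon
      exact hσ fun i j h => hcon i j h
    obtain ⟨i, j, h1, h2⟩ := h
    rw [Matrix.det_zero_of_row_eq h2 (by
      show (Pi.single (σ i) 1 : Fin n → R) = Pi.single (σ j) 1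
      rw [h1])]
    symm
    wlog hlt : i < j generalizing i j
    · exact this j i h1.symm h2.symm (lt_of_le_of_ne (not_lt.mp hlt) h2.symm)
    have h3 : (∏ j, ∏ i ∈ Finset.Iio j, Int.sign ((σ j : ℤ) - σ i) : ℤ) = 0 := by
      refine Finset.prod_eq_zero (Finset.mem_univ j) ?_
      refine Finset.prod_eq_zero (Finset.mem_Iio.2 hlt) ?_
      rw [h1]; simp
    rw [h3]; simp

theorem prod8 (F : Fin 8 → Fin 8 → ℤ) : ∏ j, ∏ i ∈ Finset.Iio j, F i j =
    F 0 1 * (F 0 2 * F 1 2) * (F 0 3 * F 1 3 * F 2 3) * (F 0 4 * F 1 4 * F 2 4 * F 3 4) *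
    (F 0 5 * F 1 5 * F 2 5 * F 3 5 * F 4 5) * (F 0 6 * F 1 6 * F 2 6 * F 3 6 * F 4 6 * F 5 6) *
    (F 0 7 * F 1 7 * F 2 7 * F 3 7 * F 4 7 * F 5 7 * F 6 7) := by
  have h0 : Finset.Iio (0 : Fin 8) = ∅ := by decide
  have h1 : Finset.Iio (1 : Fin 8) = {0} := by decide
  have h2 : Finset.Iio (2 : Fin 8) = {0, 1} := by decide
  have h3 : Finset.Iio (3 : Fin 8) = {0, 1, 2} := by decide
  have h4 : Finset.Iio (4 : Fin 8) = {0, 1, 2, 3} := by decide
  have h5 : Finset.Iio (5 : Fin 8) = {0, 1, 2, 3, 4} := by decide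
  have h6 : Finset.Iio (6 : Fin 8) = {0, 1, 2, 3, 4, 5} := by decide
  have h7 : Finset.Iio (7 : Fin 8) = {0, 1, 2, 3, 4, 5, 6} := by decide
  rw [Fin.prod_univ_eight, h0, h1, h2, h3, h4, h5, h6, h7]
  simp [Finset.prod_insert]
  ring

theorem ep2_swapN (a b : Fin 8) : ep2 a b = - ep2 b a := by
  unfold ep2
  rw [← Int.sign_neg]
  congr 1
  ring

/-- the determinant of basis vectors -/
theorem det8_ev (c d a b i j k l : Fin 8) :
    (Matrix.of fun m => (Pi.single ((![c, d, a, b, i, j, k, l] : Fin 8 → Fin 8) m) 1 :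
      Fin 8 → R)).det = (sg8 a b i j k l c d : R) := by
  rw [det_ev]
  congr 1
  refine (prod8 fun i' j' => ep2 ((![c, d, a, b, i, j, k, l] : Fin 8 → Fin 8) i')
    ((![c, d, a, b, i, j, k, l] : Fin 8 → Fin 8) j')).trans ?_
  change ep2 c d * (ep2 c a * ep2 d a) * (ep2 c b * ep2 d b * ep2 a b) *
    (ep2 c i * ep2 d i * ep2 a i * ep2 b i) * (ep2 c j * ep2 d j * ep2 a j * ep2 b j * ep2 i j) *
    (ep2 c k * ep2 d k * ep2 a k * ep2 b k * ep2 i k * ep2 j k) *
    (ep2 c l * ep2 d l * ep2 a l * ep2 b l * ep2 i l * ep2 j l * ep2 k l) = _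
  unfold sg8
  rw [ep2_swapN c a, ep2_swapN d a, ep2_swapN c b, ep2_swapN d b, ep2_swapN c i, ep2_swapN d i,
    ep2_swapN c j, ep2_swapN d j, ep2_swapN c k, ep2_swapN d k, ep2_swapN c l, ep2_swapN d l]
  ring

/-- the determinant -/
noncomputable def dt8 (R : Type u) [CommRing R] : (Fin 8 → R) [⋀^Fin 8]→ₗ[R] R :=
  (Matrix.detRowAlternating : (Fin 8 → R) [⋀^Fin 8]→ₗ[R] R)

theorem dtg {n : ℕ} (R : Type u) [CommRing R] (v : Fin n → Fin n → R) :
    (Matrix.detRowAlternating : (Fin n → R) [⋀^Fin n]→ₗ[R] R) v = (Matrix.of v).det := rfl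

theorem dt8_apply (v : Fin 8 → Fin 8 → R) : dt8 R v = (Matrix.of v).det := by
  unfold dt8
  exact dtg R v

theorem dt8_ev (c d a b i j k l : Fin 8) :
    dt8 R ![ev c, ev d, ev a, ev b, ev i, ev j, ev k, ev l] = (sg8 a b i j k l c d : R) := by
  rw [← det8_ev, dt8_apply]
  have h0 : (![ev c, ev d, ev a, ev b, ev i, ev j, ev k, ev l] : Fin 8 → Fin 8 → R) =
      fun m => Pi.single ((![c, d, a, b, i, j, k, l] : Fin 8 → Fin 8) m) 1 := by
    funext m
    fin_cases m <;> rfl
  rw [h0]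

theorem al_neg_apply {n : ℕ} (ω : Al R n) (v : Fin n → Fin 8 → R) : (-ω) v = -ω v := rfl

theorem al_smul_apply {n : ℕ} (r : R) (ω : Al R n) (v : Fin n → Fin 8 → R) :
    (r • ω) v = r * ω v := rfl

theorem al_zero_apply {n : ℕ} (v : Fin n → Fin 8 → R) : (0 : Al R n) v = 0 := rfl

theorem al_sum_apply {n : ℕ} (F : Fin 8 → Al R n) (v : Fin n → Fin 8 → R) :
    (∑ a, F a) v = ∑ a, F a v := by
  let E : Al R n →+ R := { toFun := fun ω => ω v, map_zero' := rfl, map_add' := fun _ _ => rfl }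
  exact map_sum E F Finset.univ

/-- contraction of an `8`-form with a bivector -/
def nuG (ω : Al R 8) (ζ : Fin 8 → Fin 8 → R) : Al R 6 :=
  -∑ c, ∑ d, if c < d then ζ c d • contr (ev d) 6 (contr (ev c) 7 ω) else 0

theorem nuG_apply (ω : Al R 8) (ζ : Fin 8 → Fin 8 → R) (v : Fin 6 → Fin 8 → R) :
    nuG ω ζ v = -∑ c, ∑ d, if c < d then ζ c d * ω (Fin.cons (ev c) (Fin.cons (ev d) v)) else 0 := by
  unfold nuG
  rw [al_neg_apply, al_sum_apply]
  refine congrArg Neg.neg (Finset.sum_congr rfl fun c _ => ?_)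
  rw [al_sum_apply]
  refine Finset.sum_congr rfl fun d _ => ?_
  split_ifs
  · rw [al_smul_apply, contr_apply, contr_apply]
  · exact al_zero_apply v

theorem nuG_ev {ω : Al R 8} (hω : ∀ c d a b i j k l : Fin 8,
      ω ![ev c, ev d, ev a, ev b, ev i, ev j, ev k, ev l] = (sg8 a b i j k l c d : R))
    (ζ : Fin 8 → Fin 8 → R) (a b i j k l : Fin 8) :
    nuG ω ζ ![ev a, ev b, ev i, ev j, ev k, ev l] = nuA ζ a b i j k l := by
  rw [nuG_apply, nuA]
  refine congrArg Neg.neg (Finset.sum_congr rfl fun c _ => Finset.sum_congr rfl fun d _ => ?_)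
  split_ifs
  · have h : (Fin.cons (ev c) (Fin.cons (ev d) ![ev a, ev b, ev i, ev j, ev k, ev l]) :
        Fin 8 → Fin 8 → R) = ![ev c, ev d, ev a, ev b, ev i, ev j, ev k, ev l] := rfl
    rw [h, hω, mul_comm]
  · rfl

/-- `ν (x_1, .., x_6) = - ∑_(c<d) ζ_cd det (e_c, e_d, x_1, .., x_6)` -/
noncomputable def nuF (ζ : Fin 8 → Fin 8 → R) : Al R 6 := nuG (dt8 R) ζ

theorem nuF_ev (ζ : Fin 8 → Fin 8 → R) (a b i j k l : Fin 8) :
    nuF ζ ![ev a, ev b, ev i, ev j, ev k, ev l] = nuA ζ a b i j k l :=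
  nuG_ev dt8_ev ζ a b i j k l

theorem al6_ext {ω η : Al R 6} (h : ∀ a b i j k l,
    ω ![ev a, ev b, ev i, ev j, ev k, ev l] = η ![ev a, ev b, ev i, ev j, ev k, ev l]) :
    ω = η := by
  refine al_ext fun v => ?_
  have h1 : (fun i => ev (v i) : Fin 6 → Fin 8 → R) =
      ![ev (v 0), ev (v 1), ev (v 2), ev (v 3), ev (v 4), ev (v 5)] := by
    funext i; fin_cases i <;> rfl
  rw [h1]
  exact h _ _ _ _ _ _

theorem nuF_unique (ν : Al R 6) (ζ : Fin 8 → Fin 8 → R)
    (h : ∀ a b i j k l, ν ![ev a, ev b, ev i, ev j, ev k, ev l] = nuA ζ a b i j k l) :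
    ν = nuF ζ :=
  al6_ext fun a b i j k l => (h a b i j k l).trans (nuF_ev ζ a b i j k l).symm

theorem ep2_selfN (a : Fin 8) : ep2 a a = 0 := by simp [ep2]

theorem sg8_eq (a b i j k l c d : Fin 8) : sg8 a b i j k l c d =
    ∏ q, ∏ p ∈ Finset.Iio q, ep2 ((![a, b, i, j, k, l, c, d] : Fin 8 → Fin 8) p)
      ((![a, b, i, j, k, l, c, d] : Fin 8 → Fin 8) q) := by
  refine Eq.trans ?_ (prod8 fun i' j' => ep2 ((![a, b, i, j, k, l, c, d] : Fin 8 → Fin 8) i')
    ((![a, b, i, j, k, l, c, d] : Fin 8 → Fin 8) j')).symm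
  change _ = ep2 a b * (ep2 a i * ep2 b i) * (ep2 a j * ep2 b j * ep2 i j) *
    (ep2 a k * ep2 b k * ep2 i k * ep2 j k) * (ep2 a l * ep2 b l * ep2 i l * ep2 j l * ep2 k l) *
    (ep2 a c * ep2 b c * ep2 i c * ep2 j c * ep2 k c * ep2 l c) *
    (ep2 a d * ep2 b d * ep2 i d * ep2 j d * ep2 k d * ep2 l d * ep2 c d)
  unfold sg8
  ring

/-- `sg8` vanishes if two indices are equal -/
theorem sg8_ne {a b i j k l c d : Fin 8} (h : sg8 a b i j k l c d ≠ 0) :
    Function.Injective ![a, b, i, j, k, l, c, d] := by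
  rw [sg8_eq] at h
  generalize (![a, b, i, j, k, l, c, d] : Fin 8 → Fin 8) = x at h ⊢
  intro p q hpq
  by_contra hne
  apply h
  wlog hlt : p < q generalizing p q
  · exact this hpq.symm (fun h => hne h.symm) (lt_of_le_of_ne (not_lt.1 hlt) fun h => hne h.symm)
  refine Finset.prod_eq_zero (Finset.mem_univ q) (Finset.prod_eq_zero (Finset.mem_Iio.2 hlt) ?_)
  rw [hpq]
  exact ep2_selfN _

theorem compl_aux {x x' : Fin 8 → Fin 8} (hx : Function.Injective x) (hx' : Function.Injective x')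
    (h : ∀ m : Fin 8, m < 6 → x' m = x m) {q : Fin 8} (hq : ¬ q < 6) :
    x' q = x 6 ∨ x' q = x 7 := by
  obtain ⟨m, hm⟩ := Finite.surjective_of_injective hx (x' q)
  by_cases hm6 : m < 6
  · have := hx' ((h m hm6).trans hm)
    rw [this] at hm6
    exact absurd hm6 hq
  · have : m = 6 ∨ m = 7 := by revert hm6; clear hm; revert m; decide
    rcases this with h | h
    · rw [h] at hm; exact Or.inl hm.symm
    · rw [h] at hm; exact Or.inr hm.symm

theorem vec8_lt (a b i j k l c d c' d' : Fin 8) (m : Fin 8) (hm : m < 6) :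
    (![a, b, i, j, k, l, c', d'] : Fin 8 → Fin 8) m = (![a, b, i, j, k, l, c, d] : Fin 8 → Fin 8) m := by
  have h : m = 0 ∨ m = 1 ∨ m = 2 ∨ m = 3 ∨ m = 4 ∨ m = 5 := by revert hm; revert m; decide
  rcases h with rfl | rfl | rfl | rfl | rfl | rfl
  · exact Eq.trans (b := a) rfl rfl
  · exact Eq.trans (b := b) rfl rfl
  · exact Eq.trans (b := i) rfl rfl
  · exact Eq.trans (b := j) rfl rfl
  · exact Eq.trans (b := k) rfl rfl
  · exact Eq.trans (b := l) rfl rfl

theorem sg8_compl {a b i j k l c d c' d' : Fin 8} (h : sg8 a b i j k l c d ≠ 0) (hcd : c < d)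
    (hlt : c' < d') (h0 : sg8 a b i j k l c' d' ≠ 0) : c' = c ∧ d' = d := by
  have h1 := sg8_ne h
  have h2 := sg8_ne h0
  have h3 := vec8_lt a b i j k l c d c' d'
  have hc : c' = c ∨ c' = d := compl_aux (q := 6) h1 h2 h3 (by decide)
  have hd : d' = c ∨ d' = d := compl_aux (q := 7) h1 h2 h3 (by decide)
  clear h h0 h1 h2 h3
  rcases hc with hc | hc
  · rcases hd with hd | hd
    · rw [hc, hd] at hlt; exact absurd hlt (lt_irrefl _)
    · exact ⟨hc, hd⟩
  · rcases hd with hd | hd
    · rw [hc, hd] at hlt; exact absurd hlt (not_lt.2 hcd.le)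
    · rw [hc, hd] at hlt; exact absurd hlt (lt_irrefl _)

/-- the coefficient of `ν` in terms of the complementary coefficient of `ζ` -/
theorem nuA_compl (ζ : Fin 8 → Fin 8 → R) {a b i j k l c d : Fin 8} (h : sg8 a b i j k l c d ≠ 0)
    (hcd : c < d) : nuA ζ a b i j k l = -((sg8 a b i j k l c d : R) * ζ c d) := by
  rw [nuA]
  have key : ∀ c' d' : Fin 8, (c' ≠ c ∨ d' ≠ d) →
      (if c' < d' then (sg8 a b i j k l c' d' : R) * ζ c' d' else 0) = 0 := by
    intro c' d' hne
    split_ifs with hlt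
    · have h0 : sg8 a b i j k l c' d' = 0 := by
        by_contra h0
        obtain ⟨h1, h2⟩ := sg8_compl h hcd hlt h0
        rcases hne with h3 | h3
        · exact h3 h1
        · exact h3 h2
      rw [h0, Int.cast_zero, zero_mul]
    · rfl
  generalize (fun c' d' : Fin 8 => (sg8 a b i j k l c' d' : R)) = G at *
  refine congrArg Neg.neg ?_
  rw [Finset.sum_eq_single c, Finset.sum_eq_single d, if_pos hcd]
  · intro d' _ hd
    exact key c d' (Or.inr hd)
  · intro h; exact absurd (Finset.mem_univ _) h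
  · intro c' _ hc
    exact Finset.sum_eq_zero fun d' _ => key c' d' (Or.inl hc)
  · intro h; exact absurd (Finset.mem_univ _) h

/-! ### `V2` in terms of `IsV2` -/

theorem constr_ev (f : Vec R) (i : Fin 8) :
    ((Pi.basisFun R (Fin 8)).constr ℕ f : (Fin 8 → R) →ₗ[R] R) (ev i) = f i := by
  have h := (Pi.basisFun R (Fin 8)).constr_basis ℕ f i
  rw [Pi.basisFun_apply] at h
  exact h

theorem w2_addN (x y : E8 R) (i j : Fin 8) : w2 (x + y) i j = w2 x i j + w2 y i j := by
  simp only [w2, Pi.add_apply, mul_add]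

theorem w2_smulN (c : R) (y : E8 R) (i j : Fin 8) : w2 (c • y) i j = c * w2 y i j := by
  simp only [w2, Pi.smul_apply, smul_eq_mul]
  ring

theorem t3_addN (x y : E8 R) (i j k : Fin 8) : t3 (x + y) i j k = t3 x i j k + t3 y i j k := by
  simp only [t3, Pi.add_apply, mul_add]

theorem t3_smulN (c : R) (y : E8 R) (i j k : Fin 8) : t3 (c • y) i j k = c * t3 y i j k := by
  simp only [t3, Pi.smul_apply, smul_eq_mul]
  ring

theorem mem_V2_iff (f : Vec R) (ζ β : Fin 8 → Fin 8 → R) (z : Fin 8 → Fin 8 → Fin 8 → R) :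
    (β, z) ∈ V2 ((Pi.basisFun R (Fin 8)).constr ℕ f : (Fin 8 → R) →ₗ[R] R) (nuF ζ) ↔
      IsV2 f ζ β z := by
  constructor
  · rintro ⟨⟨h1, h2⟩, ⟨h3, h4, h5, h6⟩, h7, h8⟩
    simp only [constr_ev, nuF_ev] at h7 h8
    exact ⟨h1, h2, h3, fun i j k => h5 j i k, fun i j k => h6 i k j, h7, h8⟩
  · rintro ⟨h1, h2, h3, h4, h5, h6, h7⟩
    refine ⟨⟨h1, h2⟩, ⟨h3, fun i j => ?_, fun i j k => h4 j i k, fun i j k => h5 i k j⟩, ?_, ?_⟩
    · show z i j j = 0
      rw [h4 i j j, h5 j i j, h3]
      ring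
    · simp only [constr_ev]
      exact h6
    · simp only [constr_ev, nuF_ev]
      exact h7

theorem isV2_iff {f : Vec R} {ζ : Fin 8 → Fin 8 → R}
    (x : V2 ((Pi.basisFun R (Fin 8)).constr ℕ f : (Fin 8 → R) →ₗ[R] R) (nuF ζ)) :
    IsV2 f ζ x.1.1 x.1.2 := (mem_V2_iff f ζ _ _).1 x.2

theorem mem_V2_of {f : Vec R} {ζ β : Fin 8 → Fin 8 → R} {z : Fin 8 → Fin 8 → Fin 8 → R}
    (h : IsV2 f ζ β z) :
    (β, z) ∈ V2 ((Pi.basisFun R (Fin 8)).constr ℕ f : (Fin 8 → R) →ₗ[R] R) (nuF ζ) :=
  (mem_V2_iff f ζ β z).2 h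

end Pool.Agent.Licci.XE

end
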