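import Pool.Agent.Work.MP_a98e4e_ag.Fu.XE.VeP2
import Pool.Agent.Work.MP_a98e4e_ag.Fu.L.Grad
import Pool.Agent.Work.MP_a98e4e_ag.Fu.XE.Ext
import Pool.Agent.Work.MP_a98e4e_ag.Fu.XE.VeSCA
import Pool.Agent.Work.MP_a98e4e_ag.Fu.E.KForm
import Pool.Agent.Work.MP_a98e4e_ag.Fu.L.FormA4
import Pool.Agent.Work.MP_a98e4e_ag.Fu.MapCone
import Pool.Agent.Work.MP_a98e4e_ag.Fu.E.Dim
import Pool.Agent.Work.MP_a98e4e_ag.Fu.CF.Defs
import Pool.Agent.Work.MP_a98e4e_ag.Fu.D.Vol

section

/-!
# LICCI, codimension 6 (XE): the equations of `Φ` in degree `1`, kernel checks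
-/

set_option autoImplicit false

namespace Pool.Agent.Licci.XE

/-! ### checks -/


set_option maxRecDepth 100000 in
theorem k2_conj :
    (∀ i j k l : Fin 8, i < j → j < k → k < l → ∀ c d : Fin 8, c < d →
    ∀ f : Fin 8, (0 : Fin 8) < f →
    - sg3 i j k * KK (im1 i j k) (ix l) (i2 c d) (i2 0 f) = sg8 0 f i j k l c d) ∧
    (∀ i j k l : Fin 8, i < j → j < k → k < l → ∀ c d : Fin 8, c < d →
    ∀ f : Fin 8, (1 : Fin 8) < f →
    - sg3 i j k * KK (im1 i j k) (ix l) (i2 c d) (i2 1 f) = sg8 1 f i j k l c d) ∧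
    (∀ i j k l : Fin 8, i < j → j < k → k < l → ∀ c d : Fin 8, c < d →
    ∀ f : Fin 8, (2 : Fin 8) < f →
    - sg3 i j k * KK (im1 i j k) (ix l) (i2 c d) (i2 2 f) = sg8 2 f i j k l c d) ∧
    (∀ i j k l : Fin 8, i < j → j < k → k < l → ∀ c d : Fin 8, c < d →
    ∀ f : Fin 8, (3 : Fin 8) < f →
    - sg3 i j k * KK (im1 i j k) (ix l) (i2 c d) (i2 3 f) = sg8 3 f i j k l c d) ∧
    (∀ i j k l : Fin 8, i < j → j < k → k < l → ∀ c d : Fin 8, c < d →
    ∀ f : Fin 8, (4 : Fin 8) < f →
    - sg3 i j k * KK (im1 i j k) (ix l) (i2 c d) (i2 4 f) = sg8 4 f i j k l c d) ∧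
    (∀ i j k l : Fin 8, i < j → j < k → k < l → ∀ c d : Fin 8, c < d →
    ∀ f : Fin 8, (5 : Fin 8) < f →
    - sg3 i j k * KK (im1 i j k) (ix l) (i2 c d) (i2 5 f) = sg8 5 f i j k l c d) ∧
    (∀ i j k l : Fin 8, i < j → j < k → k < l → ∀ c d : Fin 8, c < d →
    ∀ f : Fin 8, (6 : Fin 8) < f →
    - sg3 i j k * KK (im1 i j k) (ix l) (i2 c d) (i2 6 f) = sg8 6 f i j k l c d) :=
  ⟨by decide +kernel,
    by decide +kernel,
    by decide +kernel,
    by decide +kernel,
    by decide +kernel,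
    by decide +kernel,
    by decide +kernel⟩

theorem k2_e0 : ∀ i j k l : Fin 8, i < j → j < k → k < l → ∀ c d : Fin 8, c < d →
    ∀ f : Fin 8, (0 : Fin 8) < f →
    - sg3 i j k * KK (im1 i j k) (ix l) (i2 c d) (i2 0 f) = sg8 0 f i j k l c d :=
  k2_conj.1

theorem k2_e1 : ∀ i j k l : Fin 8, i < j → j < k → k < l → ∀ c d : Fin 8, c < d →
    ∀ f : Fin 8, (1 : Fin 8) < f →
    - sg3 i j k * KK (im1 i j k) (ix l) (i2 c d) (i2 1 f) = sg8 1 f i j k l c d :=
  k2_conj.2.1

theorem k2_e2 : ∀ i j k l : Fin 8, i < j → j < k → k < l → ∀ c d : Fin 8, c < d →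
    ∀ f : Fin 8, (2 : Fin 8) < f →
    - sg3 i j k * KK (im1 i j k) (ix l) (i2 c d) (i2 2 f) = sg8 2 f i j k l c d :=
  k2_conj.2.2.1

theorem k2_e3 : ∀ i j k l : Fin 8, i < j → j < k → k < l → ∀ c d : Fin 8, c < d →
    ∀ f : Fin 8, (3 : Fin 8) < f →
    - sg3 i j k * KK (im1 i j k) (ix l) (i2 c d) (i2 3 f) = sg8 3 f i j k l c d :=
  k2_conj.2.2.2.1

theorem k2_e4 : ∀ i j k l : Fin 8, i < j → j < k → k < l → ∀ c d : Fin 8, c < d →
    ∀ f : Fin 8, (4 : Fin 8) < f →
    - sg3 i j k * KK (im1 i j k) (ix l) (i2 c d) (i2 4 f) = sg8 4 f i j k l c d :=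
  k2_conj.2.2.2.2.1

theorem k2_e5 : ∀ i j k l : Fin 8, i < j → j < k → k < l → ∀ c d : Fin 8, c < d →
    ∀ f : Fin 8, (5 : Fin 8) < f →
    - sg3 i j k * KK (im1 i j k) (ix l) (i2 c d) (i2 5 f) = sg8 5 f i j k l c d :=
  k2_conj.2.2.2.2.2.1

theorem k2_e6 : ∀ i j k l : Fin 8, i < j → j < k → k < l → ∀ c d : Fin 8, c < d →
    ∀ f : Fin 8, (6 : Fin 8) < f →
    - sg3 i j k * KK (im1 i j k) (ix l) (i2 c d) (i2 6 f) = sg8 6 f i j k l c d :=
  k2_conj.2.2.2.2.2.2

theorem k2_all : ∀ i j k l : Fin 8, i < j → j < k → k < l → ∀ c d : Fin 8, c < d →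
    ∀ e f : Fin 8, e < f →
    - sg3 i j k * KK (im1 i j k) (ix l) (i2 c d) (i2 e f) = sg8 e f i j k l c d := by
  intro i j k l h1 h2 h3 c d h4 e f h5
  match e, h5 with
  | 0, h5 => exact k2_e0 i j k l h1 h2 h3 c d h4 f h5
  | 1, h5 => exact k2_e1 i j k l h1 h2 h3 c d h4 f h5
  | 2, h5 => exact k2_e2 i j k l h1 h2 h3 c d h4 f h5
  | 3, h5 => exact k2_e3 i j k l h1 h2 h3 c d h4 f h5
  | 4, h5 => exact k2_e4 i j k l h1 h2 h3 c d h4 f h5
  | 5, h5 => exact k2_e5 i j k l h1 h2 h3 c d h4 f h5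
  | 6, h5 => exact k2_e6 i j k l h1 h2 h3 c d h4 f h5
  | 7, h5 => exact absurd h5 (not_lt.mpr (Fin.le_last f))

set_option maxRecDepth 100000 in
theorem k1_all : ∀ i j k l : Fin 8, i < j → j < k → k < l → ∀ c : Fin 8,
    fnd (cd (ix l) + off + off + off - cd (ix c) - cd (im1 i j k)) =
      if c = i then (i1 j k l : ℕ) else if c = j then (i1 i k l : ℕ) else
        if c = k then (i1 i j l : ℕ) else if c = l then (i1 i j k : ℕ) else 255 := by
  decide +kernel

set_option maxRecDepth 100000 in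
theorem k0_all : ∀ i j k l : Fin 8, i < j → j < k → k < l →
    (- sg3 i j k * KK (im1 i j k) (ix l) (ix i) (i1 j k l) = -(sg3 j k l)) ∧
    (- sg3 i j k * KK (im1 i j k) (ix l) (ix j) (i1 i k l) = (sg3 i k l)) ∧
    (- sg3 i j k * KK (im1 i j k) (ix l) (ix k) (i1 i j l) = -(sg3 i j l)) ∧
    (- sg3 i j k * (KK (im1 i j k) (ix l) (ix l) (i1 i j k) - 1) = (sg3 i j k)) := by
  decide +kernel

set_option maxRecDepth 100000 in
theorem kf_all : ∀ i j k : Fin 8, i < j → j < k → ∀ b : Fin 248,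
    kc b (im1 i j k) = if b = i1 i j k then -1 else 0 := by decide +kernel

set_option maxRecDepth 100000 in
theorem zd_all : ∀ m : Fin 248, (zdg m = 1 → 36 ≤ (m : ℕ) ∧ (m : ℕ) < 92) ∧
    (8 ≤ (m : ℕ) → (m : ℕ) < 36 → zdg m = 2) ∧ (zdg m = 2 → 8 ≤ (m : ℕ) ∧ (m : ℕ) < 36) ∧
    (zdg m = 3 → (m : ℕ) < 8) ∧ zdg m ≤ 3 ∧ (8 ≤ (m : ℕ) → zdg m ≤ 2) ∧
    ((m : ℕ) < 8 → zdg m = 3) := by decide +kernel

end Pool.Agent.Licci.XE

end

section

/-!
# LICCI, codimension 6 (XE): the equations of `Φ` in degree `1`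

`t3_rel`: `f ∧ y_1 = ∑ β ν` for `y ∈ Φ (p)` of `z`-degree `≤ 2`; `isV2_of_mem`.
-/

set_option autoImplicit false

namespace Pool.Agent.Licci.XE

open scoped BigOperators

universe u

variable {R : Type u} [CommRing R]

/-! ### sums -/

theorem sum28 {M : Type*} [AddCommMonoid M] (F : Fin 248 → M)
    (h : ∀ a : Fin 248, ¬ (8 ≤ (a : ℕ) ∧ (a : ℕ) < 36) → F a = 0) :
    ∑ a, F a = ∑ c : Fin 8, ∑ d : Fin 8, if c < d then F (i2 c d) else 0 := by
  have h1 : ∑ c : Fin 8, ∑ d : Fin 8, (if c < d then F (i2 c d) else 0) =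
      ∑ x ∈ (Finset.univ : Finset (Fin 8 × Fin 8)).filter (fun x => x.1 < x.2),
        F (i2 x.1 x.2) := by
    rw [Finset.sum_filter, ← Finset.univ_product_univ, Finset.sum_product]
  have h2 : ∑ x ∈ (Finset.univ : Finset (Fin 8 × Fin 8)).filter (fun x => x.1 < x.2),
      F (i2 x.1 x.2) = ∑ a ∈ ((Finset.univ : Finset (Fin 8 × Fin 8)).filter
        (fun x => x.1 < x.2)).image (fun x => i2 x.1 x.2), F a := by
    rw [Finset.sum_image]
    intro x hx y hy hxy
    have hx' : x.1 < x.2 := (Finset.mem_filter.1 hx).2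
    have hy' : y.1 < y.2 := (Finset.mem_filter.1 hy).2
    have := i2_inj hx' hy' hxy
    exact Prod.ext this.1 this.2
  rw [h1, h2]
  symm
  refine Finset.sum_subset (Finset.subset_univ _) fun a _ ha => h a ?_
  rintro ⟨h3, h4⟩
  obtain ⟨i, j, hij, hm⟩ := i2_surj a h3 h4
  exact ha (Finset.mem_image.2 ⟨(i, j), Finset.mem_filter.2 ⟨Finset.mem_univ _, hij⟩, hm⟩)

theorem KK_zdg {n m a b : Fin 248} (h : KK n m a b ≠ 0) : zdg a + zdg b + zdg n = zdg m := by
  rw [KK_eq] at h
  obtain ⟨c, -, hc⟩ := Finset.exists_ne_zero_of_sum_ne_zero h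
  have h1 := sc_zdg (left_ne_zero_of_mul hc)
  have h2 := sc_zdg (right_ne_zero_of_mul hc)
  omega

/-! ### alternating arrays -/

theorem t3_swapP (Y : E8 R) (i j k : Fin 8) : t3 Y i j k = - t3 Y j i k := by
  unfold t3
  rw [i1_swap i j k, sg3_swap i j k, ep3_swap i j k]
  push_cast
  ring

theorem t3_swapP' (Y : E8 R) (i j k : Fin 8) : t3 Y i j k = - t3 Y i k j := by
  unfold t3
  rw [i1_swap' i j k, sg3_swap' i j k, ep3_swap' i j k]
  push_cast
  ring

theorem t3_selfP (Y : E8 R) (i k : Fin 8) : t3 Y i i k = 0 := by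
  unfold t3
  rw [ep3_self]
  simp

theorem alt4_zero {M : Type*} [AddCommGroup M] (Φ : Fin 8 → Fin 8 → Fin 8 → Fin 8 → M)
    (h12 : ∀ i j k l, Φ i j k l = - Φ j i k l) (h23 : ∀ i j k l, Φ i j k l = - Φ i k j l)
    (h34 : ∀ i j k l, Φ i j k l = - Φ i j l k) (h0 : ∀ i k l, Φ i i k l = 0)
    (hs : ∀ i j k l, i < j → j < k → k < l → Φ i j k l = 0) (i j k l : Fin 8) :
    Φ i j k l = 0 := by
  refine alt3_zero (fun i j k => Φ i j k l) (fun i j k => h12 i j k l) (fun i j k => h23 i j k l)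
    (fun i k => h0 i k l) ?_ i j k
  intro i j k hij hjk
  have e23 : ∀ i k l, Φ i k k l = 0 := fun i k l => by
    rw [h12, h23, h0]; simp
  rcases lt_trichotomy k l with h | h | h
  · exact hs i j k l hij hjk h
  · subst h
    rw [h23, h34, e23]; simp
  · rw [h34]
    rcases lt_trichotomy j l with h' | h' | h'
    · rw [hs i j l k hij h' h, neg_zero]
    · subst h'
      rw [e23, neg_zero]
    · rw [h23]
      rcases lt_trichotomy i l with h'' | h'' | h''
      · rw [hs i l j k h'' h' hjk]; simp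
      · subst h''
        rw [h0]; simp
      · rw [h12, hs l i j k h'' hij hjk]; simp

theorem sg8_swapP12 (a b i j k l c d : Fin 8) : sg8 a b i j k l c d = - sg8 a b j i k l c d := by
  unfold sg8
  rw [ep2_swap i j]
  ring

theorem sg8_swap23 (a b i j k l c d : Fin 8) : sg8 a b i j k l c d = - sg8 a b i k j l c d := by
  unfold sg8
  rw [ep2_swap j k]
  ring

theorem sg8_swap34 (a b i j k l c d : Fin 8) : sg8 a b i j k l c d = - sg8 a b i j l k c d := by
  unfold sg8
  rw [ep2_swap k l]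
  ring

theorem sg8_self (a b i k l c d : Fin 8) : sg8 a b i i k l c d = 0 := by
  unfold sg8
  rw [ep2_self i]
  ring

theorem nuA_of_sg {ζ : Fin 8 → Fin 8 → R} {a b i j k l i' j' k' l' : Fin 8}
    (h : ∀ c d, sg8 a b i j k l c d = - sg8 a b i' j' k' l' c d) :
    nuA ζ a b i j k l = - nuA ζ a b i' j' k' l' := by
  unfold nuA
  rw [neg_neg, ← Finset.sum_neg_distrib]
  refine Finset.sum_congr rfl fun c _ => ?_
  rw [← Finset.sum_neg_distrib]
  refine Finset.sum_congr rfl fun d _ => ?_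
  split_ifs
  · rw [h c d]; push_cast; ring
  · simp

theorem nuA_self (ζ : Fin 8 → Fin 8 → R) (a b i k l : Fin 8) : nuA ζ a b i i k l = 0 := by
  unfold nuA
  rw [neg_eq_zero]
  refine Finset.sum_eq_zero fun c _ => Finset.sum_eq_zero fun d _ => ?_
  rw [sg8_self]; simp

/-! ### the relation -/

theorem sum_nu_swap {β : Fin 8 → Fin 8 → R} {ζ : Fin 8 → Fin 8 → R} {i j k l i' j' k' l' : Fin 8}
    (h : ∀ a b, nuA ζ a b i j k l = - nuA ζ a b i' j' k' l') :
    (∑ a, ∑ b, if a < b then β a b * nuA ζ a b i j k l else 0) =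
      - ∑ a, ∑ b, if a < b then β a b * nuA ζ a b i' j' k' l' else 0 := by
  rw [← Finset.sum_neg_distrib]
  refine Finset.sum_congr rfl fun c _ => ?_
  rw [← Finset.sum_neg_distrib]
  refine Finset.sum_congr rfl fun d _ => ?_
  split_ifs
  · rw [h c d]; ring
  · simp

theorem w2_lt (Y : E8 R) {c d : Fin 8} (h : c < d) : w2 Y c d = Y (i2 c d) := by
  unfold w2
  rw [ep2_of_lt h, Int.cast_one, one_mul]

theorem t3_lt (Y : E8 R) {i j k : Fin 8} (h : i < j) (h' : j < k) :
    t3 Y i j k = -(sg3 i j k : R) * Y (i1 i j k) := by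
  unfold t3
  rw [ep3_of_lt h h', mul_one]
  push_cast
  ring

theorem t3_rel_sorted {p y : E8 R} (hy : y ∈ Phi p) (h3 : ∀ i, p3 y i = 0) {i j k l : Fin 8}
    (hij : i < j) (hjk : j < k) (hkl : k < l) :
    p3 p i * t3 y j k l - p3 p j * t3 y i k l + p3 p k * t3 y i j l - p3 p l * t3 y i j k =
      ∑ a, ∑ b, if a < b then w2 y a b * nuA (w2 p) a b i j k l else 0 := by
  set n : Fin 248 := im1 i j k with hn
  set m : Fin 248 := ix l with hm
  have hzn : zdg n = -1 := zdg_im1 i j k hij hjk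
  have hzm : zdg m = 3 := zdg_lt8 l
  have hy8 : ∀ b : Fin 248, (b : ℕ) < 8 → y b = 0 := by
    intro b hb
    rw [eq_ix hb]
    exact h3 _
  have h4 : kf y (eb n) = - y (i1 i j k) := by
    rw [kf_eb, Finset.sum_eq_single (i1 i j k)]
    · rw [kf_all i j k hij hjk, if_pos rfl]
      push_cast
      ring
    · intro b _ hb
      rw [kf_all i j k hij hjk, if_neg hb]
      simp
    · intro h
      exact absurd (Finset.mem_univ _) h
  have h1 : br p (br y (eb n)) m = y (i1 i j k) * p m := by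
    have h2 := congrFun (hy.2 (eb n)) m
    rw [h2, Pi.sub_apply, Pi.neg_apply, Pi.smul_apply, Pi.smul_apply, smul_eq_mul, smul_eq_mul,
      hy8 m (by rw [hm, ix_fin]; exact l.2), h4]
    ring
  -- the sum over `a`
  set F : Fin 248 → R := fun a => ∑ b : Fin 248, (KK n m a b : R) * (p a * y b) with hF
  have hterm : ∀ a b : Fin 248, zdg a + zdg b ≠ 4 → (KK n m a b : R) * (p a * y b) = 0 := by
    intro a b hab
    by_cases hK : KK n m a b = 0
    · rw [hK]; simp
    · exact absurd (by have := KK_zdg hK; omega) hab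
  have hterm8 : ∀ a b : Fin 248, (b : ℕ) < 8 → (KK n m a b : R) * (p a * y b) = 0 := by
    intro a b hb
    rw [hy8 b hb]; ring
  have hbig : ∀ a : Fin 248, 36 ≤ (a : ℕ) → F a = 0 := by
    intro a ha
    refine Finset.sum_eq_zero fun b _ => ?_
    rcases lt_or_ge (b : ℕ) 8 with hb | hb
    · exact hterm8 a b hb
    · refine hterm a b fun h => ?_
      have hb2 := (zd_all b).2.2.2.2.2.1 hb
      have ha2 : zdg a = 2 ∨ zdg a = 3 := by
        have := (zd_all a).2.2.2.2.1
        omega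
      rcases ha2 with h5 | h5
      · have := (zd_all a).2.2.1 h5; omega
      · have := (zd_all a).2.2.2.1 h5; omega
  have hsplit : ∑ a : Fin 248, F a = ∑ a : Fin 248, (if (a : ℕ) < 8 then F a else 0) +
      ∑ a : Fin 248, (if (a : ℕ) < 8 then 0 else F a) := by
    rw [← Finset.sum_add_distrib]
    refine Finset.sum_congr rfl fun a _ => ?_
    split_ifs <;> simp
  have hs1 : ∑ a : Fin 248, (if (a : ℕ) < 8 then F a else 0) = ∑ c : Fin 8, F (ix c) := by
    rw [sum_lt8]
    · refine Finset.sum_congr rfl fun c _ => ?_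
      rw [if_pos (by rw [ix_fin]; exact c.2)]
    · intro a ha
      rw [if_neg (by omega)]
  have hs2 : ∑ a : Fin 248, (if (a : ℕ) < 8 then 0 else F a) =
      ∑ c : Fin 8, ∑ d : Fin 8, if c < d then F (i2 c d) else 0 := by
    rw [sum28]
    · refine Finset.sum_congr rfl fun c _ => Finset.sum_congr rfl fun d _ => ?_
      split_ifs with h5 h6
      · have := (i2_rng c d h5).1; omega
      · rfl
      · rfl
    · intro a ha
      split_ifs with h5
      · rfl
      · exact hbig a (by omega)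
  -- degree three
  have hF1 : ∀ c : Fin 8, F (ix c) =
      (if c = i then (KK n m (ix i) (i1 j k l) : R) * (p (ix i) * y (i1 j k l)) else 0) +
      (if c = j then (KK n m (ix j) (i1 i k l) : R) * (p (ix j) * y (i1 i k l)) else 0) +
      (if c = k then (KK n m (ix k) (i1 i j l) : R) * (p (ix k) * y (i1 i j l)) else 0) +
      (if c = l then (KK n m (ix l) (i1 i j k) : R) * (p (ix l) * y (i1 i j k)) else 0) := by
    intro c
    have hfd : ∀ b : Fin 248, KK n m (ix c : Fin 248) b ≠ 0 →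
        (b : ℕ) = fnd (cd m + off + off + off - cd (ix c) - cd n) := by
      intro b hK
      have hz := KK_zdg hK
      have hzc := zdg_lt8 c
      have hb := (zd_all b).1 (by omega)
      have hw := KK_wt hK
      have h6 : cd m + off + off + off - cd (ix c) - cd n = cd b + off := by omega
      rw [h6, fnd_cd (by omega)]
    have hone : ∀ b0 : Fin 248, fnd (cd m + off + off + off - cd (ix c) - cd n) = b0 →
        F (ix c) = (KK n m (ix c : Fin 248) b0 : R) * (p (ix c) * y b0) := by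
      intro b0 hb0
      refine Finset.sum_eq_single b0 (fun b _ hb => ?_) fun h => absurd (Finset.mem_univ _) h
      by_cases hK : KK n m (ix c : Fin 248) b = 0
      · rw [hK]; simp
      · exact absurd (Fin.ext ((hfd b hK).trans hb0)) hb
    have hk1 := k1_all i j k l hij hjk hkl c
    by_cases hci : c = i
    · subst hci
      rw [if_pos rfl] at hk1
      rw [if_pos rfl, if_neg (by omega), if_neg (by omega), if_neg (by omega), add_zero, add_zero,
        add_zero]
      exact hone _ hk1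
    · rw [if_neg hci] at hk1
      by_cases hcj : c = j
      · subst hcj
        rw [if_pos rfl] at hk1
        rw [if_neg hci, if_pos rfl, if_neg (by omega), if_neg (by omega), add_zero, add_zero,
          zero_add]
        exact hone _ hk1
      · rw [if_neg hcj] at hk1
        by_cases hck : c = k
        · subst hck
          rw [if_pos rfl] at hk1
          rw [if_neg hci, if_neg hcj, if_pos rfl, if_neg (by omega), add_zero, add_zero, zero_add]
          exact hone _ hk1
        · rw [if_neg hck] at hk1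
          by_cases hcl : c = l
          · subst hcl
            rw [if_pos rfl] at hk1
            rw [if_neg hci, if_neg hcj, if_neg hck, if_pos rfl, add_zero, add_zero, zero_add]
            exact hone _ hk1
          · rw [if_neg hcl] at hk1
            rw [if_neg hci, if_neg hcj, if_neg hck, if_neg hcl, add_zero, add_zero, add_zero]
            refine Finset.sum_eq_zero fun b _ => ?_
            by_cases hK : KK n m (ix c : Fin 248) b = 0
            · rw [hK]; simp
            · have := hfd b hK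
              rw [hk1] at this
              have := b.2
              omega
  -- degree two
  have hF2 : ∀ c d : Fin 8, c < d → F (i2 c d) =
      ∑ e : Fin 8, ∑ f : Fin 8, if e < f then
        (KK n m (i2 c d) (i2 e f) : R) * (w2 p c d * w2 y e f) else 0 := by
    intro c d hcd
    change ∑ b : Fin 248, (KK n m (i2 c d) b : R) * (p (i2 c d) * y b) = _
    rw [sum28]
    · refine Finset.sum_congr rfl fun e _ => Finset.sum_congr rfl fun f _ => ?_
      split_ifs with hef
      · rw [w2_lt p hcd, w2_lt y hef]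
      · rfl
    · intro b hb
      rcases lt_or_ge (b : ℕ) 8 with hb8 | hb8
      · exact hterm8 _ b hb8
      · refine hterm _ b fun h => ?_
        rw [zdg_i2 c d hcd] at h
        exact hb ((zd_all b).2.2.1 (by omega))
  have hmain : ∑ a, F a = y (i1 i j k) * p m := by
    rw [← h1, br_br_eb]
  obtain ⟨q1, q2, q3, q4⟩ := k0_all i j k l hij hjk hkl
  rw [← hn, ← hm] at q1 q2 q3 q4
  have q1' : -(sg3 i j k : R) * (KK n m (ix i) (i1 j k l) : R) = -(sg3 j k l : R) := by
    exact_mod_cast congrArg (Int.cast : ℤ → R) q1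
  have q2' : -(sg3 i j k : R) * (KK n m (ix j) (i1 i k l) : R) = (sg3 i k l : R) := by
    exact_mod_cast congrArg (Int.cast : ℤ → R) q2
  have q3' : -(sg3 i j k : R) * (KK n m (ix k) (i1 i j l) : R) = -(sg3 i j l : R) := by
    exact_mod_cast congrArg (Int.cast : ℤ → R) q3
  have q4' : -(sg3 i j k : R) * ((KK n m (ix l) (i1 i j k) : R) - 1) = (sg3 i j k : R) := by
    exact_mod_cast congrArg (Int.cast : ℤ → R) q4
  -- the right hand side
  have hR : ∑ a, ∑ b, (if a < b then w2 y a b * nuA (w2 p) a b i j k l else 0) =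
      (sg3 i j k : R) * ∑ c : Fin 8, ∑ d : Fin 8, if c < d then F (i2 c d) else 0 := by
    have e1 : ∀ a b : Fin 8, (if a < b then w2 y a b * nuA (w2 p) a b i j k l else 0) =
        ∑ c : Fin 8, ∑ d : Fin 8, if c < d then (if a < b then
          (sg3 i j k : R) * ((KK n m (i2 c d) (i2 a b) : R) * (w2 p c d * w2 y a b)) else 0)
            else 0 := by
      intro a b
      split_ifs with hab
      · unfold nuA
        rw [← Finset.sum_neg_distrib, Finset.mul_sum]
        refine Finset.sum_congr rfl fun c _ => ?_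
        rw [← Finset.sum_neg_distrib, Finset.mul_sum]
        refine Finset.sum_congr rfl fun d _ => ?_
        split_ifs with hcd
        · have hk2 : -(sg3 i j k : R) * (KK n m (i2 c d) (i2 a b) : R) =
              (sg8 a b i j k l c d : R) := by
            exact_mod_cast congrArg (Int.cast : ℤ → R)
              (k2_all i j k l hij hjk hkl c d hcd a b hab)
          rw [← hk2]
          ring
        · simp
      · simp
    calc ∑ a, ∑ b, (if a < b then w2 y a b * nuA (w2 p) a b i j k l else 0)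
        = ∑ a, ∑ b, ∑ c : Fin 8, ∑ d : Fin 8, (if c < d then (if a < b then
          (sg3 i j k : R) * ((KK n m (i2 c d) (i2 a b) : R) * (w2 p c d * w2 y a b)) else 0)
            else 0) := Finset.sum_congr rfl fun a _ => Finset.sum_congr rfl fun b _ => e1 a b
      _ = ∑ c : Fin 8, ∑ d : Fin 8, ∑ a, ∑ b, (if c < d then (if a < b then
          (sg3 i j k : R) * ((KK n m (i2 c d) (i2 a b) : R) * (w2 p c d * w2 y a b)) else 0)
            else 0) := by
        rw [Finset.sum_congr rfl fun a _ => Finset.sum_comm]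
        rw [Finset.sum_comm]
        refine Finset.sum_congr rfl fun c _ => ?_
        rw [Finset.sum_congr rfl fun a _ => Finset.sum_comm]
        rw [Finset.sum_comm]
      _ = _ := by
        rw [Finset.mul_sum]
        refine Finset.sum_congr rfl fun c _ => ?_
        rw [Finset.mul_sum]
        refine Finset.sum_congr rfl fun d _ => ?_
        split_ifs with hcd
        · rw [hF2 c d hcd, Finset.mul_sum]
          refine Finset.sum_congr rfl fun e _ => ?_
          rw [Finset.mul_sum]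
          refine Finset.sum_congr rfl fun f _ => ?_
          split_ifs <;> simp
        · simp
  have hL : ∑ c : Fin 8, F (ix c) =
      (KK n m (ix i) (i1 j k l) : R) * (p (ix i) * y (i1 j k l)) +
      (KK n m (ix j) (i1 i k l) : R) * (p (ix j) * y (i1 i k l)) +
      (KK n m (ix k) (i1 i j l) : R) * (p (ix k) * y (i1 i j l)) +
      (KK n m (ix l) (i1 i j k) : R) * (p (ix l) * y (i1 i j k)) := by
    rw [Finset.sum_congr rfl fun c _ => hF1 c]
    simp only [Finset.sum_add_distrib, Finset.sum_ite_eq', Finset.mem_univ, if_true]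
  rw [hR, t3_lt y hjk hkl, t3_lt y (hij.trans hjk) hkl, t3_lt y hij (hjk.trans hkl),
    t3_lt y hij hjk]
  rw [hsplit, hs1, hs2, hL] at hmain
  unfold p3
  have hpm : p m = p (ix l) := rfl
  rw [hpm] at hmain
  linear_combination -(sg3 i j k : R) * hmain - (p (ix i) * y (i1 j k l)) * q1' -
    (p (ix j) * y (i1 i k l)) * q2' - (p (ix k) * y (i1 i j l)) * q3' -
    (p (ix l) * y (i1 i j k)) * q4'

theorem t3_rel {p y : E8 R} (hy : y ∈ Phi p) (h3 : ∀ i, p3 y i = 0) (i j k l : Fin 8) :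
    p3 p i * t3 y j k l - p3 p j * t3 y i k l + p3 p k * t3 y i j l - p3 p l * t3 y i j k =
      ∑ a, ∑ b, if a < b then w2 y a b * nuA (w2 p) a b i j k l else 0 := by
  rw [← sub_eq_zero]
  refine alt4_zero (fun i j k l => p3 p i * t3 y j k l - p3 p j * t3 y i k l +
    p3 p k * t3 y i j l - p3 p l * t3 y i j k -
      ∑ a, ∑ b, if a < b then w2 y a b * nuA (w2 p) a b i j k l else 0) ?_ ?_ ?_ ?_ ?_ i j k l
  · intro i j k l
    rw [sum_nu_swap (i' := j) (j' := i) (k' := k) (l' := l)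
      fun a b => nuA_of_sg fun c d => sg8_swapP12 a b i j k l c d]
    rw [t3_swapP y i j l, t3_swapP y i j k]
    ring
  · intro i j k l
    rw [sum_nu_swap (i' := i) (j' := k) (k' := j) (l' := l)
      fun a b => nuA_of_sg fun c d => sg8_swap23 a b i j k l c d]
    rw [t3_swapP y j k l, t3_swapP' y i j k]
    ring
  · intro i j k l
    rw [sum_nu_swap (i' := i) (j' := j) (k' := l) (l' := k)
      fun a b => nuA_of_sg fun c d => sg8_swap34 a b i j k l c d]
    rw [t3_swapP' y j k l, t3_swapP' y i k l]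
    ring
  · intro i k l
    have : ∑ a, ∑ b, (if a < b then w2 y a b * nuA (w2 p) a b i i k l else 0) = 0 := by
      refine Finset.sum_eq_zero fun a _ => Finset.sum_eq_zero fun b _ => ?_
      rw [nuA_self]; simp
    rw [this, t3_selfP, t3_selfP]
    ring
  · intro i j k l hij hjk hkl
    rw [sub_eq_zero]
    exact t3_rel_sorted hy h3 hij hjk hkl

theorem isV2_of_mem {p y : E8 R} (hy : y ∈ Phi p) (h3 : ∀ i, p3 y i = 0) :
    IsV2 (p3 p) (w2 p) (w2 y) (t3 y) where
  b0 := fun i => w2_self y i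
  b1 := fun i j => w2_swap y i j
  z0 := fun i k => t3_selfP y i k
  z1 := fun i j k => t3_swapP y i j k
  z2 := fun i j k => t3_swapP' y i j k
  fb := fun j => w2_perp hy h3 j
  fz := fun i j k l => t3_rel hy h3 i j k l

end Pool.Agent.Licci.XE

end

section

/-!
# LICCI, codimension 6 (XE): the middle part of `Φ` and the module `V2`
-/

set_option autoImplicit false

namespace Pool.Agent.Licci.XE

open scoped BigOperators

universe u

variable {R : Type u} [CommRing R]

/-- the linear form of `f = p3 p` -/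
noncomputable abbrev gf (p : E8 R) : (Fin 8 → R) →ₗ[R] R :=
  ((Pi.basisFun R (Fin 8)).constr ℕ (p3 p) : (Fin 8 → R) →ₗ[R] R)

section

variable [Algebra ℚ R]

/-- the components of degree `2` and `1` -/
noncomputable def phi2ToV2 (p : E8 R) : Phi2 p →ₗ[R] V2 (gf p) (nuF (w2 p)) where
  toFun y := ⟨(w2 (((y : Phi p) : E8 R)), t3 (((y : Phi p) : E8 R))),
    mem_V2_of (isV2_of_mem y.1.2 y.2)⟩
  map_add' x y := by
    apply Subtype.ext
    refine Prod.ext ?_ ?_
    · funext i j
      exact w2_addN _ _ i j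
    · funext i j k
      exact t3_addN _ _ i j k
  map_smul' c y := by
    apply Subtype.ext
    refine Prod.ext ?_ ?_
    · funext i j
      exact w2_smulN _ _ i j
    · funext i j k
      exact t3_smulN _ _ i j k

theorem phi2ToV2_fst (p : E8 R) (y : Phi2 p) :
    (phi2ToV2 p y).1.1 = w2 (((y : Phi p) : E8 R)) := rfl

theorem phi2ToV2_snd (p : E8 R) (y : Phi2 p) :
    (phi2ToV2 p y).1.2 = t3 (((y : Phi p) : E8 R)) := rfl

theorem phi2ToV2_eq_zero {p : E8 R} {y : Phi2 p} : phi2ToV2 p y = 0 ↔ y ∈ Phi0 p := by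
  constructor
  · intro h m hm
    have h2 : w2 (((y : Phi p) : E8 R)) = 0 := congrArg (fun x => x.1.1) h
    have h1 : t3 (((y : Phi p) : E8 R)) = 0 := congrArg (fun x => x.1.2) h
    exact zdg_of_w2_t3 y.2 (fun i j => congrFun (congrFun h2 i) j)
      (fun i j k => congrFun (congrFun (congrFun h1 i) j) k) m hm
  · intro h
    have hi2 : ∀ i j : Fin 8, i ≠ j → 0 < zdg (i2 i j) := by decide
    have hi1 : ∀ i j k : Fin 8, i ≠ j → i ≠ k → j ≠ k → 0 < zdg (i1 i j k) := by decide
    apply Subtype.ext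
    refine Prod.ext ?_ ?_
    · funext i j
      show (ep2 i j : R) * ((y : Phi p) : E8 R) (i2 i j) = 0
      by_cases hij : i = j
      · subst hij
        simp [ep2]
      · rw [h _ (hi2 i j hij), mul_zero]
    · funext i j k
      show ((-(sg3 i j k * ep3 i j k) : ℤ) : R) * ((y : Phi p) : E8 R) (i1 i j k) = 0
      by_cases hij : i = j
      · subst hij
        simp [ep3]
      by_cases hik : i = k
      · subst hik
        simp [ep3]
      by_cases hjk : j = k
      · subst hjk
        simp [ep3]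
      rw [h _ (hi1 i j k hij hik hjk), mul_zero]

/-- the kernel is the part of degree `≤ 0` -/
theorem ker_phi2ToV2 (p : E8 R) : LinearMap.ker (phi2ToV2 p) = Phi0 p := by
  ext y
  rw [LinearMap.mem_ker]
  exact phi2ToV2_eq_zero

/-- the cokernel is killed by `f_i ^ 3` -/
theorem phi2ToV2_coker {p : E8 R} (hc : Cone p) (i : Fin 8) (x : V2 (gf p) (nuF (w2 p))) :
    ∃ y : Phi2 p, phi2ToV2 p y = p3 p i ^ 3 • x := by
  obtain ⟨⟨β, z⟩, hx⟩ := x
  obtain ⟨y, hy, h3, h2, h1⟩ := exists_w2_t3 hc ((mem_V2_iff _ _ β z).1 hx) i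
  refine ⟨⟨⟨y, hy⟩, h3⟩, ?_⟩
  apply Subtype.ext
  refine Prod.ext ?_ ?_
  · funext a b
    exact h2 a b
  · funext a b c
    exact h1 a b c

end

end Pool.Agent.Licci.XE

end

section

/-!
# LICCI, codimension 6 (XE): elements of `Φ (p)` with given component of degree `3`
-/

set_option autoImplicit false

namespace Pool.Agent.Licci.XE

open scoped BigOperators
open U (Sup)

universe u

variable {R : Type u} [CommRing R]

set_option maxRecDepth 100000 in
theorem db_low_chk : ∀ (i : Fin 8) (m : Fin 248), zdg m ≠ -3 → cf (dbN (ix i : Fin 248)) m = 0 := by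
  decide +kernel

theorem zdg_le3 (m : Fin 248) : zdg m ≤ 3 := by
  obtain ⟨-, -, -, h, -⟩ := g_spec m.2
  have := zdN_three m.2
  unfold zdg
  omega

theorem db_apply (i m : Fin 248) : (db i : E8 R) m = (cf (dbN i) m : R) := by
  rw [db, Finset.sum_apply, Finset.sum_eq_single m]
  · simp [eb_apply]
  · intro b _ hb
    simp [eb_apply, Ne.symm hb]
  · intro h
    exact absurd (Finset.mem_univ _) h

theorem db_sup (i : Fin 8) : Sup zdg (-3) (db (ix i) : E8 R) := by
  intro m hm
  rw [db_apply, db_low_chk i m hm, Int.cast_zero]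

/-- brackets with an element of degree `-3` have no component of degree `3` -/
theorem p3_br_low (p : E8 R) {x : E8 R} (hx : Sup zdg (-3) x) (q : Fin 8) : p3 (br p x) q = 0 := by
  change br p x (ix q) = 0
  rw [br_apply]
  refine Finset.sum_eq_zero fun a _ => Finset.sum_eq_zero fun c _ => ?_
  by_cases hs : sc a c (ix q) = 0
  · rw [hs]
    simp
  · have h1 := sc_zdg hs
    rw [zdg_lt8] at h1
    have h2 := zdg_le3 a
    rw [hx c (by omega)]
    ring

theorem exists_p3 [Algebra ℚ R] {p : E8 R} (hc : Cone p) (i : Fin 8) (v : Vec R) :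
    ∃ y ∈ Phi p, ∀ j, p3 y j = p3 p i ^ 3 * v j := by
  have hf : kf p (db (ix i)) = p3 p i := by
    rw [kf_symm, kf_db_apply]
    rfl
  -- the elements with component `f_i ^ 2 e_j`
  set Y : Fin 8 → E8 R := fun j => if j = i then 0 else -bz p (db (ix i)) (Eg j i) with hY
  have hYm : ∀ j, Y j ∈ Phi p := by
    intro j
    rw [hY]
    simp only
    split_ifs
    · exact Submodule.zero_mem _
    · exact Submodule.neg_mem _ (bz_mem hc _ _)
  have hYp : ∀ j, j ≠ i → ∀ q, p3 (Y j) q = if q = j then p3 p i ^ 2 else 0 := by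
    intro j hj q
    have h1 : Y j = -bz p (db (ix i)) (Eg j i) := by
      rw [hY]
      simp only
      rw [if_neg hj]
    have h2 : p3 (br p (Eg j i : E8 R)) q = -(p3 p i * (Pi.single j (1 : R) : Vec R) q) := by
      have h3 := congrFun (p3_Eg hj p) q
      rw [Pi.smul_apply, smul_eq_mul] at h3
      rw [← h3]
      change br p (Eg j i) (ix q) = -(br (Eg j i) p (ix q))
      rw [br_skew]
      rfl
    have h4 : p3 (br p (db (ix i) : E8 R)) q = 0 := p3_br_low p (db_sup i) q
    have h5 : p3 (Y j) q = -(p3 p i * p3 (br p (Eg j i : E8 R)) q -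
        kf p (Eg j i) * p3 (br p (db (ix i) : E8 R)) q) := by
      rw [h1, bz_apply, hf]
      change -(br p (p3 p i • (Eg j i : E8 R) - kf p (Eg j i) • db (ix i)) (ix q)) = _
      rw [br_sub_right, br_smul_right, br_smul_right]
      rfl
    rw [h5, h2, h4]
    split_ifs with hq
    · rw [hq, Pi.single_eq_same]
      ring
    · rw [Pi.single_eq_of_ne hq]
      ring
  refine ⟨(p3 p i ^ 2 * v i) • p + ∑ j, (p3 p i * v j - v i * p3 p j) • Y j, ?_, fun q => ?_⟩
  · exact Submodule.add_mem _ (Submodule.smul_mem _ _ (p_mem_Phi hc))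
      (Submodule.sum_mem _ fun j _ => Submodule.smul_mem _ _ (hYm j))
  · have h6 : p3 ((p3 p i ^ 2 * v i) • p + ∑ j, (p3 p i * v j - v i * p3 p j) • Y j) q =
        p3 p i ^ 2 * v i * p3 p q + ∑ j, (p3 p i * v j - v i * p3 p j) * p3 (Y j) q := by
      change ((p3 p i ^ 2 * v i) • p + ∑ j, (p3 p i * v j - v i * p3 p j) • Y j) (ix q) = _
      rw [Pi.add_apply, Finset.sum_apply]
      rfl
    have hYi : p3 (Y i) q = 0 := by
      have hY0 : Y i = 0 := if_pos rfl
      rw [hY0]
      rfl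
    rw [h6]
    have h7 : ∀ j, (p3 p i * v j - v i * p3 p j) * p3 (Y j) q =
        if q = j then (if q = i then 0 else (p3 p i * v q - v i * p3 p q) * p3 p i ^ 2) else 0 := by
      intro j
      by_cases hj : j = i
      · rw [hj, hYi, mul_zero]
        split_ifs <;> rfl
      · rw [hYp j hj q]
        split_ifs with h8 h9
        · exact absurd (h8.symm.trans h9) hj
        · rw [h8]
        · rw [mul_zero]
    rw [Finset.sum_congr rfl fun j _ => h7 j, Finset.sum_ite_eq Finset.univ q,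
      if_pos (Finset.mem_univ _)]
    split_ifs with h8
    · rw [h8]
      ring
    · ring

end Pool.Agent.Licci.XE

end

section

/-!
# LICCI, codimension 6 (XE): `Ext ^ 2 (V*, R) = Ext ^ 3 (V*, R) = 0` for `V = Φ / R p`
-/

set_option autoImplicit false

namespace Pool.Agent.Licci.XE

open IsLocalRing

universe u

variable {R : Type u} [CommRing R]

/-- the linear form with coefficients `f` -/
noncomputable abbrev lf (f : Fin 8 → R) : (Fin 8 → R) →ₗ[R] R :=
  (Pi.basisFun R (Fin 8)).constr ℕ f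

/-- (instance search does not find this one) -/
noncomputable instance addCommGroupPhi0 (p : E8 R) : AddCommGroup (Phi0 p) :=
  Module.addCommMonoidToAddCommGroup R

/-- the component of degree `3` on `Φ` -/
def top3 (p : E8 R) : Phi p →ₗ[R] (Fin 8 → R) where
  toFun y := p3 (y : E8 R)
  map_add' _ _ := rfl
  map_smul' _ _ := rfl

theorem top3_exact (p : E8 R) : Function.Exact (Phi2 p).subtype (top3 p) := by
  intro y
  constructor
  · intro h
    exact ⟨⟨y, fun i => congrFun h i⟩, rfl⟩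
  · rintro ⟨y, rfl⟩
    funext i
    exact y.2 i

section

variable [IsDomain R] [IsLocalRing R] [IsNoetherianRing R] [Algebra ℚ R]

/-- the dual of the part of degree `≤ 0` -/
theorem H23_dual_Phi0 (hd : Depth6 R) {p : E8 R} (hc : Cone p)
    (hI : ∃ k, maximalIdeal R ^ k ≤ Ideal.span (Set.range (p3 p))) :
    H23 R (Module.Dual R (Phi0 p)) := by
  have hg : Gr2 (p3 p) := fun a b hb h => gr2_of hd (p3 p) hI hb h
  have h0 : ∃ i, p3 p i ≠ 0 := by
    by_contra hcon
    push Not at hcon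
    obtain ⟨k, hk⟩ := hI
    obtain ⟨r, hr, hr0⟩ := exists_mem_pow_ne_zero hd k
    have h1 := hk hr
    have h2 : Ideal.span (Set.range (p3 p)) = ⊥ := by
      rw [Ideal.span_eq_bot]
      rintro _ ⟨i, rfl⟩
      exact hcon i
    rw [h2] at h1
    exact hr0 h1
  obtain ⟨e, -⟩ := exists_phi0Equiv hc h0 hg
  have hT : Tors R (R ⧸ LinearMap.range (lf (p3 p))) := by
    obtain ⟨k, hk⟩ := hI
    refine ⟨k, fun r hr x => ?_⟩
    obtain ⟨y, rfl⟩ := Submodule.Quotient.mk_surjective _ x
    rw [← Submodule.Quotient.mk_smul, Submodule.Quotient.mk_eq_zero, range_constr]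
    rw [smul_eq_mul, mul_comm]
    exact Ideal.mul_mem_left _ _ (hk hr)
  have h3 : H23 R (Module.Dual R (LinearMap.ker (lf (p3 p)))) :=
    H23.step3 hd (f := (LinearMap.ker (lf (p3 p))).subtype) (q := lf (p3 p))
      (Submodule.injective_subtype _) (LinearMap.exact_subtype_ker_map _) hT
  exact h3.congr e.symm.dualMap

/-- the dual of the part of degree `≤ 2` -/
theorem H23_dual_Phi2 (hd : Depth6 R) {p : E8 R} (hc : Cone p)
    (hI : ∃ k, maximalIdeal R ^ k ≤ Ideal.span (Set.range (p3 p)))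
    (hV : H23 R (Module.Dual R (V2 (lf (p3 p)) (nuF (w2 p))))) :
    H23 R (Module.Dual R (Phi2 p)) := by
  have hN : IsNoetherian R (Phi0 p) := inferInstance
  refine H23.step2 (A := Phi0 p) (B := Phi2 p) (F := V2 (lf (p3 p)) (nuF (w2 p))) hd
    (f := (Phi0 p).subtype) (q := phi2ToV2 p) ?_ ?_ hV
    (H23_dual_Phi0 hd hc hI) ?_
  · intro y
    rw [phi2ToV2_eq_zero]
    exact ⟨fun h => ⟨⟨y, h⟩, rfl⟩, by rintro ⟨y, rfl⟩; exact y.2⟩
  · refine tors_of_local (p3 p) hI 3 fun i x => ?_
    obtain ⟨y, rfl⟩ := Submodule.Quotient.mk_surjective _ x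
    rw [← Submodule.Quotient.mk_smul, Submodule.Quotient.mk_eq_zero]
    obtain ⟨z, hz⟩ := phi2ToV2_coker hc i y
    exact ⟨z, hz⟩
  · refine tors_of_local (p3 p) hI 2 fun i x => ?_
    obtain ⟨ψ, rfl⟩ := Submodule.Quotient.mk_surjective _ x
    rw [← Submodule.Quotient.mk_smul, Submodule.Quotient.mk_eq_zero]
    obtain ⟨T, hT⟩ := exists_ext0 hc i
    refine ⟨ψ ∘ₗ T, ?_⟩
    ext y
    rw [LinearMap.dualMap_apply]
    show ψ (T (y : Phi2 p)) = p3 p i ^ 2 • ψ y
    rw [hT y, map_smul]

/-- the dual of `Φ` -/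
theorem H23_dual_Phi (hd : Depth6 R) {p : E8 R} (hc : Cone p)
    (hI : ∃ k, maximalIdeal R ^ k ≤ Ideal.span (Set.range (p3 p)))
    (hV : H23 R (Module.Dual R (V2 (lf (p3 p)) (nuF (w2 p))))) :
    H23 R (Module.Dual R (Phi p)) := by
  have h2 := H23_dual_Phi2 hd hc hI hV
  refine H23.step1 (A := Phi2 p) (B := Phi p) hd (f := (Phi2 p).subtype) (q := top3 p)
    (Submodule.injective_subtype _) (top3_exact p) ?_ h2
  refine tors_of_local (p3 p) hI 3 fun i x => ?_
  obtain ⟨v, rfl⟩ := Submodule.Quotient.mk_surjective _ x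
  rw [← Submodule.Quotient.mk_smul, Submodule.Quotient.mk_eq_zero]
  obtain ⟨y, hy, hv⟩ := exists_p3 hc i v
  exact ⟨⟨y, hy⟩, funext hv⟩

/-- the dual of `V = Φ / R p` -/
theorem H23_dual_VR (hd : Depth6 R) {p : E8 R} (hc : Cone p)
    (hI : ∃ k, maximalIdeal R ^ k ≤ Ideal.span (Set.range (p3 p)))
    (hV : H23 R (Module.Dual R (V2 (lf (p3 p)) (nuF (w2 p))))) :
    H23 R (Module.Dual R (VR p)) := by
  set p' : Phi p := ⟨p, p_mem_Phi hc⟩ with hp'
  refine H23.step4 hd p' _ ?_ ?_ (H23_dual_Phi hd hc hI hV)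
  · apply le_antisymm
    · intro y hy
      obtain ⟨c, hc'⟩ := Submodule.mem_span_singleton.1 hy
      exact Submodule.mem_span_singleton.2 ⟨c, Subtype.ext hc'⟩
    · rw [Submodule.span_le]
      rintro _ rfl
      exact Submodule.mem_span_singleton_self p
  · obtain ⟨k, hk⟩ := hI
    refine ⟨k, fun r hr x => ?_⟩
    obtain ⟨y, rfl⟩ := Submodule.Quotient.mk_surjective _ x
    rw [← Submodule.Quotient.mk_smul, Submodule.Quotient.mk_eq_zero, smul_eq_mul, mul_comm]
    refine Ideal.mul_mem_left (LinearMap.range (LinearMap.applyₗ (R := R) p' :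
      Module.Dual R (Phi p) →ₗ[R] R)) y ?_
    have h1 : Ideal.span (Set.range (p3 p)) ≤ LinearMap.range (LinearMap.applyₗ (R := R) p' :
        Module.Dual R (Phi p) →ₗ[R] R) := by
      refine Submodule.span_le.2 ?_
      rintro _ ⟨i, rfl⟩
      exact ⟨LinearMap.proj i ∘ₗ top3 p, rfl⟩
    exact h1 (hk hr)

/-- the final form, with the hypotheses on `f` and `ζ` of the ideal side -/
theorem H23_dual_VR' (hd : Depth6 R) {p : E8 R} (hc : Cone p)
    (hI : ∃ k, maximalIdeal R ^ k ≤ Ideal.span (Set.range (p3 p)))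
    {a : Fin 6 → (Fin 8 → R)} {w : R} (hG : Gor (lf (p3 p)) a w) {ν : Al R 6}
    (hνζ : ν = nuF (w2 p)) (hν0 : wedge (lf (p3 p)) 6 ν = 0)
    (hνa : ν a - w ∈ Ideal.span (Set.range fun i => lf (p3 p) (a i))) :
    H23 R (Module.Dual R (VR p)) := by
  subst hνζ
  refine H23_dual_VR hd hc hI (H23_dual_V2 hd ?_ hG hν0 hνa)
  obtain ⟨k, hk⟩ := hI
  refine ⟨k, fun y hy => ?_⟩
  have h1 := hk hy
  rw [← range_constr] at h1
  exact h1

end

end Pool.Agent.Licci.XE

end

section

/-!
# LICCI, codimension 6 (XE): from linkage data to `Ext ^ 2 (V*, R) = Ext ^ 3 (V*, R) = 0`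
-/

set_option autoImplicit false

namespace Pool.Agent.Licci.XE

open IsLocalRing RingTheory.Sequence

universe u

section

variable {R M : Type*} [CommRing R] [AddCommGroup M] [Module R M]

/-- the sum form of `f ∧ ν = 0` -/
theorem wedge_of_cyc {n : ℕ} (f : M →ₗ[R] R) (ν : M [⋀^Fin (n + 1)]→ₗ[R] R)
    (h : ∀ (a : Fin (n + 1) → M) (v : M), ∑ j, f (a j) * ν (Function.update a j v) = f v * ν a) :
    wedge f (n + 1) ν = 0 := by
  refine AlternatingMap.ext fun x => ?_
  obtain ⟨v, a, rfl⟩ : ∃ (v : M) (a : Fin (n + 1) → M), x = Fin.cons v a :=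
    ⟨x 0, Fin.tail x, (Fin.cons_self_tail x).symm⟩
  have h1 := h a v
  rw [wedge_apply, Fin.sum_univ_succ]
  have h2 : (Fin.removeNth 0 (Fin.cons v a : Fin (n + 2) → M)) = a := by
    rw [Fin.removeNth_zero, Fin.tail_cons]
  have h3 : ∀ j : Fin (n + 1), ν (Function.update a j v) =
      (-1 : ℤ) ^ (j : ℕ) • ν (Fin.cons v (j.removeNth a)) := by
    intro j
    rw [← Fin.insertNth_removeNth, AlternatingMap.map_insertNth]
    rfl
  have h4 : ∀ j : Fin (n + 1), (Fin.removeNth j.succ (Fin.cons v a : Fin (n + 2) → M)) =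
      (Fin.cons v (j.removeNth a) : Fin (n + 1) → M) := by
    intro j
    funext r
    refine Fin.cases ?_ (fun r => ?_) r
    · rw [Fin.removeNth_apply, Fin.succ_succAbove_zero, Fin.cons_zero, Fin.cons_zero]
    · rw [Fin.removeNth_apply, Fin.succ_succAbove_succ, Fin.cons_succ, Fin.cons_succ,
        Fin.removeNth_apply]
  rw [h2]
  simp only [h4, Fin.cons_zero, Fin.cons_succ, Fin.val_zero, pow_zero, one_smul, smul_eq_mul,
    Fin.val_succ]
  rw [← h1, AlternatingMap.zero_apply, ← Finset.sum_add_distrib]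
  refine Finset.sum_eq_zero fun j _ => ?_
  rw [h3, pow_succ]
  simp only [mul_neg, mul_one, neg_smul]
  rw [mul_smul_comm, add_neg_cancel]

end

section

variable {R : Type u} [CommRing R]

/-- the sum of a symmetric array with zero diagonal -/
theorem sum_symm (F : Fin 8 → Fin 8 → R) (h0 : ∀ i, F i i = 0) (h1 : ∀ i j, F i j = F j i) :
    ∑ i, ∑ j, F i j = 2 * ∑ i, ∑ j, if i < j then F i j else 0 := by
  have e1 : ∀ i j, F i j = (if i < j then F i j else 0) + if j < i then F j i else 0 := by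
    intro i j
    rcases lt_trichotomy i j with h | h | h
    · rw [if_pos h, if_neg (not_lt.2 h.le), add_zero]
    · subst h
      rw [if_neg (lt_irrefl i), h0, add_zero]
    · rw [if_neg (not_lt.2 h.le), if_pos h, zero_add, h1]
  have e2 : ∑ i, ∑ j, F i j = ∑ i, ∑ j, ((if i < j then F i j else 0) +
      if j < i then F j i else 0) :=
    Finset.sum_congr rfl fun i _ => Finset.sum_congr rfl fun j _ => e1 i j
  rw [e2]
  simp only [Finset.sum_add_distrib]
  have e3 : (∑ i : Fin 8, ∑ j : Fin 8, if j < i then F j i else 0) =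
      ∑ i, ∑ j, if i < j then F i j else 0 := Finset.sum_comm
  rw [e3, two_mul]

theorem dt8_eq_dF : dt8 R = dF R := by
  rw [dF_eq]
  rfl

/-- the two normalisations of the `6`-form -/
theorem nuG_eq_nu6 [Algebra ℚ R] (ω : Al R 8) (p : E8 R) (x : Fin 6 → Fin 8 → R) :
    nuG ω (w2 p) x = - nu6 ω p x := by
  rw [nuG_apply, nu6_apply]
  congr 1
  have h2 := sum_symm (fun i j => w2 p i j * vol2 ω i j x)
    (fun i => by
      show w2 p i i * vol2 ω i i x = 0
      have h4 : w2 p i i = 0 := by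
        rw [w2]
        simp [ep2]
      rw [h4, zero_mul])
    (fun i j => by
      show w2 p i j * vol2 ω i j x = w2 p j i * vol2 ω j i x
      rw [w2_swap p i j, vol2_swap ω i j]
      ring)
  rw [h2, ← mul_assoc, half_two, one_mul]
  refine Finset.sum_congr rfl fun c _ => Finset.sum_congr rfl fun d _ => ?_
  split_ifs
  · rw [vol2_apply]
  · rfl

theorem nuF_eq [Algebra ℚ R] (p : E8 R) : ∃ ω : Al R 8, ω = dF R ∧
    ∀ x, nuF (w2 p) x = - nu6 ω p x := by
  refine ⟨dt8 R, dt8_eq_dF, fun x => ?_⟩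
  rw [nuF]
  exact nuG_eq_nu6 _ p x

end

theorem lf_eq_fv {R : Type u} [CommRing R] (p : E8 R) : lf (p3 p) = fv p := by
  apply LinearMap.ext
  intro v
  rw [constr_apply, fv_apply]
  exact Finset.sum_congr rfl fun i _ => mul_comm _ _

section main

variable {R : Type u} [CommRing R] [IsRegularLocalRing R] [IsDomain R] [Algebra ℚ R]

/-- in dimension six, linkage data are primary to the maximal ideal -/
theorem exists_pow_of_datum {p : E8 R} {a : Fin 6 → Fin 8 → R} {w : R}
    (hG : D.GDat R (fv p) a w) (hdim : ringKrullDim R = (6 : ℕ)) :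
    ∃ k, maximalIdeal R ^ k ≤ Ideal.span (Set.range (p3 p)) := by
  obtain ⟨k, hk⟩ := exists_pow_le_of_regular (List.ofFn fun i => fv p (a i)) hG.reg
    (by
      intro r hr
      obtain ⟨i, rfl⟩ := (List.mem_ofFn' _ _).1 hr
      exact hG.mem _)
    (by rw [hdim, List.length_ofFn])
  refine ⟨k, hk.trans ?_⟩
  rw [Ideal.ofList, Ideal.span_le]
  intro r hr
  obtain ⟨i, rfl⟩ := (List.mem_ofFn' _ _).1 hr
  rw [SetLike.mem_coe, ← range_constr]
  refine ⟨a i, ?_⟩
  exact LinearMap.congr_fun (lf_eq_fv p) (a i)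

omit [IsRegularLocalRing R] [IsDomain R] in
theorem cyc_aux {p : E8 R} {ω : Al R 8} (hcr : Cram ω) (hom : ∀ i, ∑ s, w2 p s i * p3 p s = 0)
    (ν : Al R 6) (hν : ∀ x, ν x = - nu6 ω p x) (b : Fin 6 → Fin 8 → R) (v : Fin 8 → R) :
    ∑ j, fv p (b j) * ν (Function.update b j v) = fv p v * ν b := by
  have h1 := nu6_cyc hcr p hom b v
  have h2 : ∀ j, fv p (b j) * ν (Function.update b j v) =
      - (fv p (b j) * nu6 ω p (Function.update b j v)) := fun j => by
    rw [hν, mul_neg]
  rw [Finset.sum_congr rfl fun j _ => h2 j, Finset.sum_neg_distrib, h1, hν, mul_neg]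

omit [IsRegularLocalRing R] [IsDomain R] in
theorem wedge_aux {p : E8 R} {ω : Al R 8} (hcr : Cram ω) (hom : ∀ i, ∑ s, w2 p s i * p3 p s = 0)
    (ν : Al R 6) (hν : ∀ x, ν x = - nu6 ω p x) : wedge (fv p) 6 ν = 0 :=
  wedge_of_cyc (n := 5) (fv p) ν fun b v => cyc_aux hcr hom ν hν b v

/-- **XE**: the module `V = Φ / R p` of a point of the cone which represents linkage data over a
regular local ring of dimension six -/
theorem H23_dual_VR_datum {p : E8 R} (hc : Cone p) {a : Fin 6 → Fin 8 → R} {w : R}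
    (hG : D.GDat R (fv p) a w)
    (hw : nu6 (dF R) p a - w ∈ Ideal.span (Set.range fun i => fv p (a i)))
    (hdim : ringKrullDim R = (6 : ℕ)) : H23 R (Module.Dual R (VR p)) := by
  have hI := exists_pow_of_datum hG hdim
  have hd : Depth6 R := by
    apply depth6_of_dim
    rw [← IsRegularLocalRing.spanFinrank_maximalIdeal (R := R)] at hdim
    exact_mod_cast hdim
  have hgor : Gor (lf (p3 p)) a (-w) := by
    rw [lf_eq_fv]
    refine ⟨hG.reg, fun y hy => ?_, fun y => ?_⟩
    · rw [Ideal.span_singleton_neg]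
      exact hG.col y hy
    · rw [mul_neg, neg_mem_iff]
      exact hG.ann y
  have hext : Ext p := fun y => ⟨_, hc y⟩
  have hcr : Cram (dF R) := cram_dF
  obtain ⟨ω, hω, hν⟩ := nuF_eq p
  rw [← hω] at hw hcr
  refine H23_dual_VR' hd hc hI hgor (ν := nuF (w2 p)) rfl ?_ ?_
  · rw [lf_eq_fv]
    exact wedge_aux hcr (fun i => hext.om i) _ hν
  · rw [lf_eq_fv, hν, sub_neg_eq_add, neg_add_eq_sub, ← neg_sub]
    exact neg_mem hw

end main

end Pool.Agent.Licci.XE

end
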