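import Pool.Agent.Work.MP_a98e4e_ag.Fu.XE.PhiDefs
import Pool.Agent.Work.MP_a98e4e_ag.Fu.E.KForm
import Pool.Agent.Work.MP_a98e4e_ag.Fu.L.FormA2

/-!
# LICCI, codimension 6 (XE): the equation of `Φ` in degree `2`

`w2_perp`: `f ⌟ y_2 = 0` for `y ∈ Φ (p)` of `z`-degree `≤ 2`.
-/

set_option autoImplicit false

namespace Pool.Agent.Licci.XE

open scoped BigOperators

universe u

variable {R : Type u} [CommRing R]

/-- the coefficient of `x_a y_b` in the coordinate `m` of `[x, [y, e_n]]` -/
def KK (n m a b : ℕ) : ℤ := cf (lm a (sp b n)) m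

theorem br_eb_right (Y : E8 R) (n m : Fin 248) :
    br Y (eb n) m = ∑ c, (sc c n m : R) * Y c := by
  rw [br_apply]
  refine Finset.sum_congr rfl fun c _ => ?_
  rw [Finset.sum_eq_single n]
  · simp [eb_apply]
  · intro b _ hb
    simp [eb_apply, hb]
  · intro h
    exact absurd (Finset.mem_univ _) h

theorem KK_eq (n m a b : Fin 248) : KK n m a b = ∑ c : Fin 248, sc b n c * sc a c m := by
  unfold KK
  rw [cf_lm]
  have h := sum_cf (sp b n) (fun p hp => sp_rng b.2 n.2 hp) (fun c => scN a c m)
  rw [← h]
  rfl

/-- the double bracket with a basis vector, one coordinate -/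
theorem br_br_eb (x y : E8 R) (n m : Fin 248) :
    br x (br y (eb n)) m = ∑ a : Fin 248, ∑ b : Fin 248, (KK n m a b : R) * (x a * y b) := by
  rw [br_apply]
  refine Finset.sum_congr rfl fun a _ => ?_
  simp only [br_eb_right, KK_eq]
  push_cast
  simp only [Finset.mul_sum, Finset.sum_mul]
  rw [Finset.sum_comm]
  refine Finset.sum_congr rfl fun b _ => Finset.sum_congr rfl fun c _ => ?_
  ring

theorem KK_wt {n m a b : Fin 248} (h : KK n m a b ≠ 0) :
    cd a + cd b + cd n = cd m + off + off := by
  rw [KK_eq] at h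
  obtain ⟨c, -, hc⟩ := Finset.exists_ne_zero_of_sum_ne_zero h
  have h1 := scN_wt b.2 n.2 (left_ne_zero_of_mul hc)
  have h2 := scN_wt a.2 c.2 (right_ne_zero_of_mul hc)
  omega

theorem sum_lt8 {M : Type*} [AddCommMonoid M] (F : Fin 248 → M)
    (h : ∀ a : Fin 248, 8 ≤ (a : ℕ) → F a = 0) : ∑ a, F a = ∑ c : Fin 8, F (ix c) := by
  rw [← Finset.sum_subset (Finset.subset_univ (Finset.univ.image fun c : Fin 8 => ix c))]
  · rw [Finset.sum_image]
    intro c _ d _ hcd
    have h1 := congrArg Fin.val hcd
    simp only [ix_fin] at h1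
    exact Fin.ext h1
  · intro a _ ha
    apply h
    by_contra hlt
    apply ha
    rw [Finset.mem_image]
    exact ⟨⟨a, by omega⟩, Finset.mem_univ _, (eq_ix (by omega)).symm⟩

/-- another index -/
def oth (j : Fin 8) : Fin 8 := if j = 0 then 1 else 0

/-- weights: which pairs occur -/
def w2c (j : Fin 8) : Bool :=
  (List.range 248).all fun a => (List.range 248).all fun b =>
    bif Nat.beq (Nat.add (Nat.add (cd a) (cd b)) (cd (im2 (oth j) j)))
      (Nat.add (Nat.add (cd (ix (oth j))) off) off) then
      (Nat.blt b 8 || (Nat.blt a 8 && (!(Nat.beq a j) && Nat.beq b (i2 (Fin.ofNat 8 a) j)))) else true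

set_option maxRecDepth 100000 in

set_option maxRecDepth 100000 in

set_option maxRecDepth 100000 in

set_option maxRecDepth 100000 in

set_option maxRecDepth 100000 in

set_option maxRecDepth 100000 in

set_option maxRecDepth 100000 in

set_option maxRecDepth 100000 in

theorem w2c_all : ∀ j : Fin 8, w2c j = true := by
  intro j
  match j with
  | 0 => exact (by decide +kernel)
  | 1 => exact (by decide +kernel)
  | 2 => exact (by decide +kernel)
  | 3 => exact (by decide +kernel)
  | 4 => exact (by decide +kernel)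
  | 5 => exact (by decide +kernel)
  | 6 => exact (by decide +kernel)
  | 7 => exact (by decide +kernel)

set_option maxRecDepth 100000 in
theorem w2k_all : ∀ j c : Fin 8, c ≠ j →
    KK (im2 (oth j) j) (ix (oth j)) (ix c) (i2 c j) - (if c = oth j then 1 else 0) =
      (if j = 0 then 1 else -1) * ep2 c j := by decide +kernel

set_option maxRecDepth 100000 in
theorem w2f_all : ∀ (j : Fin 8) (i : Fin 248),
    kc i (im2 (oth j) j) = if i = i2 (oth j) j then -1 else 0 := by decide +kernel

theorem oth_ne (j : Fin 8) : oth j ≠ j := by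
  unfold oth
  split_ifs with h
  · rw [h]; decide
  · exact Ne.symm h

theorem kf_eb (y : E8 R) (n : Fin 248) : kf y (eb n) = ∑ i, (kc i n : R) * y i := by
  rw [kf_def]
  refine Finset.sum_congr rfl fun i _ => ?_
  rw [Finset.sum_eq_single n]
  · simp [eb_apply]
  · intro b _ hb
    simp [eb_apply, hb]
  · intro h
    exact absurd (Finset.mem_univ _) h

theorem w2_perp {p y : E8 R} (hy : y ∈ Phi p) (h3 : ∀ i, p3 y i = 0) (j : Fin 8) :
    ∑ i, p3 p i * w2 y i j = 0 := by
  set n : Fin 248 := im2 (oth j) j with hn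
  set m : Fin 248 := ix (oth j) with hm
  have hy8 : ∀ b : Fin 248, (b : ℕ) < 8 → y b = 0 := by
    intro b hb
    rw [eq_ix hb]
    exact h3 _
  have h1 : br p (br y (eb n)) m = - (kf y (eb n) * p m) := by
    have h2 := congrFun (hy.2 (eb n)) m
    rw [h2, Pi.sub_apply, Pi.neg_apply, Pi.smul_apply, Pi.smul_apply, smul_eq_mul, smul_eq_mul,
      hy8 m (by rw [hm, ix_fin]; exact (oth j).2), mul_zero, neg_zero, zero_sub]
  have h4 : kf y (eb n) = - y (i2 (oth j) j) := by
    rw [kf_eb, Finset.sum_eq_single (i2 (oth j) j)]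
    · rw [w2f_all, if_pos rfl]
      push_cast
      ring
    · intro b _ hb
      rw [w2f_all, if_neg hb]
      simp
    · intro h
      exact absurd (Finset.mem_univ _) h
  -- which pairs occur
  have hpair : ∀ a b : Fin 248, 8 ≤ (b : ℕ) → KK n m a b ≠ 0 →
      (a : ℕ) < 8 ∧ (a : ℕ) ≠ (j : ℕ) ∧ b = i2 (Fin.ofNat 8 a) j := by
    intro a b hb hK
    have hw := KK_wt hK
    have hc := w2c_all j
    unfold w2c at hc
    have hc2 := all_range (all_range hc a.2) b.2
    rw [show Nat.beq (Nat.add (Nat.add (cd a) (cd b)) (cd (im2 (oth j) j)))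
      (Nat.add (Nat.add (cd (ix (oth j))) off) off) = true from by
        rw [Nat.beq_eq]; exact hw, cond_true, Bool.or_eq_true, Bool.and_eq_true,
        Bool.and_eq_true, Nat.blt_eq, Nat.blt_eq, Nat.beq_eq, Bool.not_eq_true',
        ← Bool.not_eq_true, Nat.beq_eq] at hc2
    rcases hc2 with h | ⟨ha, hne, hbe⟩
    · omega
    · exact ⟨ha, hne, Fin.ext hbe⟩
  have h5 : br p (br y (eb n)) m =
      ∑ c : Fin 8, if c = j then 0 else (KK n m (ix c) (i2 c j) : R) * (p (ix c) * y (i2 c j)) := by
    rw [br_br_eb, sum_lt8]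
    · refine Finset.sum_congr rfl fun c _ => ?_
      have hco : Fin.ofNat 8 ((ix c : Fin 248) : ℕ) = c := by
        rw [ix_fin]
        exact Fin.ofNat_val_eq_self c
      split_ifs with hc
      · refine Finset.sum_eq_zero fun b _ => ?_
        rcases lt_or_ge (b : ℕ) 8 with hb | hb
        · rw [hy8 b hb]
          ring
        · by_cases hK : KK n m (ix c : Fin 248) b = 0
          · rw [hK]
            simp
          · exfalso
            have h6 := (hpair (ix c) b hb hK).2.1
            rw [ix_fin, hc] at h6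
            exact h6 rfl
      · rw [Finset.sum_eq_single (i2 c j)]
        · intro b _ hb
          rcases lt_or_ge (b : ℕ) 8 with hb8 | hb8
          · rw [hy8 b hb8]
            ring
          · by_cases hK : KK n m (ix c : Fin 248) b = 0
            · rw [hK]
              simp
            · exfalso
              have h6 := (hpair (ix c) b hb8 hK).2.2
              rw [hco] at h6
              exact hb h6
        · intro h
          exact absurd (Finset.mem_univ _) h
    · intro a ha
      refine Finset.sum_eq_zero fun b _ => ?_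
      rcases lt_or_ge (b : ℕ) 8 with hb | hb
      · rw [hy8 b hb]
        ring
      · by_cases hK : KK n m a b = 0
        · rw [hK]
          simp
        · have h6 := (hpair a b hb hK).1
          omega
  set s : ℤ := if j = 0 then 1 else -1 with hs
  have hss : (s : R) * (s : R) = 1 := by
    rw [← Int.cast_mul, hs]
    split_ifs <;> simp
  have h7 : ∀ c : Fin 8, (if c = j then 0 else (KK n m (ix c) (i2 c j) : R) *
      (p (ix c) * y (i2 c j))) = (s : R) * (p3 p c * w2 y c j) +
        if c = oth j then p (ix c) * y (i2 c j) else 0 := by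
    intro c
    split_ifs with hc hc2 hc2
    · exact absurd (hc.symm.trans hc2).symm (oth_ne j)
    · rw [hc, w2_self]
      ring
    · have h8 := w2k_all j c hc
      rw [if_pos hc2, sub_eq_iff_eq_add, ← hs] at h8
      rw [h8]
      unfold p3 w2
      push_cast
      ring
    · have h8 := w2k_all j c hc
      rw [if_neg hc2, sub_zero, ← hs] at h8
      rw [h8]
      unfold p3 w2
      push_cast
      ring
  have h9 : (s : R) * ∑ c, p3 p c * w2 y c j = 0 := by
    have h10 := h5.symm.trans h1
    rw [Finset.sum_congr rfl fun c _ => h7 c, Finset.sum_add_distrib, ← Finset.mul_sum,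
      Finset.sum_ite_eq' Finset.univ (oth j), if_pos (Finset.mem_univ _), h4] at h10
    have h11 : p (ix (oth j)) = p m := rfl
    rw [h11] at h10
    linear_combination h10
  calc ∑ i, p3 p i * w2 y i j = (s : R) * ((s : R) * ∑ c, p3 p c * w2 y c j) := by
        rw [← mul_assoc, hss, one_mul]
    _ = 0 := by rw [h9, mul_zero]

end Pool.Agent.Licci.XE
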